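import Pool.Agent.E8helper87.BT.Sum

/-!
# Dilated progressions
-/

set_option autoImplicit false

namespace Pool.Agent.E8helper87.BT

open Finset

/-- the `m` with `n m ∈ (x - y, x]` and `n m ≡ l` modulo `k` -/
noncomputable def Ap (x y : ℝ) (k : ℕ) (l : ℤ) (n : ℕ) : Finset ℕ :=
  (Ioc ⌊(x - y) / n⌋₊ ⌊x / n⌋₊).filter (fun m : ℕ => ((n * m : ℕ) : ℤ) ≡ l [ZMOD k])

theorem mem_Ap {x y : ℝ} {k : ℕ} {l : ℤ} {n : ℕ} (hn : 1 ≤ n) (hy : 0 ≤ y) (hyx : y ≤ x) (m : ℕ) :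
    m ∈ Ap x y k l n ↔ x - y < ((n * m : ℕ) : ℝ) ∧ ((n * m : ℕ) : ℝ) ≤ x ∧
      ((n * m : ℕ) : ℤ) ≡ l [ZMOD k] := by
  have hn0 : (0 : ℝ) < n := by exact_mod_cast hn
  unfold Ap
  rw [mem_filter, mem_Ioc, Nat.floor_lt (div_nonneg (by linarith) hn0.le),
    Nat.le_floor_iff (div_nonneg (by linarith) hn0.le), div_lt_iff₀ hn0, le_div_iff₀ hn0, and_assoc]
  push_cast
  rw [mul_comm (m : ℝ) n]

theorem exists_class (k n : ℕ) (l : ℤ) (hk : 1 ≤ k) (h : Nat.Coprime n k) :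
    ∃ c : ℕ, ∀ m : ℕ, ((n * m : ℕ) : ℤ) ≡ l [ZMOD k] ↔ m ≡ c [MOD k] := by
  obtain ⟨u, hu⟩ := Int.mod_coprime h
  have hk0 : (0 : ℤ) < k := by exact_mod_cast hk
  refine ⟨((u * l) % k).toNat, fun m => ?_⟩
  rw [← Int.natCast_modEq_iff, Int.toNat_of_nonneg (Int.emod_nonneg _ hk0.ne')]
  have e1 : (u * l) % (k : ℤ) ≡ u * l [ZMOD k] := Int.mod_modEq _ _
  push_cast
  constructor
  · intro h1
    have h2 : (m : ℤ) ≡ u * l [ZMOD k] := by
      have h3 := h1.mul_left u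
      have h4 : (u * ((n : ℤ) * m)) ≡ 1 * m [ZMOD k] := by
        have := hu.mul_right (m : ℤ)
        rwa [show (n : ℤ) * u * m = u * (n * m) by ring] at this
      rw [one_mul] at h4
      exact h4.symm.trans h3
    exact h2.trans e1.symm
  · intro h1
    have h2 := (h1.trans e1).mul_left (n : ℤ)
    refine h2.trans ?_
    have := hu.mul_right l
    rwa [one_mul, mul_assoc] at this

theorem Ap_card {x y : ℝ} {k : ℕ} {l : ℤ} {n : ℕ} (hn : 1 ≤ n) (hy : 0 ≤ y) (hyx : y ≤ x)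
    (hk : 1 ≤ k) (h : Nat.Coprime n k) :
    |((Ap x y k l n).card : ℝ) - y / k / n| ≤ 2 := by
  classical
  obtain ⟨c, hc⟩ := exists_class k n l hk h
  have hn0 : (0 : ℝ) < n := by exact_mod_cast hn
  have hk0 : (0 : ℝ) < k := by exact_mod_cast hk
  have hk1 : (1 : ℝ) ≤ k := by exact_mod_cast hk
  obtain ⟨a, ha⟩ : ∃ a : ℕ, a = ⌊(x - y) / n⌋₊ := ⟨_, rfl⟩
  obtain ⟨b, hb⟩ : ∃ b : ℕ, b = ⌊x / n⌋₊ := ⟨_, rfl⟩
  have e1 : Ap x y k l n = (Ioc a b).filter (fun m => m ≡ c [MOD k]) := by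
    unfold Ap
    rw [ha, hb]
    apply filter_congr
    intro m _
    exact hc m
  have h1 := Nat.Ioc_filter_modEq_card a b (r := k) (by omega) c
  rw [← e1] at h1
  have ha1 : (a : ℝ) ≤ (x - y) / n := by rw [ha]; exact Nat.floor_le (div_nonneg (by linarith) hn0.le)
  have ha2 : (x - y) / n < a + 1 := by rw [ha]; exact Nat.lt_floor_add_one _
  have hb1 : (b : ℝ) ≤ x / n := by rw [hb]; exact Nat.floor_le (div_nonneg (by linarith) hn0.le)
  have hb2 : x / n < b + 1 := by rw [hb]; exact Nat.lt_floor_add_one _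
  have hab : (a : ℝ) ≤ b := by
    have : a ≤ b := by
      rw [ha, hb]
      exact Nat.floor_mono (div_le_div_of_nonneg_right (by linarith) hn0.le)
    exact_mod_cast this
  obtain ⟨f, hf⟩ : ∃ f : ℤ, f = ⌊((b : ℚ) - c) / k⌋ := ⟨_, rfl⟩
  obtain ⟨g, hg⟩ : ∃ g : ℤ, g = ⌊((a : ℚ) - c) / k⌋ := ⟨_, rfl⟩
  have f1 : (f : ℝ) ≤ ((b : ℝ) - c) / k := by
    have : ((f : ℤ) : ℚ) ≤ ((b : ℚ) - c) / k := by rw [hf]; exact Int.floor_le _
    exact_mod_cast this
  have f2 : ((b : ℝ) - c) / k < f + 1 := by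
    have : ((b : ℚ) - c) / k < (f : ℤ) + 1 := by rw [hf]; exact Int.lt_floor_add_one _
    exact_mod_cast this
  have g1 : (g : ℝ) ≤ ((a : ℝ) - c) / k := by
    have : ((g : ℤ) : ℚ) ≤ ((a : ℚ) - c) / k := by rw [hg]; exact Int.floor_le _
    exact_mod_cast this
  have g2 : ((a : ℝ) - c) / k < g + 1 := by
    have : ((a : ℚ) - c) / k < (g : ℤ) + 1 := by rw [hg]; exact Int.lt_floor_add_one _
    exact_mod_cast this
  have h2 : (((Ap x y k l n).card : ℤ) : ℝ) = max ((f : ℝ) - g) 0 := by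
    have h3 : (((Ap x y k l n).card : ℕ) : ℤ) = max (f - g) 0 := by
      rw [hf, hg]
      exact h1
    rw [h3]
    push_cast
    rfl
  have h3 : ((Ap x y k l n).card : ℝ) = max ((f : ℝ) - g) 0 := by exact_mod_cast h2
  have e2 : y / k / n = (x / n - (x - y) / n) / k := by
    field_simp
    ring
  have e3 : ((b : ℝ) - c) / k - ((a : ℝ) - c) / k = (b - a) / k := by ring
  have e4 : (0 : ℝ) ≤ (b - a) / k := div_nonneg (by linarith) hk0.le
  have e5 : |((b : ℝ) - a) / k - (x / n - (x - y) / n) / k| ≤ 1 := by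
    rw [← sub_div, abs_div, abs_of_pos hk0, div_le_one hk0]
    refine le_trans ?_ hk1
    rw [abs_le]
    constructor <;> linarith
  have e6 : |max ((f : ℝ) - g) 0 - (b - a) / k| ≤ 1 := by
    rw [abs_le]
    constructor
    · have := le_max_left ((f : ℝ) - g) 0
      linarith
    · have : max ((f : ℝ) - g) 0 ≤ (b - a) / k + 1 := max_le (by linarith) (by linarith)
      linarith
  rw [h3, e2]
  obtain ⟨u1, u2⟩ := abs_le.1 e5
  obtain ⟨v1, v2⟩ := abs_le.1 e6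
  rw [abs_le]
  constructor <;> linarith

/-- multiples of `d` in a dilated progression -/
theorem Ap_mul {x y : ℝ} {k : ℕ} {l : ℤ} {n d : ℕ} (hn : 1 ≤ n) (hd : 1 ≤ d) (hy : 0 ≤ y)
    (hyx : y ≤ x) :
    ((Ap x y k l n).filter (fun m => d ∣ m)).card = (Ap x y k l (n * d)).card := by
  classical
  symm
  apply card_bij (fun m _ => d * m)
  · intro m hm
    rw [mem_Ap (Nat.mul_pos hn hd) hy hyx] at hm
    rw [mem_filter, mem_Ap hn hy hyx, ← mul_assoc]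
    exact ⟨hm, Dvd.intro m rfl⟩
  · intro m _ m' _ h
    exact Nat.eq_of_mul_eq_mul_left hd h
  · intro m hm
    rw [mem_filter, mem_Ap hn hy hyx] at hm
    obtain ⟨h1, c, rfl⟩ := hm
    refine ⟨c, ?_, rfl⟩
    rw [mem_Ap (Nat.mul_pos hn hd) hy hyx, mul_assoc]
    exact h1

end Pool.Agent.E8helper87.BT
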