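import Pool.Agent.E8helper87.BT.Par

/-!
# Compensation
-/

set_option autoImplicit false

namespace Pool.Agent.E8helper87.BT

open Finset Filter Topology

/-- the main term for the dilate by `n` -/
noncomputable def MT (y : ℝ) (k n : ℕ) : ℝ := Ph k * (y / k / n) / Real.log (y / k / n)

theorem Par.tau {θ η ε lam β α ρ z : ℝ} {ν : ℕ} (P : Par θ η ε lam β α ρ z ν) (x y : ℝ) (k : ℕ) (l : ℤ)
    (n R : ℕ) (hn : 1 ≤ n) (hy : 0 ≤ y) (hyx : y ≤ x) (hk : 1 ≤ k) (hz : z = y / k)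
    (hnz : (n : ℝ) ≤ z ^ θ) (Z : ℝ) (hZ : Z = z / n) (hR : R = ⌊Z ^ (1 / 2 - ρ)⌋₊)
    (Q : Set ℕ)
    (h1 : Ph k * SS k R ≤ (1 / 2 + ρ) * Real.log Z)
    (C : Finset ℕ)
    (hC : ∀ p ∈ C, p.Prime ∧ z ^ α < (p : ℝ) ∧ (p : ℝ) ≤ z ^ β ∧ Nat.Coprime p k ∧
      ε * MT y k (n * p) < NQ Q x y k l (n * p) ∧ α / 4 * Real.log z ≤ Ph k * (SS k R - SS k (R / p)))
    (h3 : ∑ p ∈ C, (SS k R - SS k (R / p)) ^ 2 * (MM Q x y k l R (n * p)).card ≤ 4 * ρ * (SS k R * Z)) :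
    ∑ p ∈ C, 1 / (p : ℝ) ≤ 1 := by
  classical
  obtain ⟨b1, b2, b3, b4, b5, b6⟩ := P.basic n hn hnz Z hZ R hR
  have h0 : 0 < z := by linarith [P.z1]
  have hz1 := P.z1
  have hl := Real.log_pos hz1
  have hZ0 : 0 < Z := lt_of_lt_of_le (by positivity) b1
  have hΦ1 := one_le_Ph k hk
  have hΦ0 : 0 < Ph k := by linarith
  have hR0 : (0 : ℝ) ≤ R := by positivity
  have hlZ : Real.log Z ≤ Real.log z := Real.log_le_log hZ0 b2
  -- z^(4 lam) R ≤ Z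
  have hRZ : z ^ (4 * lam) * R ≤ Z := by
    have e1 : (z ^ (4 * lam)) ^ 2 = z ^ (8 * lam) := by
      rw [← Real.rpow_natCast, ← Real.rpow_mul h0.le]
      congr 1
      push_cast
      ring
    have e2 : (z ^ (4 * lam) * R) ^ 2 ≤ Z ^ 2 := by
      rw [mul_pow, e1, sq Z]
      exact mul_le_mul b6 b5 (by positivity) hZ0.le
    exact le_of_sq_le_sq e2 hZ0.le
  have hterm : ∀ p ∈ C, α ^ 2 * ε / 32 * (Real.log z * Z / Ph k) * (1 / (p : ℝ)) ≤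
      (SS k R - SS k (R / p)) ^ 2 * (MM Q x y k l R (n * p)).card := by
    intro p hp
    obtain ⟨c1, c2, c3, c4, c5, c6⟩ := hC p hp
    have hp0 : (0 : ℝ) < p := by exact_mod_cast c1.pos
    have hplam : (p : ℝ) ≤ z ^ lam := c3.trans (Real.rpow_le_rpow_of_exponent_le hz1.le P.b1)
    have hn0 : (0 : ℝ) < n := by exact_mod_cast hn
    -- Z / p
    have eZp : y / k / ((n * p : ℕ) : ℝ) = Z / p := by
      rw [hZ, hz]
      push_cast
      rw [div_div (y / k)]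
    have hZp1 : 1 < Z / p := by
      rw [lt_div_iff₀ hp0, one_mul]
      have : z ^ lam < z ^ (8 * lam) := by
        apply Real.rpow_lt_rpow_of_exponent_lt hz1
        linarith [P.l0]
      linarith
    have hlZp : 0 < Real.log (Z / p) := Real.log_pos hZp1
    have hp1 : (1 : ℝ) ≤ p := by exact_mod_cast c1.one_lt.le
    have hlZp2 : Real.log (Z / p) ≤ Real.log z := by
      apply Real.log_le_log (by linarith)
      exact (div_le_self hZ0.le hp1).trans b2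
    have hMT : Ph k * (Z / p) / Real.log z ≤ MT y k (n * p) := by
      unfold MT
      rw [eZp]
      exact div_le_div_of_nonneg_left (by positivity) hlZp hlZp2
    have hR2 : (R : ℝ) ≤ ε / 2 * (Ph k * (Z / p) / Real.log z) := by
      have e3 : ε / 2 * (Ph k * (Z / p) / Real.log z) = ε * Ph k * Z / (2 * p * Real.log z) := by
        field_simp
      rw [e3, le_div_iff₀ (by positivity)]
      have e4 : 2 * Real.log z * p ≤ ε * z ^ (4 * lam) := by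
        have e5 : z ^ (4 * lam) = z ^ (3 * lam) * z ^ lam := by
          rw [← Real.rpow_add h0]
          congr 1
          ring
        rw [e5, ← mul_assoc]
        exact mul_le_mul P.e8 hplam hp0.le (mul_nonneg P.ε0.le (by positivity))
      calc (R : ℝ) * (2 * p * Real.log z) = (2 * Real.log z * p) * R := by ring
        _ ≤ (ε * z ^ (4 * lam)) * R := mul_le_mul_of_nonneg_right e4 hR0
        _ = ε * (z ^ (4 * lam) * R) := by ring
        _ ≤ ε * Z := mul_le_mul_of_nonneg_left hRZ P.ε0.le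
        _ ≤ ε * Ph k * Z := by
            have : ε * Z ≤ (ε * Z) * Ph k := le_mul_of_one_le_right (mul_nonneg P.ε0.le hZ0.le) hΦ1
            linarith
    have hcard : ε / 2 * (Ph k * (Z / p) / Real.log z) ≤ (MM Q x y k l R (n * p)).card := by
      have h4 := NQ_le (l := l) (k := k) (Nat.mul_pos hn c1.pos) hy hyx Q R
      have h5 := mul_le_mul_of_nonneg_left hMT P.ε0.le
      linarith
    have hd : α / 4 * Real.log z / Ph k ≤ SS k R - SS k (R / p) := by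
      rw [div_le_iff₀ hΦ0]
      linarith
    have hα0 := P.a0
    have hd2 : (α / 4 * Real.log z / Ph k) ^ 2 ≤ (SS k R - SS k (R / p)) ^ 2 :=
      pow_le_pow_left₀ (by positivity) hd 2
    have hε0 := P.ε0
    calc α ^ 2 * ε / 32 * (Real.log z * Z / Ph k) * (1 / (p : ℝ)) =
          (α / 4 * Real.log z / Ph k) ^ 2 * (ε / 2 * (Ph k * (Z / p) / Real.log z)) := by
            field_simp
            ring
      _ ≤ _ := mul_le_mul hd2 hcard (by positivity) (sq_nonneg _)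
  have hsum := (sum_le_sum hterm).trans h3
  rw [← mul_sum] at hsum
  obtain ⟨σ, hσ⟩ : ∃ σ : ℝ, σ = ∑ p ∈ C, 1 / (p : ℝ) := ⟨_, rfl⟩
  rw [← hσ] at hsum ⊢
  have hα0 := P.a0
  have hε0 := P.ε0
  have hr0 := P.r0
  have hr1 := P.r1
  have hS0 := SS_nonneg k R
  have h4 : α ^ 2 * ε * Real.log z * σ ≤ 128 * ρ * (Ph k * SS k R) := by
    have h5 : α ^ 2 * ε / 32 * (Real.log z * Z / Ph k) * σ = (α ^ 2 * ε * Real.log z * σ) * (Z / (32 * Ph k)) := by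
      field_simp
    have h6 : 4 * ρ * (SS k R * Z) = (128 * ρ * (Ph k * SS k R)) * (Z / (32 * Ph k)) := by
      field_simp
      ring
    rw [h5, h6] at hsum
    exact le_of_mul_le_mul_right hsum (by positivity)
  have h5 : Ph k * SS k R ≤ Real.log z := by
    have hlZ0 : 0 ≤ Real.log Z := by
      apply Real.log_nonneg
      refine le_trans ?_ b1
      exact Real.one_le_rpow hz1.le (by linarith [P.θ1])
    nlinarith
  have h6 : 128 * ρ * (Ph k * SS k R) ≤ α ^ 2 * ε * Real.log z := by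
    have := P.r5
    calc 128 * ρ * (Ph k * SS k R) ≤ 128 * ρ * Real.log z := mul_le_mul_of_nonneg_left h5 (by linarith)
      _ ≤ _ := mul_le_mul_of_nonneg_right this hl.le
  have h7 : α ^ 2 * ε * Real.log z * σ ≤ α ^ 2 * ε * Real.log z * 1 := by linarith
  exact le_of_mul_le_mul_left h7 (by positivity)

theorem small4 (a b c d : ℝ) (ha : 0 < a) (hb : 0 < b) (hc : 0 < c) (hd : 0 < d) :
    ∃ r : ℝ, 0 < r ∧ r ≤ a ∧ r ≤ b ∧ r ≤ c ∧ r ≤ d :=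
  ⟨min a (min b (min c d)), by positivity, min_le_left _ _,
    (min_le_right _ _).trans (min_le_left _ _),
    (min_le_right _ _).trans ((min_le_right _ _).trans (min_le_left _ _)),
    (min_le_right _ _).trans ((min_le_right _ _).trans (min_le_right _ _))⟩

open Classical in
theorem main1 (θ η ε : ℝ) (hθ0 : 0 < θ) (hθ1 : θ < 1) (hη0 : 0 < η) (hη1 : η ≤ 1) (hε0 : 0 < ε) (hε1 : ε ≤ 1) :
    ∃ ρ : ℝ, 0 < ρ ∧ ρ ≤ 1 / 8 ∧ ∃ z0 : ℝ, 1 < z0 ∧ ∀ (x y : ℝ) (k : ℕ) (l : ℤ), 1 ≤ k → 0 ≤ y → y ≤ x →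
      z0 ≤ y / k → ∀ Q : Set ℕ,
      (∀ m ∈ Q, m.Prime ∨ ∀ p : ℕ, p.Prime → p ∣ m → Real.sqrt (y / k) < p) →
      ∀ U X : ℕ, (y / k) ^ η ≤ X → (X : ℝ) ≤ (y / k) ^ θ →
      ∑ n ∈ (BB k X).filter (fun n => U < n ∧ (2 - ρ) * MT y k n ≤ NQ Q x y k l n), 1 / (n : ℝ) ≤
        ∑ n ∈ (BB k X).filter (fun n => U < n ∧ (NQ Q x y k l n : ℝ) ≤ ε * MT y k n), 1 / (n : ℝ) +
          ε * SS k X := by
  obtain ⟨lam, hl0, hl1⟩ : ∃ lam : ℝ, 0 < lam ∧ lam ≤ (1 - θ) / 8 := ⟨(1 - θ) / 8, by linarith, le_rfl⟩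
  obtain ⟨β, hβ⟩ : ∃ β : ℝ, β = min lam (η * ε ^ 2 / 256) := ⟨_, rfl⟩
  have hβ0 : 0 < β := by rw [hβ]; exact lt_min hl0 (by positivity)
  have hβ1 : β ≤ lam := by rw [hβ]; exact min_le_left _ _
  have hβ2 : β ≤ η * ε ^ 2 / 256 := by rw [hβ]; exact min_le_right _ _
  obtain ⟨c0, hc0⟩ : ∃ c0 : ℝ, c0 = 16 / ε ^ 2 := ⟨_, rfl⟩
  have hc00 : 0 < c0 := by rw [hc0]; positivity
  obtain ⟨α, hα⟩ : ∃ α : ℝ, α = β * Real.exp (-(c0 + 2)) := ⟨_, rfl⟩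
  have hα0 : 0 < α := by rw [hα]; positivity
  have hαβ : α < β := by
    rw [hα]
    have : Real.exp (-(c0 + 2)) < Real.exp 0 := Real.exp_lt_exp.2 (by linarith)
    rw [Real.exp_zero] at this
    nlinarith
  have hlogαβ : Real.log (β / α) = c0 + 2 := by
    rw [hα, div_mul_cancel_left₀ hβ0.ne', Real.log_inv, Real.log_exp]
    ring
  obtain ⟨ν, hν⟩ : ∃ ν : ℕ, ν = ⌈2 / α⌉₊ := ⟨_, rfl⟩
  have hν1 : 2 / α ≤ ν := by rw [hν]; exact Nat.le_ceil _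
  have hν0 : (0 : ℝ) ≤ ν := by positivity
  obtain ⟨ρ, hρ0, hρ1, hρ2, hρ3, hρ5⟩ := small4 (1 / 8) (lam / 2) (α / (32 * (ν + 1)))
    (α ^ 2 * ε / 128) (by norm_num) (by positivity) (by positivity) (by positivity)
  refine ⟨ρ, hρ0, hρ1, ?_⟩
  obtain ⟨Z0, hZ03, hnear⟩ := near ρ hρ0 hρ1
  obtain ⟨z1, hz11, hmert1⟩ := mert α β (c0 + 1) hα0 hαβ (by rw [hlogαβ]; linarith)
  obtain ⟨z2, hz21, hmert2⟩ := mert (1 / 2) 1 (1 / 2) (by norm_num) (by norm_num) (by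
    have := Real.log_two_gt_d9
    norm_num at this ⊢
    linarith)
  -- large `z`
  have hev : ∀ᶠ z : ℝ in atTop, Z0 ≤ z ^ (1 - θ) ∧ z1 ≤ z ∧ z2 ≤ z ^ α ∧
      8 / α ≤ Real.log z ∧ 1 / β ≤ Real.log z ∧ 2 ≤ z ^ (lam / 2) ∧
      2 * Real.log z ≤ ε * z ^ (3 * lam) ∧ 1 < z := by
    have t1 : ∀ᶠ z : ℝ in atTop, Z0 ≤ z ^ (1 - θ) := (tendsto_rpow_atTop (by linarith)).eventually_ge_atTop _
    have t2 : ∀ᶠ z : ℝ in atTop, z1 ≤ z := eventually_ge_atTop _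
    have t3 : ∀ᶠ z : ℝ in atTop, z2 ≤ z ^ α := (tendsto_rpow_atTop hα0).eventually_ge_atTop _
    have t5 : ∀ᶠ z : ℝ in atTop, 8 / α ≤ Real.log z := Real.tendsto_log_atTop.eventually_ge_atTop _
    have t6 : ∀ᶠ z : ℝ in atTop, 1 / β ≤ Real.log z := Real.tendsto_log_atTop.eventually_ge_atTop _
    have t7 : ∀ᶠ z : ℝ in atTop, 2 ≤ z ^ (lam / 2) :=
      (tendsto_rpow_atTop (by linarith)).eventually_ge_atTop _
    have t8 : ∀ᶠ z : ℝ in atTop, 2 * Real.log z ≤ ε * z ^ (3 * lam) := by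
      have h := (isLittleO_log_rpow_atTop (show 0 < 3 * lam by linarith)).bound
        (show (0 : ℝ) < ε / 2 by linarith)
      filter_upwards [h, eventually_gt_atTop (1 : ℝ)] with z hz hz1
      rw [Real.norm_of_nonneg (Real.log_nonneg hz1.le), Real.norm_of_nonneg (by positivity)] at hz
      linarith
    filter_upwards [t1, t2, t3, t5, t6, t7, t8, eventually_gt_atTop (1 : ℝ)] with z a1 a2 a3 a5 a6 a7 a8 a9
    exact ⟨a1, a2, a3, a5, a6, a7, a8, a9⟩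
  obtain ⟨z0, hz0⟩ := eventually_atTop.1 hev
  refine ⟨max z0 2, lt_of_lt_of_le (by norm_num) (le_max_right _ _), ?_⟩
  intro x y k l hk hy hyx hzy Q hQ U X hXη hXθ
  obtain ⟨z, hz⟩ : ∃ z : ℝ, z = y / k := ⟨_, rfl⟩
  rw [← hz] at hzy hQ hXη hXθ
  obtain ⟨a1, a2, a3, a5, a6, a7, a8, a9⟩ := hz0 z ((le_max_left _ _).trans hzy)
  have hz0' : 0 < z := by linarith
  have P : Par θ η ε lam β α ρ z ν :=
    { θ0 := hθ0, θ1 := hθ1, η0 := hη0, ε0 := hε0, ε1 := hε1, l0 := hl0, l1 := hl1, b0 := hβ0, b1 := hβ1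
      b2 := by
        have h1 : ε ^ 2 ≤ 1 := by nlinarith
        have h2 : η * ε ^ 2 ≤ η * 1 := mul_le_mul_of_nonneg_left h1 hη0.le
        linarith
      a0 := hα0, a1 := hαβ.le, hν := hν1, r0 := hρ0, r1 := hρ1, r2 := hρ2
      r3 := by
        rw [le_div_iff₀ (by positivity)] at hρ3
        nlinarith
      r5 := by linarith
      z1 := a9
      e5 := by
        rw [div_le_iff₀ hα0] at a5
        linarith
      e6 := by
        rw [div_le_iff₀ hβ0] at a6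
        linarith
      e7 := a7
      e8 := a8 }
  have hX1 : 1 ≤ X := by
    have : (1 : ℝ) ≤ X := (Real.one_le_rpow a9.le hη0.le).trans hXη
    exact_mod_cast this
  -- facts for a near-extremal dilate
  have hfacts : ∀ n ∈ BB k X, (2 - ρ) * MT y k n ≤ NQ Q x y k l n → ∀ R : ℕ,
      R = ⌊(z / n) ^ (1 / 2 - ρ)⌋₊ →
      (Ph k * SS k R ≤ (1 / 2 + ρ) * Real.log (z / n) ∧ EX k R ≤ 2 * ρ * Real.log z ∧
      ∀ P : Finset ℕ, (∀ p ∈ P, p.Prime ∧ p ≤ R ∧ Nat.Coprime p k) →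
        ∑ p ∈ P, (SS k R - SS k (R / p)) ^ 2 * (MM Q x y k l R (n * p)).card ≤
          4 * ρ * (SS k R * (z / n))) ∧
      (z ^ ((1 - θ) * (1 / 2 - ρ)) ≤ 2 * R ∧ z ^ lam ≤ R ∧ (R : ℝ) ^ 2 ≤ z) ∧ (n : ℝ) ≤ z ^ θ ∧ 1 ≤ n := by
    intro n hn hne R hR
    rw [mem_BB] at hn
    have hn0 : (0 : ℝ) < n := by exact_mod_cast hn.1.1
    have hnz : (n : ℝ) ≤ z ^ θ := by
      have : (n : ℝ) ≤ X := by exact_mod_cast hn.1.2
      linarith
    obtain ⟨b1, b2, b3, b4, b5, b6⟩ := P.basic n hn.1.1 hnz (z / n) rfl R hR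
    have hZpos : 0 < z / n := by positivity
    have hQ' : ∀ m ∈ Q, R < m → ∀ p : ℕ, p.Prime → p ∣ m → R < p := by
      intro m hm hRm p hp hpm
      rcases hQ m hm with h | h
      · rw [(Nat.prime_dvd_prime_iff_eq hp h).1 hpm]
        exact hRm
      · have h1 := h p hp hpm
        have h2 : (R : ℝ) ≤ Real.sqrt z := Real.le_sqrt_of_sq_le (b5.trans b2)
        exact_mod_cast lt_of_le_of_lt h2 h1
    have h1 := (hnear x y k l n hn.1.1 hy hyx hk hn.2 Q (z / n) R (by rw [hz]) hR (a1.trans b1) hQ').2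
      (by
        unfold MT at hne
        rw [← hz] at hne
        exact hne)
    refine ⟨⟨h1.1, ?_, h1.2.2⟩, ⟨b3, b4, b5.trans b2⟩, hnz, hn.1.1⟩
    have h2 : EX k R ≤ 2 * ρ * Real.log (z / n) := h1.2.1
    refine h2.trans ?_
    exact mul_le_mul_of_nonneg_left (Real.log_le_log hZpos b2) (by linarith)
  by_cases hex : ∃ n ∈ BB k X, (2 - ρ) * MT y k n ≤ NQ Q x y k l n
  swap
  · have e : (BB k X).filter (fun n => U < n ∧ (2 - ρ) * MT y k n ≤ NQ Q x y k l n) = ∅ := by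
      rw [filter_eq_empty_iff]
      intro n hn h
      exact hex ⟨n, hn, h.2⟩
    rw [e, sum_empty]
    have h1 : 0 ≤ ∑ n ∈ (BB k X).filter (fun n => U < n ∧ (NQ Q x y k l n : ℝ) ≤ ε * MT y k n),
      1 / (n : ℝ) := sum_nonneg fun _ _ => by positivity
    have h2 := SS_nonneg k X
    positivity
  obtain ⟨n0, hn0, hne0⟩ := hex
  obtain ⟨R0, hR0⟩ : ∃ R0 : ℕ, R0 = ⌊(z / n0) ^ (1 / 2 - ρ)⌋₊ := ⟨_, rfl⟩
  obtain ⟨⟨f1, f2, f3⟩, ⟨f4, f5, f6⟩, f7, f8⟩ := hfacts n0 hn0 hne0 R0 hR0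
  -- the primes
  obtain ⟨J, hJ⟩ : ∃ J : Finset ℕ, J = (Icc 1 ⌊z ^ β⌋₊).filter
    (fun p : ℕ => p.Prime ∧ z ^ α < (p : ℝ)) := ⟨_, rfl⟩
  have hJmem : ∀ p ∈ J, p.Prime ∧ z ^ α < (p : ℝ) ∧ (p : ℝ) ≤ z ^ β ∧ p ≤ ⌊z ^ β⌋₊ := by
    intro p hp
    rw [hJ, mem_filter, mem_Icc] at hp
    exact ⟨hp.2.1, hp.2.2, (Nat.le_floor_iff (by positivity)).1 hp.1.2, hp.1.2⟩
  have hJsum : c0 + 1 ≤ ∑ p ∈ J, 1 / (p : ℝ) := by
    apply hmert1 z a2 J
    intro p hp h1 h2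
    rw [hJ, mem_filter, mem_Icc]
    exact ⟨⟨hp.pos, Nat.le_floor h2⟩, hp, h1⟩
  obtain ⟨I, hI⟩ : ∃ I : Finset ℕ, I = J.filter (fun p => ¬ p ∣ k) := ⟨_, rfl⟩
  have hImem : ∀ p ∈ I, p.Prime ∧ z ^ α < (p : ℝ) ∧ (p : ℝ) ≤ z ^ β ∧ p ≤ ⌊z ^ β⌋₊ ∧ Nat.Coprime p k := by
    intro p hp
    rw [hI, mem_filter] at hp
    obtain ⟨h1, h2, h3, h4⟩ := hJmem p hp.1
    exact ⟨h1, h2, h3, h4, (Nat.Prime.coprime_iff_not_dvd h1).2 hp.2⟩
  have hdk : ∑ p ∈ J.filter (fun p => p ∣ k), 1 / (p : ℝ) ≤ 1 :=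
    P.primes_k k R0 hk f5 f6 f2 _ (fun c hc => by
      rw [mem_filter] at hc
      obtain ⟨h1, h2, h3, h4⟩ := hJmem c hc.1
      exact ⟨h1, h2, h3, hc.2⟩)
  obtain ⟨L, hL⟩ : ∃ L : ℝ, L = ∑ p ∈ I, 1 / (p : ℝ) := ⟨_, rfl⟩
  have hLc : c0 ≤ L := by
    have h1 := sum_filter_add_sum_filter_not J (fun p => p ∣ k) (fun p : ℕ => 1 / (p : ℝ))
    rw [← hI, ← hL] at h1
    linarith
  have hL0 : 0 < L := by linarith
  have hbd := P.bdry k X ⌊z ^ β⌋₊ hXη rfl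
  have h1 := tk k X ⌊z ^ β⌋₊ hX1 I (fun p hp => ⟨(hImem p hp).1, (hImem p hp).2.2.2.2, (hImem p hp).2.2.2.1⟩)
    L (4 * β / η) 1 hL hL0 (by positivity) hbd (by norm_num)
    (fun n => U < n ∧ (2 - ρ) * MT y k n ≤ NQ Q x y k l n)
    (fun n => U < n ∧ (NQ Q x y k l n : ℝ) ≤ ε * MT y k n) (by
    intro n hn hne
    obtain ⟨R, hR⟩ : ∃ R : ℕ, R = ⌊(z / n) ^ (1 / 2 - ρ)⌋₊ := ⟨_, rfl⟩
    obtain ⟨⟨g1, g2, g3⟩, ⟨g4, g5, g6⟩, g7, g8⟩ := hfacts n hn hne.2 R hR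
    refine P.tau x y k l n R g8 hy hyx hk hz g7 (z / n) rfl hR Q g1 _ ?_ (g3 _ ?_)
    · intro p hp
      rw [mem_filter] at hp
      obtain ⟨h2, h3, h4, h5, h6⟩ := hImem p hp.1
      refine ⟨h2, h3, h4, h6, not_le.1 fun h7 => hp.2 ⟨?_, h7⟩, P.diff k R hk g5 g6 g2 z2 a3 hmert2 p h3 h4⟩
      exact hne.1.trans_le (Nat.le_mul_of_pos_right n h2.pos)
    · intro p hp
      rw [mem_filter] at hp
      obtain ⟨h2, h3, h4, h5, h6⟩ := hImem p hp.1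
      refine ⟨h2, ?_, h6⟩
      have h7 : (p : ℝ) ≤ R := h4.trans ((Real.rpow_le_rpow_of_exponent_le a9.le hβ1).trans g5)
      exact_mod_cast h7)
  refine h1.trans ?_
  have hS0 := SS_nonneg k X
  have hfin : 1 / L + Real.sqrt (1 / L + 2 * (4 * β / η)) + 4 * β / η ≤ ε := by
    have e1 : 1 / L ≤ ε ^ 2 / 16 := by
      rw [div_le_div_iff₀ hL0 (by norm_num)]
      have : 16 = ε ^ 2 * c0 := by
        rw [hc0]
        field_simp
      nlinarith [sq_nonneg ε]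
    have e2 : 4 * β / η ≤ ε ^ 2 / 64 := by
      rw [div_le_div_iff₀ hη0 (by norm_num)]
      nlinarith
    have e3 : Real.sqrt (1 / L + 2 * (4 * β / η)) ≤ ε / 2 := by
      rw [Real.sqrt_le_left (by linarith)]
      nlinarith
    nlinarith
  have h2 := mul_le_mul_of_nonneg_right hfin hS0
  linarith

end Pool.Agent.E8helper87.BT
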