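import Pool.Agent.E8helper87.BT.Main1

/-!
# The average over the dilates
-/

set_option autoImplicit false

namespace Pool.Agent.E8helper87.BT

open Finset Filter Topology

theorem near_upper (θ η : ℝ) (hθ0 : 0 < θ) (hθ1 : θ < 1) (hη : 0 < η) (hη1 : η ≤ 1) :
    ∃ z0 : ℝ, 1 < z0 ∧ ∀ (x y : ℝ) (k : ℕ) (l : ℤ), 1 ≤ k → 0 ≤ y → y ≤ x →
      z0 ≤ y / k → ∀ Q : Set ℕ,
      (∀ m ∈ Q, m.Prime ∨ ∀ p : ℕ, p.Prime → p ∣ m → Real.sqrt (y / k) < p) →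
      ∀ n : ℕ, 1 ≤ n → (n : ℝ) ≤ (y / k) ^ θ → Nat.Coprime n k →
        (NQ Q x y k l n : ℝ) ≤ (2 + η) * MT y k n := by
  obtain ⟨Z0, hZ03, hnear⟩ := near (η / 8) (by linarith) (by linarith)
  have hev : ∀ᶠ z : ℝ in atTop, Z0 ≤ z ^ (1 - θ) ∧ 1 < z := by
    have t1 : ∀ᶠ z : ℝ in atTop, Z0 ≤ z ^ (1 - θ) := (tendsto_rpow_atTop (by linarith)).eventually_ge_atTop _
    filter_upwards [t1, eventually_gt_atTop (1 : ℝ)] with z a1 a2
    exact ⟨a1, a2⟩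
  obtain ⟨z0, hz0⟩ := eventually_atTop.1 hev
  refine ⟨max z0 2, lt_of_lt_of_le (by norm_num) (le_max_right _ _), ?_⟩
  intro x y k l hk hy hyx hzy Q hQ n hn hnz hnk
  obtain ⟨z, hz⟩ : ∃ z : ℝ, z = y / k := ⟨_, rfl⟩
  rw [← hz] at hzy hQ hnz
  obtain ⟨a1, a2⟩ := hz0 z ((le_max_left _ _).trans hzy)
  have hz0' : 0 < z := by linarith
  have hn0 : (0 : ℝ) < n := by exact_mod_cast hn
  have hn1 : (1 : ℝ) ≤ n := by exact_mod_cast hn
  have g1 : z ^ (1 - θ) ≤ z / n := by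
    rw [le_div_iff₀ hn0]
    calc z ^ (1 - θ) * n ≤ z ^ (1 - θ) * z ^ θ := mul_le_mul_of_nonneg_left hnz (by positivity)
      _ = z := by rw [← Real.rpow_add hz0']; simp
  have g2 : z / n ≤ z := div_le_self hz0'.le hn1
  have g3 : 1 ≤ z / n := by
    refine le_trans ?_ g1
    exact Real.one_le_rpow a2.le (by linarith)
  have h1 := (hnear x y k l n hn hy hyx hk hnk Q (z / n) ⌊(z / n) ^ (1 / 2 - η / 8)⌋₊ (by rw [hz]) rfl
    (a1.trans g1) (by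
      intro m hm hRm p hp hpm
      rcases hQ m hm with h | h
      · rw [(Nat.prime_dvd_prime_iff_eq hp h).1 hpm]
        exact hRm
      · have h1 := h p hp hpm
        have h2 : ((⌊(z / n) ^ (1 / 2 - η / 8)⌋₊ : ℕ) : ℝ) ≤ Real.sqrt z := by
          refine (Nat.floor_le (by positivity)).trans ?_
          rw [Real.sqrt_eq_rpow]
          calc (z / n) ^ (1 / 2 - η / 8) ≤ (z / n) ^ (1 / 2 : ℝ) :=
                Real.rpow_le_rpow_of_exponent_le g3 (by linarith)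
            _ ≤ z ^ (1 / 2 : ℝ) := Real.rpow_le_rpow (by positivity) g2 (by norm_num)
        exact_mod_cast lt_of_le_of_lt h2 h1)).1
  unfold MT
  rw [← hz]
  refine h1.trans (le_of_eq ?_)
  ring

open Classical in
theorem main2 (θ η : ℝ) (hθ0 : 0 < θ) (hθ1 : θ < 1) (hη0 : 0 < η) (hη1 : η ≤ 1) :
    ∃ δ : ℝ, 0 < δ ∧ ∃ z0 : ℝ, 1 < z0 ∧ ∀ (x y : ℝ) (k : ℕ) (l : ℤ), 1 ≤ k → 0 ≤ y → y ≤ x →
      z0 ≤ y / k → ∀ Q : Set ℕ,
      (∀ m ∈ Q, m.Prime ∨ ∀ p : ℕ, p.Prime → p ∣ m → Real.sqrt (y / k) < p) →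
      ∀ U X : ℕ, (y / k) ^ η ≤ X → (X : ℝ) ≤ (y / k) ^ θ →
      η * SS k X ≤ ∑ n ∈ (BB k X).filter (fun n => U < n), 1 / (n : ℝ) →
      ∑ n ∈ (BB k X).filter (fun n => U < n), (NQ Q x y k l n : ℝ) ≤
        (2 - δ) * ∑ n ∈ (BB k X).filter (fun n => U < n), MT y k n := by
  obtain ⟨ρ, hρ0, hρ1, z1, hz11, h1⟩ := main1 θ η (η / 2) hθ0 hθ1 hη0 hη1 (by linarith) (by linarith)
  have h1θ : 0 < 1 - θ := by linarith
  obtain ⟨κ, hκ⟩ : ∃ κ : ℝ, κ = ρ * (1 - θ) / 8 := ⟨_, rfl⟩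
  have hκ0 : 0 < κ := by rw [hκ]; positivity
  obtain ⟨z2, hz21, h2⟩ := near_upper θ κ hθ0 hθ1 hκ0 (by rw [hκ]; nlinarith)
  refine ⟨κ, hκ0, max z1 z2, lt_of_lt_of_le hz11 (le_max_left _ _), ?_⟩
  intro x y k l hk hy hyx hzy Q hQ U X hXη hXθ hSB
  have g1 := h1 x y k l hk hy hyx ((le_max_left _ _).trans hzy) Q hQ U X hXη hXθ
  have g2' := h2 x y k l hk hy hyx ((le_max_right _ _).trans hzy) Q hQ
  obtain ⟨z, hz⟩ : ∃ z : ℝ, z = y / k := ⟨_, rfl⟩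
  have hz1 : 1 < z := by
    rw [hz]
    exact lt_of_lt_of_le hz11 ((le_max_left _ _).trans hzy)
  rw [← hz] at g2' hXη hXθ
  have hz0 : 0 < z := by linarith
  have hl := Real.log_pos hz1
  have hΦ1 := one_le_Ph k hk
  obtain ⟨B, hB⟩ : ∃ B : Finset ℕ, B = (BB k X).filter (fun n => U < n) := ⟨_, rfl⟩
  rw [← hB] at hSB ⊢
  have hBmem : ∀ n ∈ B, 1 ≤ n ∧ (n : ℝ) ≤ z ^ θ ∧ Nat.Coprime n k := by
    intro n hn
    rw [hB, mem_filter, mem_BB] at hn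
    refine ⟨hn.1.1.1, ?_, hn.1.2⟩
    have : (n : ℝ) ≤ X := by exact_mod_cast hn.1.1.2
    linarith
  have g2 : ∀ n ∈ B, (NQ Q x y k l n : ℝ) ≤ (2 + κ) * MT y k n := fun n hn =>
    g2' n (hBmem n hn).1 (hBmem n hn).2.1 (hBmem n hn).2.2
  obtain ⟨SB, hSBd⟩ : ∃ SB : ℝ, SB = ∑ n ∈ B, 1 / (n : ℝ) := ⟨_, rfl⟩
  rw [← hSBd] at hSB
  -- the size of the main terms
  have hmt : ∀ n ∈ B, Ph k * z / Real.log z * (1 / (n : ℝ)) ≤ MT y k n ∧
      MT y k n ≤ Ph k * z / ((1 - θ) * Real.log z) * (1 / (n : ℝ)) := by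
    intro n hn
    obtain ⟨hn1', hnz, _⟩ := hBmem n hn
    have hn0 : (0 : ℝ) < n := by exact_mod_cast hn1'
    have hn1 : (1 : ℝ) ≤ n := by exact_mod_cast hn1'
    have f1 : z ^ (1 - θ) ≤ z / n := by
      rw [le_div_iff₀ hn0]
      calc z ^ (1 - θ) * n ≤ z ^ (1 - θ) * z ^ θ := mul_le_mul_of_nonneg_left hnz (by positivity)
        _ = z := by rw [← Real.rpow_add hz0]; simp
    have f2 : z / n ≤ z := div_le_self hz0.le hn1
    have f3 : 0 < z / n := by positivity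
    have f4 : (1 - θ) * Real.log z ≤ Real.log (z / n) := by
      rw [← Real.log_rpow hz0]
      exact Real.log_le_log (by positivity) f1
    have f5 : Real.log (z / n) ≤ Real.log z := Real.log_le_log f3 f2
    have f6 : 0 < (1 - θ) * Real.log z := by positivity
    unfold MT
    rw [← hz]
    constructor
    · have e : Ph k * z / Real.log z * (1 / (n : ℝ)) = Ph k * (z / n) / Real.log z := by
        field_simp
      rw [e]
      exact div_le_div_of_nonneg_left (by positivity) (by linarith) f5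
    · have e : Ph k * z / ((1 - θ) * Real.log z) * (1 / (n : ℝ)) =
          Ph k * (z / n) / ((1 - θ) * Real.log z) := by
        field_simp
      rw [e]
      exact div_le_div_of_nonneg_left (by positivity) f6 f4
  have hmtpos : ∀ n ∈ B, 0 < MT y k n := by
    intro n hn
    refine lt_of_lt_of_le ?_ (hmt n hn).1
    have hn0 : (0 : ℝ) < n := by exact_mod_cast (hBmem n hn).1
    positivity
  obtain ⟨A, hA⟩ : ∃ A : Finset ℕ, A = (BB k X).filter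
    (fun n => U < n ∧ (2 - ρ) * MT y k n ≤ NQ Q x y k l n) := ⟨_, rfl⟩
  obtain ⟨E, hE⟩ : ∃ E : Finset ℕ, E = (BB k X).filter
    (fun n => U < n ∧ (NQ Q x y k l n : ℝ) ≤ η / 2 * MT y k n) := ⟨_, rfl⟩
  rw [← hA, ← hE] at g1
  have hAsub : A ⊆ B := by
    intro n hn
    rw [hA, mem_filter] at hn
    rw [hB, mem_filter]
    exact ⟨hn.1, hn.2.1⟩
  have hEsub : E ⊆ B := by
    intro n hn
    rw [hE, mem_filter] at hn
    rw [hB, mem_filter]
    exact ⟨hn.1, hn.2.1⟩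
  have hdis : Disjoint A E := by
    rw [disjoint_left]
    intro n hn hn'
    have h3 := hmtpos n (hAsub hn)
    rw [hA, mem_filter] at hn
    rw [hE, mem_filter] at hn'
    have h4 : (2 - ρ) * MT y k n ≤ η / 2 * MT y k n := hn.2.2.trans hn'.2.2
    nlinarith
  have hAE : ∑ n ∈ A, 1 / (n : ℝ) + ∑ n ∈ E, 1 / (n : ℝ) ≤ SB := by
    rw [← sum_union hdis, hSBd]
    exact sum_le_sum_of_subset_of_nonneg (union_subset hAsub hEsub) fun _ _ _ => by positivity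
  have hA34 : ∑ n ∈ A, 1 / (n : ℝ) ≤ 3 / 4 * SB := by linarith
  have hcomp : 1 / 4 * SB ≤ ∑ n ∈ B \ A, 1 / (n : ℝ) := by
    have := sum_sdiff (f := fun n : ℕ => 1 / (n : ℝ)) hAsub
    rw [← hSBd] at this
    linarith
  have hMc : (1 - θ) / 4 * ∑ n ∈ B, MT y k n ≤ ∑ n ∈ B \ A, MT y k n := by
    have f1 : ∑ n ∈ B, MT y k n ≤ Ph k * z / ((1 - θ) * Real.log z) * SB := by
      rw [hSBd, mul_sum]
      exact sum_le_sum fun n hn => (hmt n hn).2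
    have f2 : Ph k * z / Real.log z * ∑ n ∈ B \ A, 1 / (n : ℝ) ≤ ∑ n ∈ B \ A, MT y k n := by
      rw [mul_sum]
      exact sum_le_sum fun n hn => (hmt n (mem_sdiff.1 hn).1).1
    have f3 : (1 - θ) / 4 * (Ph k * z / ((1 - θ) * Real.log z) * SB) =
        Ph k * z / Real.log z * (1 / 4 * SB) := by
      field_simp
    calc (1 - θ) / 4 * ∑ n ∈ B, MT y k n ≤ (1 - θ) / 4 * (Ph k * z / ((1 - θ) * Real.log z) * SB) :=
          mul_le_mul_of_nonneg_left f1 (by positivity)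
      _ = Ph k * z / Real.log z * (1 / 4 * SB) := f3
      _ ≤ Ph k * z / Real.log z * ∑ n ∈ B \ A, 1 / (n : ℝ) :=
          mul_le_mul_of_nonneg_left hcomp (by positivity)
      _ ≤ _ := f2
  have hN : ∑ n ∈ B, (NQ Q x y k l n : ℝ) ≤
      (2 + κ) * ∑ n ∈ B, MT y k n - ρ * ∑ n ∈ B \ A, MT y k n := by
    rw [← sum_sdiff hAsub, ← sum_sdiff (f := fun n => MT y k n) hAsub]
    have f1 : ∑ n ∈ A, (NQ Q x y k l n : ℝ) ≤ (2 + κ) * ∑ n ∈ A, MT y k n := by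
      rw [mul_sum]
      exact sum_le_sum fun n hn => g2 n (hAsub hn)
    have f2 : ∑ n ∈ B \ A, (NQ Q x y k l n : ℝ) ≤ (2 - ρ) * ∑ n ∈ B \ A, MT y k n := by
      rw [mul_sum]
      apply sum_le_sum
      intro n hn
      obtain ⟨hn1, hn2⟩ := mem_sdiff.1 hn
      rw [hB, mem_filter] at hn1
      rw [hA, mem_filter, not_and] at hn2
      exact (not_le.1 fun h => hn2 hn1.1 ⟨hn1.2, h⟩).le
    have f3 : 0 ≤ ∑ n ∈ B \ A, MT y k n :=
      sum_nonneg fun n hn => (hmtpos n (mem_sdiff.1 hn).1).le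
    nlinarith
  have e : ρ * ((1 - θ) / 4) = 2 * κ := by rw [hκ]; ring
  have f4 := mul_le_mul_of_nonneg_left hMc hρ0.le
  rw [← mul_assoc, e] at f4
  linarith

end Pool.Agent.E8helper87.BT
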