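import Mathlib
import Pool.Agent.H305R2.MertensM

/-!
# Mertens in multiplicative ranges
-/

set_option autoImplicit false

namespace Pool.Agent.E8helper87.BT

open Finset Filter Topology

theorem mert (a b c : ℝ) (ha : 0 < a) (hab : a < b) (hc : c < Real.log (b / a)) :
    ∃ z0 : ℝ, 1 < z0 ∧ ∀ z : ℝ, z0 ≤ z → ∀ C : Finset ℕ,
      (∀ p : ℕ, p.Prime → z ^ a < (p : ℝ) → (p : ℝ) ≤ z ^ b → p ∈ C) → c ≤ ∑ p ∈ C, 1 / (p : ℝ) := by
  classical
  obtain ⟨M, hM⟩ := Pool.Agent.H305R2.mertens_inv_tendsto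
  obtain ⟨η, hη⟩ : ∃ η : ℝ, η = (Real.log (b / a) - c) / 3 := ⟨_, rfl⟩
  have hη0 : 0 < η := by rw [hη]; linarith
  have hb : 0 < b := ha.trans hab
  obtain ⟨N0, hN0⟩ := Metric.tendsto_atTop.1 hM η hη0
  have hlim : Tendsto (fun z : ℝ => Real.log (b / a - Real.log 2 / (a * Real.log z))) atTop
      (𝓝 (Real.log (b / a))) := by
    have h1 : Tendsto (fun z : ℝ => Real.log 2 / (a * Real.log z)) atTop (𝓝 0) :=
      Tendsto.const_div_atTop (Tendsto.const_mul_atTop ha Real.tendsto_log_atTop) _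
    have h2 : Tendsto (fun z : ℝ => b / a - Real.log 2 / (a * Real.log z)) atTop (𝓝 (b / a - 0)) :=
      tendsto_const_nhds.sub h1
    rw [sub_zero] at h2
    exact h2.log (by positivity)
  have h1 : ∀ᶠ z : ℝ in atTop, Real.log (b / a) - η ≤ Real.log (b / a - Real.log 2 / (a * Real.log z)) :=
    hlim.eventually (le_mem_nhds (by linarith))
  have h2 : ∀ᶠ z : ℝ in atTop, (N0 : ℝ) + 3 ≤ z ^ a := (tendsto_rpow_atTop ha).eventually_ge_atTop _
  have h3 : ∀ᶠ z : ℝ in atTop, 2 * Real.log 2 / b + 1 ≤ Real.log z := Real.tendsto_log_atTop.eventually_ge_atTop _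
  obtain ⟨z0, hz0⟩ := eventually_atTop.1 (h1.and (h2.and (h3.and (eventually_gt_atTop (1 : ℝ)))))
  refine ⟨max z0 2, lt_of_lt_of_le (by norm_num) (le_max_right _ _), ?_⟩
  intro z hz C hC
  obtain ⟨g1, g2, g3, g4⟩ := hz0 z ((le_max_left _ _).trans hz)
  have hz1 : 1 < z := g4
  have hzp : 0 < z := by linarith
  have hlz : 0 < Real.log z := Real.log_pos hz1
  have hab' : z ^ a ≤ z ^ b := Real.rpow_le_rpow_of_exponent_le hz1.le hab.le
  obtain ⟨na, hna⟩ : ∃ na : ℕ, na = ⌊z ^ a⌋₊ := ⟨_, rfl⟩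
  obtain ⟨nb, hnb⟩ : ∃ nb : ℕ, nb = ⌊z ^ b⌋₊ := ⟨_, rfl⟩
  have hna3 : N0 + 3 ≤ na := by
    rw [hna]
    exact Nat.le_floor (by push_cast; exact g2)
  have hnab : na ≤ nb := by rw [hna, hnb]; exact Nat.floor_mono hab'
  have e1 := hN0 na (by omega)
  have e2 := hN0 nb (by omega)
  rw [Real.dist_eq] at e1 e2
  obtain ⟨f1, f2⟩ := abs_lt.1 e1
  obtain ⟨f3, f4⟩ := abs_lt.1 e2
  -- the sum over the range
  have h4 : ∑ p ∈ (Icc 1 nb).filter Nat.Prime, (1 : ℝ) / p ≤
      ∑ p ∈ (Icc 1 na).filter Nat.Prime, (1 : ℝ) / p + ∑ p ∈ C, 1 / (p : ℝ) := by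
    have h5 : (Icc 1 nb).filter Nat.Prime ⊆ (Icc 1 na).filter Nat.Prime ∪ C := by
      intro p hp
      rw [mem_filter, mem_Icc] at hp
      rw [mem_union]
      by_cases h : p ≤ na
      · left
        rw [mem_filter, mem_Icc]
        exact ⟨⟨hp.1.1, h⟩, hp.2⟩
      · right
        apply hC p hp.2
        · rw [hna] at h
          exact (Nat.floor_lt (by positivity)).1 (not_le.1 h)
        · have := hp.1.2
          rw [hnb] at this
          exact (Nat.le_floor_iff (by positivity)).1 this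
    refine (sum_le_sum_of_subset_of_nonneg h5 fun _ _ _ => by positivity).trans ?_
    rw [← sum_union_inter]
    have : 0 ≤ ∑ t ∈ (Icc 1 na).filter Nat.Prime ∩ C, 1 / (t : ℝ) := sum_nonneg fun _ _ => by positivity
    linarith
  -- logarithms
  have hla : Real.log (Real.log na) ≤ Real.log (a * Real.log z) := by
    have h5 : Real.log na ≤ a * Real.log z := by
      rw [← Real.log_rpow hzp]
      apply Real.log_le_log
      · exact_mod_cast (by omega : 0 < na)
      · rw [hna]
        exact Nat.floor_le (by positivity)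
    apply Real.log_le_log _ h5
    exact Real.log_pos (by exact_mod_cast (by omega : 1 < na))
  have hlb : Real.log (b * Real.log z - Real.log 2) ≤ Real.log (Real.log nb) := by
    have hl2 : 0 < Real.log 2 := Real.log_pos (by norm_num)
    have h6 : 2 * Real.log 2 ≤ b * Real.log z := by
      have h7 : 2 * Real.log 2 / b ≤ Real.log z := by linarith
      rw [div_le_iff₀ hb] at h7
      linarith
    have h5 : b * Real.log z - Real.log 2 ≤ Real.log nb := by
      rw [← Real.log_rpow hzp, ← Real.log_div (by positivity) (by norm_num)]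
      apply Real.log_le_log (by positivity)
      have h7 : z ^ b < nb + 1 := by rw [hnb]; exact Nat.lt_floor_add_one _
      have h8 : (3 : ℝ) ≤ nb := by exact_mod_cast (by omega : 3 ≤ nb)
      linarith
    exact Real.log_le_log (by linarith) h5
  have hcomb : Real.log (b * Real.log z - Real.log 2) - Real.log (a * Real.log z) =
      Real.log (b / a - Real.log 2 / (a * Real.log z)) := by
    have hl2 : 0 < Real.log 2 := Real.log_pos (by norm_num)
    have h6 : 2 * Real.log 2 ≤ b * Real.log z := by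
      have h7 : 2 * Real.log 2 / b ≤ Real.log z := by linarith
      rw [div_le_iff₀ hb] at h7
      linarith
    rw [← Real.log_div (by linarith) (by positivity)]
    congr 1
    field_simp
  linarith

end Pool.Agent.E8helper87.BT
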