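import Pool.Agent.E8helper87.BT.Sieve

/-!
# Near-extremal dilates
-/

set_option autoImplicit false

namespace Pool.Agent.E8helper87.BT

open Finset Filter Topology

theorem growth (ρ : ℝ) (hρ : 0 < ρ) : ∃ Z0 : ℝ, 3 ≤ Z0 ∧ ∀ Z : ℝ, Z0 ≤ Z →
    8 * (Z ^ (1 / 2 - ρ)) ^ 2 + Z ^ (1 / 2 - ρ) * (1 + Real.log Z) ^ 2 ≤ ρ / 2 * Z := by
  have h1 : Tendsto (fun Z : ℝ => 8 * Z ^ (-(2 * ρ)) + (Z ^ (-(1 / 2 : ℝ)) +
      2 * (Real.log Z * Z ^ (-(1 / 2 : ℝ))) + Real.log Z ^ 2 * Z ^ (-(1 / 2 : ℝ)))) atTop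
      (𝓝 (8 * 0 + (0 + 2 * 0 + 0))) := by
    have a1 : Tendsto (fun Z : ℝ => Z ^ (-(2 * ρ))) atTop (𝓝 0) := tendsto_rpow_neg_atTop (by linarith)
    have a2 : Tendsto (fun Z : ℝ => Z ^ (-(1 / 2 : ℝ))) atTop (𝓝 0) := tendsto_rpow_neg_atTop (by norm_num)
    have a3 : Tendsto (fun Z : ℝ => Real.log Z * Z ^ (-(1 / 2 : ℝ))) atTop (𝓝 0) := by
      have := (isLittleO_log_rpow_atTop (show (0 : ℝ) < 1 / 2 by norm_num)).tendsto_div_nhds_zero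
      refine this.congr' ?_
      filter_upwards [eventually_gt_atTop 0] with Z hZ
      rw [Real.rpow_neg hZ.le, div_eq_mul_inv]
    have a4 : Tendsto (fun Z : ℝ => Real.log Z ^ 2 * Z ^ (-(1 / 2 : ℝ))) atTop (𝓝 0) := by
      have := (isLittleO_log_rpow_rpow_atTop (s := 1 / 2) 2 (by norm_num)).tendsto_div_nhds_zero
      refine this.congr' ?_
      filter_upwards [eventually_gt_atTop 0] with Z hZ
      rw [Real.rpow_neg hZ.le, div_eq_mul_inv, Real.rpow_two]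
    exact (a1.const_mul 8).add ((a2.add (a3.const_mul 2)).add a4)
  rw [show (8 * 0 + (0 + 2 * 0 + 0) : ℝ) = 0 by ring] at h1
  have h2 := h1.eventually (ge_mem_nhds (show (0 : ℝ) < ρ / 2 by linarith))
  obtain ⟨Z1, hZ1⟩ := eventually_atTop.1 h2
  refine ⟨max 3 Z1, le_max_left _ _, fun Z hZ => ?_⟩
  have hZ3 : 3 ≤ Z := (le_max_left _ _).trans hZ
  have hZ0 : 0 < Z := by linarith
  have h3 := hZ1 Z ((le_max_right _ _).trans hZ)
  have e1 : (Z ^ (1 / 2 - ρ)) ^ 2 = Z * Z ^ (-(2 * ρ)) := by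
    rw [← Real.rpow_natCast, ← Real.rpow_mul hZ0.le]
    nth_rewrite 2 [← Real.rpow_one Z]
    rw [← Real.rpow_add hZ0]
    congr 1
    push_cast
    ring
  have e2 : Z ^ (1 / 2 - ρ) ≤ Z * Z ^ (-(1 / 2 : ℝ)) := by
    nth_rewrite 2 [← Real.rpow_one Z]
    rw [← Real.rpow_add hZ0]
    apply Real.rpow_le_rpow_of_exponent_le (by linarith)
    linarith
  have e3 : Z ^ (1 / 2 - ρ) * (1 + Real.log Z) ^ 2 ≤ Z * Z ^ (-(1 / 2 : ℝ)) * (1 + Real.log Z) ^ 2 :=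
    mul_le_mul_of_nonneg_right e2 (sq_nonneg _)
  rw [e1]
  have h4 := mul_le_mul_of_nonneg_left h3 hZ0.le
  nlinarith

open Classical in
/-- the elements of `Q` in a dilated progression -/
noncomputable def NQ (Q : Set ℕ) (x y : ℝ) (k : ℕ) (l : ℤ) (n : ℕ) : ℕ :=
  ((Ap x y k l n).filter (fun m => m ∈ Q)).card

theorem NQ_le {x y : ℝ} {k : ℕ} {l : ℤ} {n : ℕ} (hn : 1 ≤ n) (hy : 0 ≤ y) (hyx : y ≤ x)
    (Q : Set ℕ) (R : ℕ) : (NQ Q x y k l n : ℝ) ≤ (MM Q x y k l R n).card + R := by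
  classical
  have h1 : (Ap x y k l n).filter (fun m => m ∈ Q) ⊆ MM Q x y k l R n ∪ Icc 1 R := by
    intro m hm
    rw [mem_filter] at hm
    rw [mem_union]
    by_cases h : R < m
    · left
      unfold MM
      rw [mem_filter]
      exact ⟨hm.1, hm.2, h⟩
    · right
      rw [mem_Icc]
      refine ⟨?_, by omega⟩
      by_contra h0
      have h0' : m = 0 := by omega
      have h2 := ((mem_Ap hn hy hyx m).1 hm.1).1
      rw [h0', mul_zero] at h2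
      simp only [Nat.cast_zero] at h2
      linarith
  have h2 := (card_le_card h1).trans (card_union_le _ _)
  rw [Nat.card_Icc] at h2
  unfold NQ
  have h3 : R + 1 - 1 = R := by omega
  rw [h3] at h2
  exact_mod_cast h2

theorem near (ρ : ℝ) (hρ : 0 < ρ) (hρ1 : ρ ≤ 1 / 8) : ∃ Z0 : ℝ, 3 ≤ Z0 ∧
    ∀ (x y : ℝ) (k : ℕ) (l : ℤ) (n : ℕ), 1 ≤ n → 0 ≤ y → y ≤ x → 1 ≤ k → Nat.Coprime n k →
    ∀ (Q : Set ℕ) (Z : ℝ) (R : ℕ), Z = y / k / n → R = ⌊Z ^ (1 / 2 - ρ)⌋₊ → Z0 ≤ Z →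
    (∀ m ∈ Q, R < m → ∀ p : ℕ, p.Prime → p ∣ m → R < p) →
    ((NQ Q x y k l n : ℝ) ≤ (2 + 8 * ρ) * (Ph k * Z / Real.log Z)) ∧
    ((2 - ρ) * (Ph k * Z / Real.log Z) ≤ (NQ Q x y k l n : ℝ) →
      Ph k * SS k R ≤ (1 / 2 + ρ) * Real.log Z ∧ Ph k * SS k R - HH R ≤ 2 * ρ * Real.log Z ∧
      ∀ P : Finset ℕ, (∀ p ∈ P, p.Prime ∧ p ≤ R ∧ Nat.Coprime p k) →
        ∑ p ∈ P, (SS k R - SS k (R / p)) ^ 2 * (MM Q x y k l R (n * p)).card ≤
          4 * ρ * (SS k R * Z)) := by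
  obtain ⟨Z0, hZ03, hZ0⟩ := growth ρ hρ
  refine ⟨Z0, hZ03, ?_⟩
  intro x y k l n hn hy hyx hk hc Q Z R hZ hR hZZ hQ
  have hZ3 : 3 ≤ Z := hZ03.trans hZZ
  have hZpos : 0 < Z := by linarith
  obtain ⟨ℓ, hℓ⟩ : ∃ ℓ : ℝ, ℓ = Real.log Z := ⟨_, rfl⟩
  have hℓ0 : 0 < ℓ := by rw [hℓ]; exact Real.log_pos (by linarith)
  obtain ⟨V, hV⟩ : ∃ V : ℝ, V = Z ^ (1 / 2 - ρ) := ⟨_, rfl⟩
  have hV1 : 1 ≤ V := by rw [hV]; exact Real.one_le_rpow (by linarith) (by linarith)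
  have hVZ : V ≤ Z := by
    rw [hV]
    calc Z ^ (1 / 2 - ρ) ≤ Z ^ (1 : ℝ) := Real.rpow_le_rpow_of_exponent_le (by linarith) (by linarith)
      _ = Z := Real.rpow_one Z
  have hR1 : 1 ≤ R := by rw [hR, ← hV]; exact Nat.le_floor (by simpa using hV1)
  have hRV : (R : ℝ) ≤ V := by rw [hR, ← hV]; exact Nat.floor_le (by linarith)
  have hVR : V < R + 1 := by rw [hR, ← hV]; exact Nat.lt_floor_add_one V
  have hR1' : (1 : ℝ) ≤ R := by exact_mod_cast hR1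
  have hgr := hZ0 Z hZZ
  rw [← hV, ← hℓ] at hgr
  obtain ⟨S, hS⟩ : ∃ S : ℝ, S = SS k R := ⟨_, rfl⟩
  have hS1 : 1 ≤ S := by rw [hS]; exact one_le_SS k hR1
  have hSle : S ≤ 1 + ℓ := by
    rw [hS, hℓ]
    refine (SS_le_HH k R).trans ((HH_le R).trans ?_)
    have := Real.log_le_log (by linarith) (hRV.trans hVZ)
    linarith
  have hlogV : Real.log V = (1 / 2 - ρ) * ℓ := by rw [hV, hℓ, Real.log_rpow hZpos]
  have hH : (1 / 2 - ρ) * ℓ ≤ HH R := by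
    rw [← hlogV]
    refine le_trans ?_ (HH_ge R)
    exact Real.log_le_log (by linarith) hVR.le
  obtain ⟨Φ, hΦ⟩ : ∃ Φ : ℝ, Φ = Ph k := ⟨_, rfl⟩
  have hΦ1 : 1 ≤ Φ := by rw [hΦ]; exact one_le_Ph k hk
  have hHS : HH R ≤ Φ * S := by rw [hΦ, hS]; exact HH_le_SS k R hk
  -- the error terms
  have herr : 8 * (R : ℝ) ^ 2 + R * S ^ 2 ≤ ρ / 2 * Z := by
    refine le_trans ?_ hgr
    have h1 : (R : ℝ) ^ 2 ≤ V ^ 2 := pow_le_pow_left₀ (by linarith) hRV 2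
    have h2 : S ^ 2 ≤ (1 + ℓ) ^ 2 := pow_le_pow_left₀ (by linarith) hSle 2
    have h3 : (R : ℝ) * S ^ 2 ≤ V * (1 + ℓ) ^ 2 := mul_le_mul hRV h2 (sq_nonneg _) (by linarith)
    linarith
  obtain ⟨N, hN⟩ : ∃ N : ℝ, N = (NQ Q x y k l n : ℝ) := ⟨_, rfl⟩
  have hNM : N ≤ (MM Q x y k l R n).card + R := by rw [hN]; exact NQ_le hn hy hyx Q R
  rw [← hN, ← hΦ, ← hℓ, ← hS]
  have hmain : ∀ P : Finset ℕ, (∀ p ∈ P, p.Prime ∧ p ≤ R ∧ Nat.Coprime p k) →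
      S ^ 2 * N + ∑ p ∈ P, (S - SS k (R / p)) ^ 2 * (MM Q x y k l R (n * p)).card ≤
        Z * S + ρ / 2 * Z := by
    intro P hP
    have h1 := two (l := l) hn hy hyx hk hc R Q hQ P hP
    rw [← hS, ← hZ] at h1
    have h2 := mul_le_mul_of_nonneg_left hNM (sq_nonneg S)
    have h3 : S ^ 2 * ((MM Q x y k l R n).card + R) = S ^ 2 * (MM Q x y k l R n).card + R * S ^ 2 := by ring
    linarith
  have h0 : S ^ 2 * N ≤ Z * S + ρ / 2 * Z := by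
    have := hmain ∅ (by simp)
    simpa using this
  have h0' : S * N ≤ (1 + ρ / 2) * Z := by
    have h1 : S * (S * N) ≤ S * ((1 + ρ / 2) * Z) := by
      have h2 : ρ / 2 * Z ≤ S * (ρ / 2 * Z) := le_mul_of_one_le_left (by positivity) hS1
      nlinarith
    exact le_of_mul_le_mul_left h1 (by linarith)
  have hΦS : (1 / 2 - ρ) * ℓ ≤ Φ * S := hH.trans hHS
  constructor
  · have h1 : N * ℓ ≤ (2 + 8 * ρ) * (Φ * Z) := by
      have hN0 : 0 ≤ N := by rw [hN]; positivity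
      have h2 : (1 / 2 - ρ) * ℓ * N ≤ Φ * ((1 + ρ / 2) * Z) := by
        calc (1 / 2 - ρ) * ℓ * N ≤ Φ * S * N := mul_le_mul_of_nonneg_right hΦS hN0
          _ = Φ * (S * N) := by ring
          _ ≤ _ := mul_le_mul_of_nonneg_left h0' (by linarith)
      have h3 : Φ * ((1 + ρ / 2) * Z) ≤ (1 / 2 - ρ) * ((2 + 8 * ρ) * (Φ * Z)) := by
        have h4 : 0 ≤ Φ * Z := by positivity
        have h5 : (1 + ρ / 2) ≤ (1 / 2 - ρ) * (2 + 8 * ρ) := by nlinarith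
        nlinarith
      have h4 : (1 / 2 - ρ) * (N * ℓ) ≤ (1 / 2 - ρ) * ((2 + 8 * ρ) * (Φ * Z)) := by nlinarith
      exact le_of_mul_le_mul_left h4 (by linarith)
    rw [mul_div_assoc', le_div_iff₀ hℓ0]
    exact h1
  · intro hne
    have hne' : (2 - ρ) * (Φ * Z) ≤ N * ℓ := by
      rw [mul_div_assoc', div_le_iff₀ hℓ0] at hne
      exact hne
    have hΦZ : 0 < Φ * Z := by positivity
    have h1 : (2 - ρ) * (Φ * S) ≤ (1 + ρ / 2) * ℓ := by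
      have h2 : (2 - ρ) * (Φ * Z) * S ≤ (1 + ρ / 2) * Z * ℓ := by
        calc (2 - ρ) * (Φ * Z) * S ≤ N * ℓ * S := mul_le_mul_of_nonneg_right hne' (by linarith)
          _ = (S * N) * ℓ := by ring
          _ ≤ _ := mul_le_mul_of_nonneg_right h0' hℓ0.le
      have h3 : Z * ((2 - ρ) * (Φ * S)) ≤ Z * ((1 + ρ / 2) * ℓ) := by nlinarith
      exact le_of_mul_le_mul_left h3 hZpos
    have h2 : Φ * S ≤ (1 / 2 + ρ) * ℓ := by
      have h3 : (2 - ρ) * (Φ * S) ≤ (2 - ρ) * ((1 / 2 + ρ) * ℓ) := by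
        refine h1.trans ?_
        have : (1 + ρ / 2) ≤ (2 - ρ) * (1 / 2 + ρ) := by nlinarith
        nlinarith
      exact le_of_mul_le_mul_left h3 (by linarith)
    refine ⟨h2, by linarith, fun P hP => ?_⟩
    have h3 := hmain P hP
    -- S² N ≥ (1 - 5ρ/2) S Z
    have h4 : (1 - 5 / 2 * ρ) * (S * Z) ≤ S ^ 2 * N := by
      have h5 : (2 - ρ) * (1 / 2 - ρ) * (ℓ * (S * Z)) ≤ ℓ * (S ^ 2 * N) := by
        calc (2 - ρ) * (1 / 2 - ρ) * (ℓ * (S * Z)) = (2 - ρ) * (S * Z) * ((1 / 2 - ρ) * ℓ) := by ring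
          _ ≤ (2 - ρ) * (S * Z) * (Φ * S) := mul_le_mul_of_nonneg_left hΦS
              (mul_nonneg (by linarith) (by positivity))
          _ = S ^ 2 * ((2 - ρ) * (Φ * Z)) := by ring
          _ ≤ S ^ 2 * (N * ℓ) := mul_le_mul_of_nonneg_left hne' (sq_nonneg S)
          _ = _ := by ring
      have h6 : (1 - 5 / 2 * ρ) * (ℓ * (S * Z)) ≤ (2 - ρ) * (1 / 2 - ρ) * (ℓ * (S * Z)) := by
        apply mul_le_mul_of_nonneg_right
        · nlinarith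
        · positivity
      have h7 : ℓ * ((1 - 5 / 2 * ρ) * (S * Z)) ≤ ℓ * (S ^ 2 * N) := by nlinarith
      exact le_of_mul_le_mul_left h7 hℓ0
    have h5 : ρ / 2 * Z ≤ ρ / 2 * (S * Z) := by
      have : Z ≤ S * Z := le_mul_of_one_le_left hZpos.le hS1
      exact mul_le_mul_of_nonneg_left this (by linarith)
    have h6 : 0 ≤ ρ * (S * Z) := by positivity
    nlinarith

end Pool.Agent.E8helper87.BT
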