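import Pool.Agent.E8helper87.BT.Sieve
import Pool.Agent.H370R2.NT

/-!
# Regularity of the sums over integers coprime to `k`
-/

set_option autoImplicit false

namespace Pool.Agent.E8helper87.BT

open Finset

theorem lam_range (A W c : ℕ) (hc : 1 ≤ c) (hcA : c ≤ A) (hW : 1 ≤ W) :
    ∑ d ∈ Ioc (A / (c * W)) (A / c), ArithmeticFunction.vonMangoldt d / (d : ℝ) ≤ Real.log W + 8 := by
  have hA : 1 ≤ A := hc.trans hcA
  have hc0 : (0 : ℝ) < c := by exact_mod_cast hc
  have hW0 : (0 : ℝ) < W := by exact_mod_cast hW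
  have hA0 : (0 : ℝ) < A := by exact_mod_cast hA
  have hlW : 0 ≤ Real.log W := Real.log_nonneg (by exact_mod_cast hW)
  have h1 : 1 ≤ A / c := Nat.div_pos hcA hc
  have hup := H370.nt_mertens_upper (A / c) h1
  have hle : ((A / c : ℕ) : ℝ) ≤ A / c := Nat.cast_div_le
  have hlog1 : Real.log ((A / c : ℕ) : ℝ) ≤ Real.log A - Real.log c := by
    rw [← Real.log_div hA0.ne' hc0.ne']
    exact Real.log_le_log (by exact_mod_cast h1) hle
  rcases Nat.eq_zero_or_pos (A / (c * W)) with h0 | hpos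
  · rw [h0]
    have e : Ioc 0 (A / c) = Icc 1 (A / c) := by
      ext i
      simp only [mem_Icc, mem_Ioc]
      omega
    rw [e]
    have h2 : A < c * W := by
      rwa [Nat.div_eq_zero_iff_lt (Nat.mul_pos hc hW)] at h0
    have h3 : Real.log A ≤ Real.log c + Real.log W := by
      rw [← Real.log_mul hc0.ne' hW0.ne']
      exact Real.log_le_log hA0 (by exact_mod_cast h2.le)
    linarith
  · have hlo := H370.nt_mertens_lower (A / (c * W)) hpos
    have hle2 : A / (c * W) ≤ A / c := Nat.div_le_div_left (Nat.le_mul_of_pos_right c hW) hc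
    have e : ∑ d ∈ Ioc (A / (c * W)) (A / c), ArithmeticFunction.vonMangoldt d / (d : ℝ) =
        ∑ d ∈ Icc 1 (A / c), ArithmeticFunction.vonMangoldt d / (d : ℝ) - ∑ d ∈ Icc 1 (A / (c * W)), ArithmeticFunction.vonMangoldt d / (d : ℝ) := by
      rw [eq_sub_iff_add_eq, add_comm]
      have e1 : Icc 1 (A / c) = Icc 1 (A / (c * W)) ∪ Ioc (A / (c * W)) (A / c) := by
        ext i
        simp only [mem_union, mem_Icc, mem_Ioc]
        omega
      rw [e1, sum_union]
      rw [disjoint_left]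
      intro i hi hi'
      rw [mem_Icc] at hi
      rw [mem_Ioc] at hi'
      omega
    rw [e]
    have h3 : Real.log A - Real.log c - Real.log W - Real.log 2 ≤ Real.log ((A / (c * W) : ℕ) : ℝ) := by
      rw [sub_sub, sub_sub, ← Real.log_mul hW0.ne' (by norm_num), ← Real.log_mul hc0.ne' (by positivity),
        ← Real.log_div hA0.ne' (by positivity)]
      apply Real.log_le_log (by positivity)
      rw [div_le_iff₀ (by positivity)]
      have h4 : A < (A / (c * W) + 1) * (c * W) := by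
        have := Nat.lt_div_mul_add (a := A) (b := c * W) (Nat.mul_pos hc hW)
        rw [add_mul, one_mul]
        exact this
      have h5 : (A : ℝ) < (((A / (c * W) + 1) * (c * W) : ℕ) : ℝ) := by exact_mod_cast h4
      push_cast at h5
      have h6 : (1 : ℝ) ≤ ((A / (c * W) : ℕ) : ℝ) := by exact_mod_cast hpos
      have h7 : 0 < (c : ℝ) * W := by positivity
      nlinarith
    have h4 : Real.log 2 ≤ 1 := by
      have := Real.log_two_lt_d9
      linarith
    linarith

/-- **regularity** -/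
theorem reg (k X W : ℕ) (hX : 1 ≤ X) (hW : 1 ≤ W) :
    (Real.log X - Real.log W) * (SS k X - SS k (X / W)) ≤ (Real.log W + 8) * SS k X := by
  classical
  have hX0 : (0 : ℝ) < X := by exact_mod_cast hX
  have hW0 : (0 : ℝ) < W := by exact_mod_cast hW
  obtain ⟨B, hB⟩ : ∃ B : Finset ℕ, B = (BB k X).filter (fun b => X / W < b) := ⟨_, rfl⟩
  have hBs : SS k X - SS k (X / W) = ∑ b ∈ B, 1 / (b : ℝ) := by
    rw [SS_eq, SS_eq, sub_eq_iff_eq_add, hB]
    have e : BB k (X / W) = (BB k X).filter (fun b => ¬ X / W < b) := by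
      ext b
      rw [mem_filter, mem_BB, mem_BB]
      constructor
      · rintro ⟨⟨h6, h7⟩, h8⟩
        exact ⟨⟨⟨h6, h7.trans (Nat.div_le_self X W)⟩, h8⟩, by omega⟩
      · rintro ⟨⟨⟨h6, _⟩, h8⟩, h9⟩
        exact ⟨⟨h6, by omega⟩, h8⟩
    rw [e]
    exact (sum_filter_add_sum_filter_not _ _ _).symm
  have hBmem : ∀ b ∈ B, 1 ≤ b ∧ b ≤ X ∧ Nat.Coprime b k ∧ X < b * W := by
    intro b hb
    rw [hB, mem_filter, mem_BB] at hb
    obtain ⟨⟨⟨h1, h2⟩, h3⟩, h4⟩ := hb
    exact ⟨h1, h2, h3, (Nat.div_lt_iff_lt_mul hW).1 h4⟩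
  rw [hBs, mul_sum]
  have h1 : ∀ b ∈ B, (Real.log X - Real.log W) * (1 / (b : ℝ)) ≤ ∑ d ∈ b.divisors, ArithmeticFunction.vonMangoldt d / (b : ℝ) := by
    intro b hb
    obtain ⟨h2, h3, h4, h5⟩ := hBmem b hb
    have hb0 : (0 : ℝ) < b := by exact_mod_cast h2
    rw [← sum_div, ArithmeticFunction.vonMangoldt_sum]
    have h6 : Real.log X - Real.log W ≤ Real.log b := by
      rw [← Real.log_div hX0.ne' hW0.ne']
      apply Real.log_le_log (by positivity)
      rw [div_le_iff₀ hW0]
      exact_mod_cast h5.le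
    rw [mul_one_div]
    exact div_le_div_of_nonneg_right h6 hb0.le
  refine (sum_le_sum h1).trans ?_
  -- reorganise
  have h2 : ∑ b ∈ B, ∑ d ∈ b.divisors, ArithmeticFunction.vonMangoldt d / (b : ℝ) ≤
      ∑ c ∈ BB k X, ∑ d ∈ Ioc (X / (c * W)) (X / c), 1 / (c : ℝ) * (ArithmeticFunction.vonMangoldt d / (d : ℝ)) := by
    rw [sum_sigma', sum_sigma']
    have h3 : ∑ x ∈ B.sigma fun b => b.divisors, ArithmeticFunction.vonMangoldt x.2 / (x.1 : ℝ) =
        ∑ y ∈ (B.sigma fun b => b.divisors).image (fun x => (⟨x.1 / x.2, x.2⟩ : (_ : ℕ) × ℕ)),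
          1 / (y.1 : ℝ) * (ArithmeticFunction.vonMangoldt y.2 / (y.2 : ℝ)) := by
      rw [sum_image]
      · apply sum_congr rfl
        rintro ⟨b, d⟩ h
        rw [mem_sigma] at h
        obtain ⟨h4, h5⟩ := h
        have hd0 : 0 < d := Nat.pos_of_mem_divisors h5
        have h6 : d ∣ b := Nat.dvd_of_mem_divisors h5
        obtain ⟨c, hc⟩ := h6
        have e1 : b / d = c := by
          rw [hc]
          exact Nat.mul_div_cancel_left c hd0
        show ArithmeticFunction.vonMangoldt d / (b : ℝ) = 1 / ((b / d : ℕ) : ℝ) * (ArithmeticFunction.vonMangoldt d / (d : ℝ))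
        rw [e1, hc]
        push_cast
        rw [div_mul_div_comm, one_mul, mul_comm (c : ℝ)]
      · rintro ⟨b, d⟩ h ⟨b', d'⟩ h' he
        rw [mem_coe, mem_sigma] at h h'
        simp only [Sigma.mk.injEq, heq_eq_eq] at he
        obtain ⟨he1, he2⟩ := he
        have h5 : d ∣ b := Nat.dvd_of_mem_divisors h.2
        have h6 : d' ∣ b' := Nat.dvd_of_mem_divisors h'.2
        have e1 : b = b' := by
          rw [← Nat.div_mul_cancel h5, ← Nat.div_mul_cancel h6, he1, he2]
        rw [e1, he2]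
    rw [h3]
    apply sum_le_sum_of_subset_of_nonneg
    · rintro ⟨c, d⟩ h
      obtain ⟨⟨b, d'⟩, h4, he⟩ := mem_image.1 h
      simp only [Sigma.mk.injEq, heq_eq_eq] at he
      obtain ⟨he1, he2⟩ := he
      rw [mem_sigma] at h4
      obtain ⟨h5, h6⟩ := h4
      have h7 := Nat.dvd_of_mem_divisors h6
      have hd0 : 0 < d' := Nat.pos_of_mem_divisors h6
      obtain ⟨g1, g2, g3, g4⟩ := hBmem b h5
      rw [mem_sigma, mem_BB, mem_Ioc]
      have hbc : b = c * d := by
        rw [← he1, ← he2]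
        exact (Nat.div_mul_cancel h7).symm
      rw [hbc] at g1 g2 g3 g4
      have hc0 : 0 < c := Nat.pos_of_mul_pos_right g1
      have hd0' : 0 < d := Nat.pos_of_mul_pos_left g1
      refine ⟨⟨⟨hc0, ?_⟩, ?_⟩, ?_, ?_⟩
      · exact (Nat.le_mul_of_pos_right c hd0').trans g2
      · exact Nat.Coprime.coprime_dvd_left (Dvd.intro d rfl) g3
      · rw [Nat.div_lt_iff_lt_mul (Nat.mul_pos hc0 hW)]
        calc X < c * d * W := g4
          _ = d * (c * W) := by ring
      · rw [Nat.le_div_iff_mul_le hc0, mul_comm]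
        exact g2
    · rintro ⟨c, d⟩ _ _
      have : 0 ≤ ArithmeticFunction.vonMangoldt d := ArithmeticFunction.vonMangoldt_nonneg
      positivity
  refine h2.trans ?_
  rw [SS_eq, mul_sum]
  apply sum_le_sum
  intro c hc
  rw [mem_BB] at hc
  rw [← mul_sum, mul_comm (Real.log W + 8)]
  exact mul_le_mul_of_nonneg_left (lam_range X W c hc.1.1 hc.1.2 hW) (by positivity)

end Pool.Agent.E8helper87.BT
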