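import Pool.Agent.E8helper87.BT.Sieve

/-!
# The excess `Φ S(R) - H(R)` controls the sums at lower levels
-/

set_option autoImplicit false

namespace Pool.Agent.E8helper87.BT

open Finset

/-- the excess -/
noncomputable def EX (k R : ℕ) : ℝ := Ph k * SS k R - HH R

theorem ex_le (k R T : ℕ) (hk : 1 ≤ k) (U : Finset ℕ) (hU : ∀ u ∈ U, R < u ∧ u ∈ Om k R T) :
    ∑ u ∈ U, 1 / (u : ℝ) ≤ EX k R := by
  classical
  have h1 : U ∪ Icc 1 R ⊆ Om k R (max T R) := by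
    intro u hu
    rcases mem_union.1 hu with h | h
    · have h2 := (hU u h).2
      unfold Om at h2 ⊢
      rw [mem_filter, mem_Icc] at h2 ⊢
      exact ⟨⟨h2.1.1, h2.1.2.trans (le_max_left _ _)⟩, h2.2⟩
    · rw [mem_Icc] at h
      exact mem_Om_of_le h.1 h.2 (h.2.trans (le_max_right _ _))
  have h2 : Disjoint U (Icc 1 R) := by
    rw [disjoint_left]
    intro u hu hu'
    have := (hU u hu).1
    rw [mem_Icc] at hu'
    omega
  have h3 := sum_le_sum_of_subset_of_nonneg (f := fun t : ℕ => 1 / (t : ℝ)) h1 fun _ _ _ => by positivity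
  rw [sum_union h2] at h3
  have h4 := Om_le k R (max T R) hk
  unfold EX HH
  linarith

theorem EX_nonneg (k R : ℕ) (hk : 1 ≤ k) : 0 ≤ EX k R := by
  have := ex_le k R 0 hk ∅ (by simp)
  simpa using this

/-- multiplication by primes -/
theorem mulC (k R T : ℕ) (hk : 1 ≤ k) (M C : Finset ℕ) (ν : ℕ) (g : ℝ) (hg : 1 ≤ g)
    (hC : ∀ c ∈ C, c.Prime ∧ g ≤ (c : ℝ)) (hν : (T : ℝ) < g ^ (ν + 1))
    (hMC : ∀ t ∈ M, ∀ c ∈ C, R < t * c ∧ t * c ∈ Om k R T) :
    (∑ t ∈ M, 1 / (t : ℝ)) * (∑ c ∈ C, 1 / (c : ℝ)) ≤ ν * EX k R := by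
  classical
  obtain ⟨U, hU⟩ : ∃ U : Finset ℕ, U = (M ×ˢ C).image (fun q : ℕ × ℕ => q.1 * q.2) := ⟨_, rfl⟩
  have hUmem : ∀ u ∈ U, R < u ∧ u ∈ Om k R T := by
    intro u hu
    rw [hU] at hu
    obtain ⟨q, hq, rfl⟩ := mem_image.1 hu
    rw [mem_product] at hq
    exact hMC q.1 hq.1 q.2 hq.2
  have hmult : ∀ u ∈ U, (C.filter (fun c => c ∣ u)).card ≤ ν := by
    intro u hu
    by_contra hcon
    push Not at hcon
    have h1 : (∏ c ∈ C.filter (fun c => c ∣ u), c) ∣ u :=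
      (prod_dvd_iff (fun c hc => (hC c (mem_filter.1 hc).1).1) u).2 fun c hc => (mem_filter.1 hc).2
    have h2 := (hUmem u hu).2
    unfold Om at h2
    rw [mem_filter, mem_Icc] at h2
    have h3 := Nat.le_of_dvd (by omega) h1
    have h4 : g ^ (ν + 1) ≤ ((∏ c ∈ C.filter (fun c => c ∣ u), c : ℕ) : ℝ) := by
      push_cast
      calc g ^ (ν + 1) ≤ g ^ (C.filter (fun c => c ∣ u)).card := pow_le_pow_right₀ hg hcon
        _ = ∏ _c ∈ C.filter (fun c => c ∣ u), g := by rw [prod_const]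
        _ ≤ _ := prod_le_prod (fun _ _ => by linarith) fun c hc => (hC c (mem_filter.1 hc).1).2
    have h5 : ((∏ c ∈ C.filter (fun c => c ∣ u), c : ℕ) : ℝ) ≤ T := by exact_mod_cast h3.trans h2.1.2
    linarith
  have h1 : (∑ t ∈ M, 1 / (t : ℝ)) * (∑ c ∈ C, 1 / (c : ℝ)) =
      ∑ q ∈ M ×ˢ C, 1 / ((q.1 * q.2 : ℕ) : ℝ) := by
    rw [sum_mul_sum, sum_product]
    apply sum_congr rfl
    intro t _
    apply sum_congr rfl
    intro c _
    push_cast
    rw [one_div_mul_one_div]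
  have h2 : ∑ q ∈ M ×ˢ C, 1 / ((q.1 * q.2 : ℕ) : ℝ) =
      ∑ u ∈ U, ∑ q ∈ (M ×ˢ C).filter (fun q => q.1 * q.2 = u), 1 / ((q.1 * q.2 : ℕ) : ℝ) := by
    rw [hU]
    exact (sum_fiberwise_of_maps_to (fun q hq => mem_image_of_mem _ hq) _).symm
  have h3 : ∀ u ∈ U, ∑ q ∈ (M ×ˢ C).filter (fun q => q.1 * q.2 = u), 1 / ((q.1 * q.2 : ℕ) : ℝ) ≤
      ν * (1 / (u : ℝ)) := by
    intro u hu
    have e1 : ∑ q ∈ (M ×ˢ C).filter (fun q => q.1 * q.2 = u), 1 / ((q.1 * q.2 : ℕ) : ℝ) =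
        (((M ×ˢ C).filter (fun q => q.1 * q.2 = u)).card : ℝ) * (1 / (u : ℝ)) := by
      rw [← nsmul_eq_mul, ← sum_const]
      apply sum_congr rfl
      intro q hq
      rw [(mem_filter.1 hq).2]
    rw [e1]
    apply mul_le_mul_of_nonneg_right _ (by positivity)
    have h4 : ((M ×ˢ C).filter (fun q => q.1 * q.2 = u)).card ≤ (C.filter (fun c => c ∣ u)).card := by
      apply card_le_card_of_injOn (fun q => q.2)
      · intro q hq
        rw [mem_coe, mem_filter, mem_product] at hq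
        rw [mem_coe, mem_filter]
        exact ⟨hq.1.2, by rw [← hq.2]; exact Dvd.intro_left _ rfl⟩
      · intro q hq q' hq' he
        rw [mem_coe, mem_filter, mem_product] at hq hq'
        have he' : q.2 = q'.2 := he
        have h5 : q.1 * q.2 = q'.1 * q.2 := by rw [hq.2, he', hq'.2]
        have h6 : 0 < q.2 := (hC q.2 hq.1.2).1.pos
        exact Prod.ext (Nat.eq_of_mul_eq_mul_right h6 h5) he'
    exact_mod_cast h4.trans (hmult u hu)
  rw [h1, h2]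
  refine (sum_le_sum h3).trans ?_
  rw [← mul_sum]
  exact mul_le_mul_of_nonneg_left (ex_le k R T hk U hUmem) (by positivity)

/-- a harmonic interval -/
theorem harm_gap (R : ℕ) (hR : 1 ≤ R) (Y : ℝ) (hY : 1 ≤ Y) (M : Finset ℕ)
    (hM : ∀ t ∈ Icc 1 R, Y < (t : ℝ) → t ∈ M) :
    Real.log R - Real.log Y - 1 ≤ ∑ t ∈ M, 1 / (t : ℝ) := by
  classical
  have h1 : Icc 1 R ⊆ Icc 1 ⌊Y⌋₊ ∪ M := by
    intro t ht
    rw [mem_union]
    by_cases h : Y < (t : ℝ)
    · exact Or.inr (hM t ht h)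
    · left
      rw [mem_Icc] at ht ⊢
      exact ⟨ht.1, Nat.le_floor (not_lt.1 h)⟩
  have h2 : HH R ≤ HH ⌊Y⌋₊ + ∑ t ∈ M, 1 / (t : ℝ) := by
    unfold HH
    refine (sum_le_sum_of_subset_of_nonneg (f := fun t : ℕ => 1 / (t : ℝ)) h1
      fun _ _ _ => by positivity).trans ?_
    rw [← sum_union_inter]
    have : 0 ≤ ∑ t ∈ Icc 1 ⌊Y⌋₊ ∩ M, 1 / (t : ℝ) := sum_nonneg fun _ _ => by positivity
    linarith
  have h3 := HH_ge R
  have h4 := HH_le ⌊Y⌋₊
  have h5 : Real.log ⌊Y⌋₊ ≤ Real.log Y := by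
    apply Real.log_le_log
    · exact_mod_cast Nat.floor_pos.2 hY
    · exact Nat.floor_le (by linarith)
  have h6 : Real.log R ≤ Real.log (R + 1) :=
    Real.log_le_log (by exact_mod_cast hR) (by linarith)
  linarith

/-- few primes divide `k` -/
theorem c5 (k R : ℕ) (hk : 1 ≤ k) (hR : 1 ≤ R) (T : ℕ) (C : Finset ℕ) (ν : ℕ) (g : ℝ) (hg : 1 ≤ g)
    (hgR : g ≤ R) (hC : ∀ c ∈ C, c.Prime ∧ g ≤ (c : ℝ) ∧ c ∣ k ∧ R * c ≤ T)
    (hν : (T : ℝ) < g ^ (ν + 1)) :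
    (Real.log g - 1) * ∑ c ∈ C, 1 / (c : ℝ) ≤ ν * EX k R := by
  classical
  have hg0 : 0 < g := by linarith
  have hR0 : (0 : ℝ) < R := by exact_mod_cast hR
  obtain ⟨M, hM⟩ : ∃ M : Finset ℕ, M = (Icc 1 R).filter (fun t : ℕ => (R : ℝ) / g < t) := ⟨_, rfl⟩
  have h1 := mulC k R T hk M C ν g hg (fun c hc => ⟨(hC c hc).1, (hC c hc).2.1⟩) hν (by
    intro t ht c hc
    rw [hM, mem_filter, mem_Icc] at ht
    obtain ⟨⟨ht1, ht2⟩, ht3⟩ := ht
    obtain ⟨hc1, hc2, hc3, hc4⟩ := hC c hc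
    constructor
    · rw [div_lt_iff₀ hg0] at ht3
      have h2 : (t : ℝ) * g ≤ t * c := mul_le_mul_of_nonneg_left hc2 (by positivity)
      have h3 : (R : ℝ) < ((t * c : ℕ) : ℝ) := by push_cast; linarith
      exact_mod_cast h3
    · obtain ⟨a, b, hab, ha, hb⟩ := exists_dec k t (by omega)
      unfold Om
      rw [mem_filter, mem_Icc]
      refine ⟨⟨Nat.mul_pos ht1 hc1.pos, (Nat.mul_le_mul_right c ht2).trans hc4⟩, a * c, b, ?_,
        FN_mul ha ⟨hc1.ne_zero, fun p hp hd => ?_⟩, hb, ?_⟩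
      · rw [hab]
        ring
      · rw [(Nat.prime_dvd_prime_iff_eq hp hc1).1 hd]
        exact hc3
      · refine le_trans ?_ ht2
        rw [hab]
        exact Nat.le_mul_of_pos_left b (Nat.pos_of_ne_zero ha.1))
  have h2 := harm_gap R hR (R / g) (by rw [le_div_iff₀ hg0]; linarith) M (by
    intro t ht hlt
    rw [hM, mem_filter]
    exact ⟨ht, hlt⟩)
  rw [Real.log_div hR0.ne' hg0.ne'] at h2
  have h3 : 0 ≤ ∑ c ∈ C, 1 / (c : ℝ) := sum_nonneg fun _ _ => by positivity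
  have h4 : Real.log g - 1 ≤ ∑ t ∈ M, 1 / (t : ℝ) := by linarith
  exact (mul_le_mul_of_nonneg_right h4 h3).trans h1

/-- `D_p` is large -/
theorem dp (k R p : ℕ) (hk : 1 ≤ k) (hp : 1 ≤ p) (hpR : p ≤ R) (C : Finset ℕ) (ν : ℕ) (σ : ℝ)
    (hσ : 0 < σ) (hCσ : σ ≤ ∑ c ∈ C, 1 / (c : ℝ)) (hC : ∀ c ∈ C, c.Prime ∧ Real.sqrt p < (c : ℝ) ∧ c ≤ p)
    (hν : ((R * p : ℕ) : ℝ) < (Real.sqrt p) ^ (ν + 1)) :
    Real.log p / 2 - 1 - ν * EX k R / σ ≤ Ph k * (SS k R - SS k (R / p)) := by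
  classical
  have hR : 1 ≤ R := hp.trans hpR
  have hp0 : (0 : ℝ) < p := by exact_mod_cast hp
  have hR0 : (0 : ℝ) < R := by exact_mod_cast hR
  have hs1 : 1 ≤ Real.sqrt p := by
    rw [Real.one_le_sqrt]
    exact_mod_cast hp
  have hs0 : 0 < Real.sqrt p := by linarith
  obtain ⟨M, hM⟩ : ∃ M : Finset ℕ, M = (Icc 1 R).filter
    (fun t : ℕ => (R : ℝ) / Real.sqrt p < t ∧ t ∈ Om k (R / p) R) := ⟨_, rfl⟩
  have h1 := mulC k R (R * p) hk M C ν (Real.sqrt p) hs1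
    (fun c hc => ⟨(hC c hc).1, (hC c hc).2.1.le⟩) hν (by
    intro t ht c hc
    rw [hM, mem_filter, mem_Icc] at ht
    obtain ⟨⟨ht1, ht2⟩, ht3, ht4⟩ := ht
    obtain ⟨hc1, hc2, hc3⟩ := hC c hc
    constructor
    · rw [div_lt_iff₀ hs0] at ht3
      have h2 : (t : ℝ) * Real.sqrt p ≤ t * c := mul_le_mul_of_nonneg_left hc2.le (by positivity)
      have h3 : (R : ℝ) < ((t * c : ℕ) : ℝ) := by push_cast; linarith
      exact_mod_cast h3
    · exact Om_mul ht4 hc1.pos ((Nat.mul_le_mul_left _ hc3).trans (Nat.div_mul_le_self R p))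
        (Nat.mul_le_mul ht2 hc3))
  obtain ⟨M', hM'⟩ : ∃ M' : Finset ℕ, M' = (Icc 1 R).filter (fun t : ℕ => t ∉ Om k (R / p) R) := ⟨_, rfl⟩
  have h2 : ∑ t ∈ M', 1 / (t : ℝ) ≤ Ph k * (SS k R - SS k (R / p)) := by
    have h3 : M' ⊆ ((AA k R) ×ˢ ((BB k R).filter (fun b => R / p < b))).image
        (fun q : ℕ × ℕ => q.1 * q.2) := by
      intro t ht
      rw [hM', mem_filter, mem_Icc] at ht
      obtain ⟨⟨ht1, ht2⟩, ht3⟩ := ht
      obtain ⟨a, b, hab, ha, hb⟩ := exists_dec k t (by omega)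
      have hb0 : 0 < b := by
        rcases Nat.eq_zero_or_pos b with h | h
        · rw [h, mul_zero] at hab
          omega
        · exact h
      have ha0 : 0 < a := Nat.pos_of_ne_zero ha.1
      rw [mem_image]
      refine ⟨(a, b), ?_, hab.symm⟩
      rw [mem_product, mem_filter, mem_BB]
      unfold AA
      rw [mem_filter, mem_Icc]
      refine ⟨⟨⟨ha0, ?_⟩, ha⟩, ⟨⟨hb0, ?_⟩, hb⟩, ?_⟩
      · refine le_trans ?_ ht2
        rw [hab]
        exact Nat.le_mul_of_pos_right a hb0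
      · refine le_trans ?_ ht2
        rw [hab]
        exact Nat.le_mul_of_pos_left b ha0
      · by_contra hcon
        apply ht3
        unfold Om
        rw [mem_filter, mem_Icc]
        exact ⟨⟨ht1, ht2⟩, a, b, hab, ha, hb, not_lt.1 hcon⟩
    have h4 : ∑ t ∈ M', 1 / (t : ℝ) ≤ (∑ a ∈ AA k R, 1 / (a : ℝ)) *
        ∑ b ∈ (BB k R).filter (fun b => R / p < b), 1 / (b : ℝ) := by
      refine (sum_le_sum_of_subset_of_nonneg (f := fun t : ℕ => 1 / (t : ℝ)) h3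
        fun _ _ _ => by positivity).trans ?_
      refine (sum_image_le_of_nonneg (f := fun t : ℕ => 1 / (t : ℝ)) (fun i _ => by positivity)).trans
        (le_of_eq ?_)
      rw [sum_mul_sum, sum_product]
      apply sum_congr rfl
      intro t _
      apply sum_congr rfl
      intro c _
      push_cast
      rw [one_div_mul_one_div]
    have h5 : ∑ b ∈ (BB k R).filter (fun b => R / p < b), 1 / (b : ℝ) = SS k R - SS k (R / p) := by
      rw [SS_eq, SS_eq, eq_sub_iff_add_eq]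
      have e : BB k (R / p) = (BB k R).filter (fun b => ¬ R / p < b) := by
        ext b
        rw [mem_filter, mem_BB, mem_BB]
        constructor
        · rintro ⟨⟨h6, h7⟩, h8⟩
          exact ⟨⟨⟨h6, h7.trans (Nat.div_le_self R p)⟩, h8⟩, by omega⟩
        · rintro ⟨⟨⟨h6, _⟩, h8⟩, h9⟩
          exact ⟨⟨h6, by omega⟩, h8⟩
      rw [e]
      exact sum_filter_add_sum_filter_not _ _ _
    rw [h5] at h4
    refine h4.trans ?_
    apply mul_le_mul_of_nonneg_right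
    · exact FN_sum_le k hk _ fun a ha => by
        unfold AA at ha
        exact (mem_filter.1 ha).2
    · rw [sub_nonneg]
      exact SS_mono k (Nat.div_le_self R p)
  have hsq : Real.sqrt p ≤ R := by
    calc Real.sqrt p ≤ p := by
          rw [Real.sqrt_le_left hp0.le]
          have : (1 : ℝ) ≤ p := by exact_mod_cast hp
          nlinarith
      _ ≤ R := by exact_mod_cast hpR
  have h3 := harm_gap R hR (R / Real.sqrt p) (by rw [le_div_iff₀ hs0]; linarith) (M ∪ M') (by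
    intro t ht hlt
    rw [mem_union, hM, hM', mem_filter, mem_filter]
    by_cases h : t ∈ Om k (R / p) R
    · exact Or.inl ⟨ht, hlt, h⟩
    · exact Or.inr ⟨ht, h⟩)
  have h4 : ∑ t ∈ M ∪ M', 1 / (t : ℝ) ≤ ∑ t ∈ M, 1 / (t : ℝ) + ∑ t ∈ M', 1 / (t : ℝ) := by
    rw [← sum_union_inter]
    have : 0 ≤ ∑ t ∈ M ∩ M', 1 / (t : ℝ) := sum_nonneg fun _ _ => by positivity
    linarith
  have h5 : ∑ t ∈ M, 1 / (t : ℝ) ≤ ν * EX k R / σ := by
    rw [le_div_iff₀ hσ]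
    refine le_trans ?_ h1
    exact mul_le_mul_of_nonneg_left hCσ (sum_nonneg fun _ _ => by positivity)
  rw [Real.log_div hR0.ne' hs0.ne', Real.log_sqrt hp0.le] at h3
  linarith

end Pool.Agent.E8helper87.BT
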