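import Pool.Agent.E8helper87.BT.Sieve

/-!
# A Turán–Kubilius argument
-/

set_option autoImplicit false

namespace Pool.Agent.E8helper87.BT

open Finset

theorem sum_mult (k X d : ℕ) (hd : 1 ≤ d) (hdk : Nat.Coprime d k) :
    ∑ m ∈ (BB k X).filter (fun m => d ∣ m), 1 / (m : ℝ) = 1 / (d : ℝ) * SS k (X / d) := by
  classical
  rw [SS_eq, mul_sum]
  symm
  apply sum_bij (fun b _ => d * b)
  · intro b hb
    rw [mem_BB] at hb
    rw [mem_filter, mem_BB]
    refine ⟨⟨⟨Nat.mul_pos hd hb.1.1, ?_⟩, Nat.Coprime.mul_left hdk hb.2⟩, Dvd.intro b rfl⟩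
    calc d * b ≤ d * (X / d) := Nat.mul_le_mul_left d hb.1.2
      _ ≤ X := Nat.mul_div_le X d
  · intro b _ b' _ h
    exact Nat.eq_of_mul_eq_mul_left hd h
  · intro c hc
    rw [mem_filter, mem_BB] at hc
    obtain ⟨⟨⟨h1, h2⟩, h3⟩, b, rfl⟩ := hc
    refine ⟨b, ?_, rfl⟩
    rw [mem_BB]
    refine ⟨⟨Nat.pos_of_ne_zero fun h => by rw [h] at h1; simp at h1, ?_⟩, ?_⟩
    · rw [Nat.le_div_iff_mul_le hd, mul_comm]
      exact h2
    · exact Nat.Coprime.coprime_dvd_left (Dvd.intro_left d rfl) h3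
  · intro b _
    push_cast
    rw [one_div_mul_one_div]

theorem tk (k X W : ℕ) (hX : 1 ≤ X) (I : Finset ℕ)
    (hI : ∀ p ∈ I, p.Prime ∧ Nat.Coprime p k ∧ p ≤ W) (L κ τ : ℝ) (hL : L = ∑ p ∈ I, 1 / (p : ℝ))
    (hL0 : 0 < L) (hκ0 : 0 ≤ κ) (hκ : SS k X - SS k (X / W) ≤ κ * SS k X) (hτ : 0 ≤ τ)
    (Ric E : ℕ → Prop) [DecidablePred Ric] [DecidablePred E]
    (hRic : ∀ n ∈ BB k X, Ric n → ∑ p ∈ I.filter (fun p => ¬ E (n * p)), 1 / (p : ℝ) ≤ τ) :
    ∑ n ∈ (BB k X).filter Ric, 1 / (n : ℝ) ≤ ∑ n ∈ (BB k X).filter E, 1 / (n : ℝ) +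
      (τ / L + Real.sqrt (1 / L + 2 * κ) + κ) * SS k X := by
  classical
  obtain ⟨S, hS⟩ : ∃ S : ℝ, S = SS k X := ⟨_, rfl⟩
  have hS1 : 1 ≤ S := by rw [hS]; exact one_le_SS k hX
  have hSs : S = ∑ n ∈ BB k X, 1 / (n : ℝ) := by rw [hS, SS_eq]
  obtain ⟨ω, hω⟩ : ∃ ω : ℕ → ℝ, ω = fun m => ∑ p ∈ I, (if p ∣ m then (1 : ℝ) else 0) := ⟨_, rfl⟩
  have hWlow : ∀ p ∈ I, (1 - κ) * S ≤ SS k (X / p) := by
    intro p hp
    have h1 : SS k (X / W) ≤ SS k (X / p) := SS_mono k (Nat.div_le_div_left (hI p hp).2.2 (hI p hp).1.pos)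
    rw [← hS] at hκ
    linarith
  have hup : ∀ d, SS k (X / d) ≤ S := by
    intro d
    rw [hS]
    exact SS_mono k (Nat.div_le_self X d)
  have hmul : ∀ p ∈ I, ∑ m ∈ BB k X, (if p ∣ m then (1 : ℝ) / m else 0) = 1 / (p : ℝ) * SS k (X / p) := by
    intro p hp
    rw [← sum_filter]
    exact sum_mult k X p (hI p hp).1.pos (hI p hp).2.1
  -- first moment
  have hm1 : L * ((1 - κ) * S) ≤ ∑ m ∈ BB k X, 1 / (m : ℝ) * ω m := by
    have e1 : ∑ m ∈ BB k X, 1 / (m : ℝ) * ω m = ∑ p ∈ I, 1 / (p : ℝ) * SS k (X / p) := by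
      have e2 : ∀ m ∈ BB k X, 1 / (m : ℝ) * ω m = ∑ p ∈ I, (if p ∣ m then (1 : ℝ) / m else 0) := by
        intro m _
        rw [hω, mul_sum]
        apply sum_congr rfl
        intro p _
        split_ifs <;> simp
      rw [sum_congr rfl e2, sum_comm]
      exact sum_congr rfl hmul
    rw [e1, hL, sum_mul]
    apply sum_le_sum
    intro p hp
    exact mul_le_mul_of_nonneg_left (hWlow p hp) (by positivity)
  -- second moment
  have hm2 : ∑ m ∈ BB k X, 1 / (m : ℝ) * ω m ^ 2 ≤ S * L + S * L ^ 2 := by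
    have e1 : ∑ m ∈ BB k X, 1 / (m : ℝ) * ω m ^ 2 = ∑ p ∈ I, ∑ q ∈ I,
        ∑ m ∈ BB k X, (if p ∣ m ∧ q ∣ m then (1 : ℝ) / m else 0) := by
      have e2 : ∀ m ∈ BB k X, 1 / (m : ℝ) * ω m ^ 2 = ∑ p ∈ I, ∑ q ∈ I,
          (if p ∣ m ∧ q ∣ m then (1 : ℝ) / m else 0) := by
        intro m _
        rw [hω, sq, sum_mul_sum, mul_sum]
        apply sum_congr rfl
        intro p _
        rw [mul_sum]
        apply sum_congr rfl
        intro q _
        by_cases h1 : p ∣ m <;> by_cases h2 : q ∣ m <;> simp [h1, h2]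
      rw [sum_congr rfl e2, sum_comm]
      apply sum_congr rfl
      intro p _
      rw [sum_comm]
    have e3 : S * L + S * L ^ 2 = ∑ p ∈ I, ∑ q ∈ I, ((if p = q then S / (p : ℝ) else 0) +
        S * (1 / (p : ℝ) * (1 / (q : ℝ)))) := by
      have e4 : ∀ p ∈ I, ∑ q ∈ I, ((if p = q then S / (p : ℝ) else 0) +
        S * (1 / (p : ℝ) * (1 / (q : ℝ)))) = S * (1 / (p : ℝ)) + S * (1 / (p : ℝ)) * L := by
        intro p hp
        rw [sum_add_distrib, sum_ite_eq, if_pos hp, hL, mul_sum]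
        congr 1
        · ring
        · apply sum_congr rfl
          intro q _
          ring
      rw [sum_congr rfl e4, sum_add_distrib, ← mul_sum, ← sum_mul, ← mul_sum, ← hL]
      ring
    rw [e1, e3]
    apply sum_le_sum
    intro p hp
    apply sum_le_sum
    intro q hq
    by_cases hpq : p = q
    · rw [if_pos hpq, ← hpq]
      simp only [and_self]
      rw [hmul p hp]
      have h1 : 1 / (p : ℝ) * SS k (X / p) ≤ 1 / (p : ℝ) * S :=
        mul_le_mul_of_nonneg_left (hup p) (by positivity)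
      have h2 : 0 ≤ S * (1 / (p : ℝ) * (1 / (p : ℝ))) := by positivity
      have h3 : 1 / (p : ℝ) * S = S / p := by ring
      linarith
    · rw [if_neg hpq, zero_add]
      have hc : Nat.Coprime p q := (Nat.coprime_primes (hI p hp).1 (hI q hq).1).2 hpq
      have e5 : ∑ m ∈ BB k X, (if p ∣ m ∧ q ∣ m then (1 : ℝ) / m else 0) =
          ∑ m ∈ (BB k X).filter (fun m => p * q ∣ m), 1 / (m : ℝ) := by
        rw [sum_filter]
        apply sum_congr rfl
        intro m _
        by_cases h1 : p * q ∣ m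
        · rw [if_pos h1, if_pos ⟨(Dvd.intro q rfl).trans h1, (Dvd.intro_left p rfl).trans h1⟩]
        · rw [if_neg h1, if_neg (fun h => h1 (hc.mul_dvd_of_dvd_of_dvd h.1 h.2))]
      rw [e5, sum_mult k X (p * q) (Nat.mul_pos (hI p hp).1.pos (hI q hq).1.pos)
        (Nat.Coprime.mul_left (hI p hp).2.1 (hI q hq).2.1)]
      push_cast
      have h1 : 1 / ((p : ℝ) * q) * SS k (X / (p * q)) ≤ 1 / ((p : ℝ) * q) * S :=
        mul_le_mul_of_nonneg_left (hup _) (by positivity)
      refine h1.trans (le_of_eq ?_)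
      rw [one_div_mul_one_div]
      ring
  have hvar : ∑ m ∈ BB k X, 1 / (m : ℝ) * (ω m - L) ^ 2 ≤ S * (L + 2 * κ * L ^ 2) := by
    have e1 : ∑ m ∈ BB k X, 1 / (m : ℝ) * (ω m - L) ^ 2 =
        ∑ m ∈ BB k X, 1 / (m : ℝ) * ω m ^ 2 - 2 * L * ∑ m ∈ BB k X, 1 / (m : ℝ) * ω m + L ^ 2 * S := by
      rw [hSs, mul_sum, mul_sum, ← sum_sub_distrib, ← sum_add_distrib]
      apply sum_congr rfl
      intro m _
      ring
    rw [e1]
    have h1 := mul_le_mul_of_nonneg_left hm1 (show 0 ≤ 2 * L by linarith)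
    nlinarith
  -- the sum over E
  obtain ⟨μE, hμE⟩ : ∃ μE : ℝ, μE = ∑ n ∈ (BB k X).filter E, 1 / (n : ℝ) := ⟨_, rfl⟩
  obtain ⟨μR, hμR⟩ : ∃ μR : ℝ, μR = ∑ n ∈ (BB k X).filter Ric, 1 / (n : ℝ) := ⟨_, rfl⟩
  have hμES : μE ≤ S := by
    rw [hμE, hSs]
    exact sum_le_sum_of_subset_of_nonneg (filter_subset _ _) fun _ _ _ => by positivity
  have hμRS : μR ≤ S := by
    rw [hμR, hSs]
    exact sum_le_sum_of_subset_of_nonneg (filter_subset _ _) fun _ _ _ => by positivity
  have hμE0 : 0 ≤ μE := by rw [hμE]; exact sum_nonneg fun _ _ => by positivity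
  have hEsum : ∑ m ∈ (BB k X).filter E, 1 / (m : ℝ) * ω m ≤
      L * μE + S * (L * Real.sqrt (1 / L + 2 * κ)) := by
    have e1 : ∑ m ∈ (BB k X).filter E, 1 / (m : ℝ) * ω m =
        L * μE + ∑ m ∈ (BB k X).filter E, 1 / (m : ℝ) * (ω m - L) := by
      rw [hμE, mul_sum, ← sum_add_distrib]
      apply sum_congr rfl
      intro m _
      ring
    rw [e1]
    have h1 : (∑ m ∈ (BB k X).filter E, 1 / (m : ℝ) * (ω m - L)) ^ 2 ≤
        (S * (L * Real.sqrt (1 / L + 2 * κ))) ^ 2 := by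
      have h2 := sum_mul_sq_le_sq_mul_sq ((BB k X).filter E) (fun m => Real.sqrt (1 / (m : ℝ)))
        (fun m => Real.sqrt (1 / (m : ℝ)) * (ω m - L))
      have e2 : ∑ m ∈ (BB k X).filter E, Real.sqrt (1 / (m : ℝ)) * (Real.sqrt (1 / (m : ℝ)) * (ω m - L)) =
          ∑ m ∈ (BB k X).filter E, 1 / (m : ℝ) * (ω m - L) := by
        apply sum_congr rfl
        intro m _
        rw [← mul_assoc, Real.mul_self_sqrt (by positivity)]
      have e3 : ∑ m ∈ (BB k X).filter E, Real.sqrt (1 / (m : ℝ)) ^ 2 = μE := by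
        rw [hμE]
        apply sum_congr rfl
        intro m _
        rw [Real.sq_sqrt (by positivity)]
      have e4 : ∑ m ∈ (BB k X).filter E, (Real.sqrt (1 / (m : ℝ)) * (ω m - L)) ^ 2 =
          ∑ m ∈ (BB k X).filter E, 1 / (m : ℝ) * (ω m - L) ^ 2 := by
        apply sum_congr rfl
        intro m _
        rw [mul_pow, Real.sq_sqrt (by positivity)]
      rw [e2, e3, e4] at h2
      have h3 : ∑ m ∈ (BB k X).filter E, 1 / (m : ℝ) * (ω m - L) ^ 2 ≤ S * (L + 2 * κ * L ^ 2) := by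
        refine le_trans ?_ hvar
        exact sum_le_sum_of_subset_of_nonneg (filter_subset _ _)
          fun m _ _ => mul_nonneg (by positivity) (sq_nonneg _)
      have h4 : 0 ≤ ∑ m ∈ (BB k X).filter E, 1 / (m : ℝ) * (ω m - L) ^ 2 :=
        sum_nonneg fun m _ => mul_nonneg (by positivity) (sq_nonneg _)
      have h5 : μE * ∑ m ∈ (BB k X).filter E, 1 / (m : ℝ) * (ω m - L) ^ 2 ≤ S * (S * (L + 2 * κ * L ^ 2)) :=
        mul_le_mul hμES h3 h4 (by linarith)
      refine h2.trans (h5.trans (le_of_eq ?_))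
      have h6 : 0 ≤ 1 / L + 2 * κ := by positivity
      rw [mul_pow, mul_pow, Real.sq_sqrt h6]
      field_simp
    have h2 := abs_le_of_sq_le_sq h1 (by positivity)
    have h3 := le_abs_self (∑ m ∈ (BB k X).filter E, 1 / (m : ℝ) * (ω m - L))
    linarith [(abs_le.1 (abs_le_of_sq_le_sq h1 (by positivity))).2]
  -- double counting
  have hcount : (L - τ) * μR ≤ ∑ m ∈ (BB k X).filter E, 1 / (m : ℝ) * ω m + L * (κ * S) := by
    have h1 : (L - τ) * μR ≤ ∑ n ∈ (BB k X).filter Ric, ∑ p ∈ I.filter (fun p => E (n * p)),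
        1 / (n : ℝ) * (1 / (p : ℝ)) := by
      rw [hμR, mul_sum]
      apply sum_le_sum
      intro n hn
      rw [mem_filter] at hn
      rw [← mul_sum, mul_comm]
      apply mul_le_mul_of_nonneg_left _ (by positivity)
      have h2 := hRic n hn.1 hn.2
      have h3 := sum_filter_add_sum_filter_not I (fun p => E (n * p)) (fun p : ℕ => 1 / (p : ℝ))
      rw [← hL] at h3
      linarith
    refine h1.trans ?_
    have h2 : ∀ n ∈ (BB k X).filter Ric, ∑ p ∈ I.filter (fun p => E (n * p)), 1 / (n : ℝ) * (1 / (p : ℝ)) ≤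
        ∑ p ∈ I.filter (fun p => E (n * p) ∧ n * p ≤ X), 1 / (n : ℝ) * (1 / (p : ℝ)) +
        ∑ p ∈ I.filter (fun p => X < n * p), 1 / (n : ℝ) * (1 / (p : ℝ)) := by
      intro n _
      have h3 : I.filter (fun p => E (n * p)) ⊆ I.filter (fun p => E (n * p) ∧ n * p ≤ X) ∪
          I.filter (fun p => X < n * p) := by
        intro p hp
        rw [mem_filter] at hp
        rw [mem_union, mem_filter, mem_filter]
        by_cases h : n * p ≤ X
        · exact Or.inl ⟨hp.1, hp.2, h⟩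
        · exact Or.inr ⟨hp.1, by omega⟩
      refine (sum_le_sum_of_subset_of_nonneg h3 fun _ _ _ => by positivity).trans ?_
      rw [← sum_union_inter]
      have : 0 ≤ ∑ p ∈ I.filter (fun p => E (n * p) ∧ n * p ≤ X) ∩ I.filter (fun p => X < n * p),
          1 / (n : ℝ) * (1 / (p : ℝ)) := sum_nonneg fun _ _ => by positivity
      linarith
    refine (sum_le_sum h2).trans ?_
    rw [sum_add_distrib]
    apply add_le_add
    · -- injection
      have e1 : ∑ n ∈ (BB k X).filter Ric, ∑ p ∈ I.filter (fun p => E (n * p) ∧ n * p ≤ X),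
          1 / (n : ℝ) * (1 / (p : ℝ)) =
          ∑ q ∈ ((BB k X).filter Ric ×ˢ I).filter (fun q => E (q.1 * q.2) ∧ q.1 * q.2 ≤ X),
            1 / ((q.1 * q.2 : ℕ) : ℝ) := by
        symm
        rw [sum_filter, sum_product]
        apply sum_congr rfl
        intro n _
        rw [sum_filter]
        apply sum_congr rfl
        intro p _
        push_cast
        rw [one_div_mul_one_div]
      have e2 : ∑ m ∈ (BB k X).filter E, 1 / (m : ℝ) * ω m =
          ∑ q ∈ ((BB k X).filter E ×ˢ I).filter (fun q => q.2 ∣ q.1), 1 / (q.1 : ℝ) := by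
        symm
        rw [sum_filter, sum_product]
        apply sum_congr rfl
        intro m _
        rw [hω, mul_sum]
        apply sum_congr rfl
        intro p _
        split_ifs <;> simp
      rw [e1, e2]
      have e3 : ∑ q ∈ ((BB k X).filter Ric ×ˢ I).filter (fun q => E (q.1 * q.2) ∧ q.1 * q.2 ≤ X),
            1 / ((q.1 * q.2 : ℕ) : ℝ) =
          ∑ r ∈ (((BB k X).filter Ric ×ˢ I).filter (fun q => E (q.1 * q.2) ∧ q.1 * q.2 ≤ X)).image
            (fun q : ℕ × ℕ => (q.1 * q.2, q.2)), 1 / (r.1 : ℝ) := by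
        rw [sum_image]
        rintro ⟨n, p⟩ h ⟨n', p'⟩ h' he
        rw [mem_coe, mem_filter, mem_product] at h h'
        simp only [Prod.mk.injEq] at he
        have hp0 : 0 < p := (hI p h.1.2).1.pos
        have e4 : n * p = n' * p := by rw [he.1, he.2]
        exact Prod.ext (Nat.eq_of_mul_eq_mul_right hp0 e4) he.2
      rw [e3]
      apply sum_le_sum_of_subset_of_nonneg
      · intro r hr
        obtain ⟨⟨n, p⟩, hq, rfl⟩ := mem_image.1 hr
        rw [mem_filter, mem_product, mem_filter, mem_BB] at hq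
        obtain ⟨⟨⟨⟨⟨h3, h4⟩, h5⟩, h6⟩, h7⟩, h8, h9⟩ := hq
        rw [mem_filter, mem_product, mem_filter, mem_BB]
        exact ⟨⟨⟨⟨⟨Nat.mul_pos h3 (hI p h7).1.pos, h9⟩, Nat.Coprime.mul_left h5 (hI p h7).2.1⟩, h8⟩, h7⟩,
          Dvd.intro_left n rfl⟩
      · intro _ _ _
        positivity
    · -- boundary
      have h3 : ∑ n ∈ (BB k X).filter Ric, ∑ p ∈ I.filter (fun p => X < n * p), 1 / (n : ℝ) * (1 / (p : ℝ)) ≤
          ∑ n ∈ BB k X, ∑ p ∈ I.filter (fun p => X < n * p), 1 / (n : ℝ) * (1 / (p : ℝ)) :=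
        sum_le_sum_of_subset_of_nonneg (filter_subset _ _)
          fun _ _ _ => sum_nonneg fun _ _ => by positivity
      refine h3.trans ?_
      have e1 : ∑ n ∈ BB k X, ∑ p ∈ I.filter (fun p => X < n * p), 1 / (n : ℝ) * (1 / (p : ℝ)) =
          ∑ p ∈ I, 1 / (p : ℝ) * (S - SS k (X / p)) := by
        have e2 : ∀ n ∈ BB k X, ∑ p ∈ I.filter (fun p => X < n * p), 1 / (n : ℝ) * (1 / (p : ℝ)) =
            ∑ p ∈ I, (if X < n * p then 1 / (n : ℝ) * (1 / (p : ℝ)) else 0) := by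
          intro n _
          rw [sum_filter]
        rw [sum_congr rfl e2, sum_comm]
        apply sum_congr rfl
        intro p hp
        have hp0 := (hI p hp).1.pos
        have e3 : S - SS k (X / p) = ∑ n ∈ (BB k X).filter (fun n => X < n * p), 1 / (n : ℝ) := by
          rw [hSs, SS_eq, sub_eq_iff_eq_add]
          have e : BB k (X / p) = (BB k X).filter (fun n => ¬ X < n * p) := by
            ext b
            rw [mem_filter, mem_BB, mem_BB]
            constructor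
            · rintro ⟨⟨h6, h7⟩, h8⟩
              refine ⟨⟨⟨h6, h7.trans (Nat.div_le_self X p)⟩, h8⟩, ?_⟩
              rw [Nat.le_div_iff_mul_le hp0] at h7
              omega
            · rintro ⟨⟨⟨h6, _⟩, h8⟩, h9⟩
              refine ⟨⟨h6, ?_⟩, h8⟩
              rw [Nat.le_div_iff_mul_le hp0]
              omega
          rw [e]
          exact (sum_filter_add_sum_filter_not _ _ _).symm
        rw [e3, mul_sum, sum_filter]
        apply sum_congr rfl
        intro n _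
        split_ifs
        · ring
        · rfl
      rw [e1, hL, sum_mul]
      apply sum_le_sum
      intro p hp
      apply mul_le_mul_of_nonneg_left _ (by positivity)
      have := hWlow p hp
      linarith
  -- conclusion
  rw [← hμE, ← hμR, ← hS]
  have h1 : L * μR ≤ L * (μE + (τ / L + Real.sqrt (1 / L + 2 * κ) + κ) * S) := by
    have h2 : τ * μR ≤ τ * S := mul_le_mul_of_nonneg_left hμRS hτ
    have h3 : L * (μE + (τ / L + Real.sqrt (1 / L + 2 * κ) + κ) * S) =
        L * μE + τ * S + S * (L * Real.sqrt (1 / L + 2 * κ)) + L * (κ * S) := by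
      field_simp
      ring
    rw [h3]
    nlinarith
  exact le_of_mul_le_mul_left h1 hL0

end Pool.Agent.E8helper87.BT
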