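import Pool.Agent.E8helper87.BT.Near
import Pool.Agent.E8helper87.BT.Stab
import Pool.Agent.E8helper87.BT.Reg
import Pool.Agent.E8helper87.BT.TK
import Pool.Agent.E8helper87.BT.Mert

/-!
# Parameters and the consequences of one near-extremal dilate
-/

set_option autoImplicit false

namespace Pool.Agent.E8helper87.BT

open Finset Filter Topology

/-- the parameters -/
structure Par (θ η ε lam β α ρ z : ℝ) (ν : ℕ) : Prop where
  θ0 : 0 < θ
  θ1 : θ < 1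
  η0 : 0 < η
  ε0 : 0 < ε
  ε1 : ε ≤ 1
  l0 : 0 < lam
  l1 : lam ≤ (1 - θ) / 8
  b0 : 0 < β
  b1 : β ≤ lam
  b2 : β ≤ η / 4
  a0 : 0 < α
  a1 : α ≤ β
  hν : 2 / α ≤ ν
  r0 : 0 < ρ
  r1 : ρ ≤ 1 / 8
  r2 : ρ ≤ lam / 2
  r3 : 4 * ν * ρ ≤ α / 8
  r5 : 128 * ρ ≤ α ^ 2 * ε
  z1 : 1 < z
  e5 : 8 ≤ α * Real.log z
  e6 : 1 ≤ β * Real.log z
  e7 : 2 ≤ z ^ (lam / 2)
  e8 : 2 * Real.log z ≤ ε * z ^ (3 * lam)

theorem Par.pow_lt {θ η ε lam β α ρ z : ℝ} {ν : ℕ} (P : Par θ η ε lam β α ρ z ν) (g : ℝ)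
    (hg : z ^ (α / 2) ≤ g) : z < g ^ (ν + 1) := by
  have h0 : 0 < z := by linarith [P.z1]
  have h1 : (z ^ (α / 2)) ^ (ν + 1) ≤ g ^ (ν + 1) := pow_le_pow_left₀ (by positivity) hg _
  refine lt_of_lt_of_le ?_ h1
  rw [← Real.rpow_natCast, ← Real.rpow_mul h0.le]
  nth_rewrite 1 [← Real.rpow_one z]
  apply Real.rpow_lt_rpow_of_exponent_lt P.z1
  have h2 := P.hν
  have h3 := P.a0
  rw [div_le_iff₀ h3] at h2
  push_cast
  nlinarith

/-- the range of `R` -/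
theorem Par.basic {θ η ε lam β α ρ z : ℝ} {ν : ℕ} (P : Par θ η ε lam β α ρ z ν) (n : ℕ) (hn : 1 ≤ n)
    (hnz : (n : ℝ) ≤ z ^ θ) (Z : ℝ) (hZ : Z = z / n) (R : ℕ) (hR : R = ⌊Z ^ (1 / 2 - ρ)⌋₊) :
    z ^ (1 - θ) ≤ Z ∧ Z ≤ z ∧ z ^ ((1 - θ) * (1 / 2 - ρ)) ≤ 2 * R ∧ z ^ lam ≤ R ∧ (R : ℝ) ^ 2 ≤ Z ∧
      z ^ (8 * lam) ≤ Z := by
  have h0 : 0 < z := by linarith [P.z1]
  have hz1 := P.z1
  have hn0 : (0 : ℝ) < n := by exact_mod_cast hn
  have hn1 : (1 : ℝ) ≤ n := by exact_mod_cast hn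
  have hθ1 := P.θ1
  have hl0 := P.l0
  have hl1 := P.l1
  have hr0 := P.r0
  have hr1 := P.r1
  have g1 : z ^ (1 - θ) ≤ Z := by
    rw [hZ, le_div_iff₀ hn0]
    calc z ^ (1 - θ) * n ≤ z ^ (1 - θ) * z ^ θ := mul_le_mul_of_nonneg_left hnz (by positivity)
      _ = z := by rw [← Real.rpow_add h0]; simp
  have g2 : Z ≤ z := by
    rw [hZ]
    exact div_le_self h0.le hn1
  have hZ0 : 0 < Z := lt_of_lt_of_le (by positivity) g1
  obtain ⟨V, hV⟩ : ∃ V : ℝ, V = Z ^ (1 / 2 - ρ) := ⟨_, rfl⟩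
  have hVlow : z ^ ((1 - θ) * (1 / 2 - ρ)) ≤ V := by
    rw [hV, Real.rpow_mul h0.le]
    exact Real.rpow_le_rpow (by positivity) g1 (by linarith)
  have h7 := P.e7
  have hlam2 : 4 ≤ z ^ lam := by
    have : z ^ lam = z ^ (lam / 2) * z ^ (lam / 2) := by
      rw [← Real.rpow_add h0]
      congr 1
      ring
    rw [this]
    nlinarith
  have h3l : z ^ (3 * lam) ≤ z ^ ((1 - θ) * (1 / 2 - ρ)) := by
    apply Real.rpow_le_rpow_of_exponent_le hz1.le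
    nlinarith
  have h3l' : 4 * z ^ lam ≤ z ^ (3 * lam) := by
    have : z ^ (3 * lam) = z ^ lam * z ^ lam * z ^ lam := by
      rw [← Real.rpow_add h0, ← Real.rpow_add h0]
      congr 1
      ring
    rw [this]
    nlinarith
  have hV2 : 2 ≤ V := by linarith
  have hRV : (R : ℝ) ≤ V := by rw [hR, ← hV]; exact Nat.floor_le (by linarith)
  have hVR : V < R + 1 := by rw [hR, ← hV]; exact Nat.lt_floor_add_one V
  have g3 : z ^ ((1 - θ) * (1 / 2 - ρ)) ≤ 2 * R := by linarith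
  have g4 : z ^ lam ≤ R := by linarith
  have hZ1 : 1 ≤ Z := by
    refine le_trans ?_ g1
    exact Real.one_le_rpow hz1.le (by linarith)
  have g5 : (R : ℝ) ^ 2 ≤ Z := by
    calc (R : ℝ) ^ 2 ≤ V ^ 2 := pow_le_pow_left₀ (by positivity) hRV 2
      _ = Z ^ ((1 / 2 - ρ) * 2) := by
          rw [hV, Real.rpow_mul hZ0.le]
          norm_num
      _ ≤ Z ^ (1 : ℝ) := Real.rpow_le_rpow_of_exponent_le hZ1 (by linarith)
      _ = Z := Real.rpow_one Z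
  refine ⟨g1, g2, g3, g4, g5, ?_⟩
  refine le_trans ?_ g1
  apply Real.rpow_le_rpow_of_exponent_le hz1.le
  linarith

/-- the primes dividing `k` have a small reciprocal sum -/
theorem Par.primes_k {θ η ε lam β α ρ z : ℝ} {ν : ℕ} (P : Par θ η ε lam β α ρ z ν) (k R : ℕ) (hk : 1 ≤ k)
    (hR1 : z ^ lam ≤ R) (hR2 : (R : ℝ) ^ 2 ≤ z) (hex : EX k R ≤ 2 * ρ * Real.log z) (C : Finset ℕ)
    (hC : ∀ c ∈ C, c.Prime ∧ z ^ α < (c : ℝ) ∧ (c : ℝ) ≤ z ^ β ∧ c ∣ k) :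
    ∑ c ∈ C, 1 / (c : ℝ) ≤ 1 := by
  have h0 : 0 < z := by linarith [P.z1]
  have hz1 := P.z1
  have hl := Real.log_pos hz1
  have hR0 : (0 : ℝ) ≤ R := by positivity
  have hg1 : 1 ≤ z ^ α := Real.one_le_rpow hz1.le P.a0.le
  have hgR : z ^ β ≤ R := (Real.rpow_le_rpow_of_exponent_le hz1.le P.b1).trans hR1
  have hgR' : z ^ α ≤ R := (Real.rpow_le_rpow_of_exponent_le hz1.le P.a1).trans hgR
  have hR : 1 ≤ R := by exact_mod_cast hg1.trans hgR'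
  have h1 := c5 k R hk hR ⌊z⌋₊ C ν (z ^ α) hg1 hgR' (fun c hc => by
    obtain ⟨h2, h3, h4, h5⟩ := hC c hc
    refine ⟨h2, h3.le, h5, Nat.le_floor ?_⟩
    push_cast
    have : (R : ℝ) * c ≤ R * R := mul_le_mul_of_nonneg_left (h4.trans hgR) hR0
    nlinarith) (by
    refine lt_of_le_of_lt (Nat.floor_le h0.le) (P.pow_lt (z ^ α) ?_)
    apply Real.rpow_le_rpow_of_exponent_le hz1.le
    linarith [P.a0])
  rw [Real.log_rpow h0] at h1
  have hS : 0 ≤ ∑ c ∈ C, 1 / (c : ℝ) := sum_nonneg fun _ _ => by positivity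
  by_contra hcon
  push Not at hcon
  have h5 := P.e5
  have h3 := P.r3
  have hν0 : (0 : ℝ) ≤ ν := by positivity
  have h2 : (ν : ℝ) * EX k R ≤ ν * (2 * ρ * Real.log z) := mul_le_mul_of_nonneg_left hex hν0
  have h4 : α * Real.log z - 1 < (α * Real.log z - 1) * ∑ c ∈ C, 1 / (c : ℝ) := by nlinarith
  have h6 : (ν : ℝ) * (2 * ρ * Real.log z) ≤ α / 16 * Real.log z := by nlinarith
  nlinarith

/-- the differences `S(R) - S(R / p)` are large -/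
theorem Par.diff {θ η ε lam β α ρ z : ℝ} {ν : ℕ} (P : Par θ η ε lam β α ρ z ν) (k R : ℕ) (hk : 1 ≤ k)
    (hR1 : z ^ lam ≤ R) (hR2 : (R : ℝ) ^ 2 ≤ z) (hex : EX k R ≤ 2 * ρ * Real.log z)
    (z2 : ℝ) (hz2 : z2 ≤ z ^ α) (hM : ∀ w : ℝ, z2 ≤ w → ∀ C : Finset ℕ,
      (∀ p : ℕ, p.Prime → w ^ (1 / 2 : ℝ) < (p : ℝ) → (p : ℝ) ≤ w ^ (1 : ℝ) → p ∈ C) →
        1 / 2 ≤ ∑ p ∈ C, 1 / (p : ℝ))
    (p : ℕ) (hp1 : z ^ α < (p : ℝ)) (hp2 : (p : ℝ) ≤ z ^ β) :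
    α / 4 * Real.log z ≤ Ph k * (SS k R - SS k (R / p)) := by
  classical
  have h0 : 0 < z := by linarith [P.z1]
  have hz1 := P.z1
  have hl := Real.log_pos hz1
  have hR0 : (0 : ℝ) ≤ R := by positivity
  have hg1 : 1 ≤ z ^ α := Real.one_le_rpow hz1.le P.a0.le
  have hgR : z ^ β ≤ R := (Real.rpow_le_rpow_of_exponent_le hz1.le P.b1).trans hR1
  have hp : 1 ≤ p := by exact_mod_cast (hg1.trans hp1.le)
  have hp0 : (0 : ℝ) < p := by exact_mod_cast hp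
  have hpR : p ≤ R := by exact_mod_cast hp2.trans hgR
  have hpR' : (p : ℝ) ≤ R := by exact_mod_cast hpR
  obtain ⟨C, hC⟩ : ∃ C : Finset ℕ, C = (Icc 1 p).filter (fun c : ℕ => c.Prime ∧ Real.sqrt p < (c : ℝ)) := ⟨_, rfl⟩
  have hCs : 1 / 2 ≤ ∑ c ∈ C, 1 / (c : ℝ) := by
    apply hM p (hz2.trans hp1.le) C
    intro c hc h1 h2
    rw [Real.rpow_one] at h2
    rw [hC, mem_filter, mem_Icc, Real.sqrt_eq_rpow]
    exact ⟨⟨hc.pos, by exact_mod_cast h2⟩, hc, h1⟩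
  have h1 := dp k R p hk hp hpR C ν (1 / 2) (by norm_num) hCs (fun c hc => by
    rw [hC, mem_filter, mem_Icc] at hc
    exact ⟨hc.2.1, hc.2.2, hc.1.2⟩) (by
    refine lt_of_le_of_lt ?_ (P.pow_lt (Real.sqrt p) ?_)
    · push_cast
      have : (R : ℝ) * p ≤ R * R := mul_le_mul_of_nonneg_left hpR' hR0
      nlinarith
    · have : z ^ (α / 2) = Real.sqrt (z ^ α) := by
        rw [Real.sqrt_eq_rpow, ← Real.rpow_mul h0.le]
        congr 1
        ring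
      rw [this]
      exact Real.sqrt_le_sqrt hp1.le)
  have h2 : α * Real.log z ≤ Real.log p := by
    rw [← Real.log_rpow h0]
    exact Real.log_le_log (by positivity) hp1.le
  have hν0 : (0 : ℝ) ≤ ν := by positivity
  have h3 : (ν : ℝ) * EX k R / (1 / 2) ≤ 4 * ν * ρ * Real.log z := by
    have := mul_le_mul_of_nonneg_left hex hν0
    rw [div_le_iff₀ (by norm_num)]
    linarith
  have h4 := mul_le_mul_of_nonneg_right P.r3 hl.le
  have h5 := P.e5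
  nlinarith

/-- the boundary terms -/
theorem Par.bdry {θ η ε lam β α ρ z : ℝ} {ν : ℕ} (P : Par θ η ε lam β α ρ z ν) (k X W : ℕ)
    (hX : z ^ η ≤ X) (hW : W = ⌊z ^ β⌋₊) :
    SS k X - SS k (X / W) ≤ 4 * β / η * SS k X := by
  have h0 : 0 < z := by linarith [P.z1]
  have hz1 := P.z1
  have hl := Real.log_pos hz1
  have hη0 := P.η0
  have hb0 := P.b0
  have hzη : 1 ≤ z ^ η := Real.one_le_rpow hz1.le P.η0.le
  have hX1' : (1 : ℝ) ≤ X := hzη.trans hX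
  have hX1 : 1 ≤ X := by exact_mod_cast hX1'
  have hW1 : 1 ≤ W := by
    rw [hW]
    exact Nat.le_floor (by push_cast; exact Real.one_le_rpow hz1.le P.b0.le)
  have hX0 : (0 : ℝ) < X := by exact_mod_cast hX1
  have hW0 : (0 : ℝ) < W := by exact_mod_cast hW1
  have hWz : (W : ℝ) ≤ z ^ β := by rw [hW]; exact Nat.floor_le (by positivity)
  have h1 : Real.log W ≤ β * Real.log z := by
    rw [← Real.log_rpow h0]
    exact Real.log_le_log hW0 hWz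
  have h2 : η * Real.log z ≤ Real.log X := by
    rw [← Real.log_rpow h0]
    exact Real.log_le_log (by positivity) hX
  have h3 := reg k X W hX1 hW1
  have hD : 0 ≤ SS k X - SS k (X / W) := by
    rw [sub_nonneg]
    exact SS_mono k (Nat.div_le_self X W)
  have hS := SS_nonneg k X
  have h4 : η / 2 * Real.log z ≤ Real.log X - Real.log W := by
    have h5 := P.b2
    nlinarith
  have h5 : Real.log W + 8 ≤ 2 * β * Real.log z := by
    have h6 := P.e5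
    have h7 := mul_le_mul_of_nonneg_right P.a1 hl.le
    linarith
  have h6 : η / 2 * Real.log z * (SS k X - SS k (X / W)) ≤ 2 * β * Real.log z * SS k X :=
    (mul_le_mul_of_nonneg_right h4 hD).trans (h3.trans (mul_le_mul_of_nonneg_right h5 hS))
  rw [div_mul_eq_mul_div, le_div_iff₀ hη0]
  have h7 : Real.log z * ((SS k X - SS k (X / W)) * η) ≤ Real.log z * (4 * β * SS k X) := by nlinarith
  exact le_of_mul_le_mul_left h7 hl

end Pool.Agent.E8helper87.BT
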