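import Pool.Agent.E8helper87.BT.Count

/-!
# The weights
-/

set_option autoImplicit false

namespace Pool.Agent.E8helper87.BT

open Finset

/-- the local weight -/
noncomputable def ps (A : Finset ℕ) (m : ℕ) : ℝ := ∏ q ∈ A.filter (fun q => q ∣ m), (1 - (q : ℝ))

theorem prod_dvd_iff {s : Finset ℕ} (hs : ∀ p ∈ s, p.Prime) (m : ℕ) :
    (∏ p ∈ s, p) ∣ m ↔ ∀ p ∈ s, p ∣ m := by
  constructor
  · intro h p hp
    exact (Finset.dvd_prod_of_mem _ hp).trans h
  · intro h
    exact Finset.prod_primes_dvd m (fun p hp => (hs p hp).prime) h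

theorem ps_expand (A : Finset ℕ) (hA : ∀ p ∈ A, p.Prime) (m : ℕ) :
    ps A m = ∑ s ∈ A.powerset, (if (∏ p ∈ s, p) ∣ m then (1 : ℝ) else 0) * ∏ p ∈ s, (-(p : ℝ)) := by
  classical
  unfold ps
  have e1 : ∏ q ∈ A.filter (fun q => q ∣ m), (1 - (q : ℝ)) =
      ∏ q ∈ A.filter (fun q => q ∣ m), (1 + (-(q : ℝ))) := by
    apply prod_congr rfl
    intro q _
    ring
  rw [e1, prod_one_add]
  have e2 : (A.filter (fun q => q ∣ m)).powerset = A.powerset.filter (fun s => (∏ p ∈ s, p) ∣ m) := by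
    ext s
    rw [mem_powerset, mem_filter, mem_powerset]
    constructor
    · intro h
      have h1 : s ⊆ A := h.trans (filter_subset _ _)
      exact ⟨h1, (prod_dvd_iff (fun p hp => hA p (h1 hp)) m).2 fun p hp => (mem_filter.1 (h hp)).2⟩
    · rintro ⟨h1, h2⟩ p hp
      exact mem_filter.2 ⟨h1 hp, (prod_dvd_iff (fun p hp => hA p (h1 hp)) m).1 h2 p hp⟩
  rw [e2, sum_filter]
  apply sum_congr rfl
  intro s _
  split_ifs <;> simp

/-- the main term of the correlation of two local weights -/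
noncomputable def KK (A A' : Finset ℕ) : ℝ :=
  ∑ s ∈ A.powerset, ∑ s' ∈ A'.powerset, (∏ _p ∈ s, (-1 : ℝ)) * (∏ _p ∈ s', (-1 : ℝ)) * ∏ p ∈ s ∩ s', (p : ℝ)

theorem KK_comm (A A' : Finset ℕ) : KK A A' = KK A' A := by
  unfold KK
  rw [sum_comm]
  apply sum_congr rfl
  intro s _
  apply sum_congr rfl
  intro s' _
  rw [inter_comm]
  ring

theorem KK_eq (A A' : Finset ℕ) : KK A A' = ∑ s ∈ A.powerset, (∏ _p ∈ s, (-1 : ℝ)) *
    ∏ p ∈ A', (1 + (if p ∈ s then -(p : ℝ) else -1)) := by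
  unfold KK
  apply sum_congr rfl
  intro s _
  rw [prod_one_add, mul_sum]
  apply sum_congr rfl
  intro s' _
  rw [mul_assoc]
  congr 1
  have e1 : ∏ p ∈ s ∩ s', (p : ℝ) = ∏ p ∈ s', (if p ∈ s then (p : ℝ) else 1) := by
    rw [inter_comm, ← filter_mem_eq_inter, prod_filter]
  rw [e1, ← prod_mul_distrib]
  apply prod_congr rfl
  intro p _
  split_ifs <;> ring

theorem KK_zero (A A' : Finset ℕ) (h : A ≠ A') : KK A A' = 0 := by
  have key : ∀ B B' : Finset ℕ, ¬ (B' ⊆ B) → KK B B' = 0 := by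
    intro B B' hB
    rw [KK_eq]
    apply sum_eq_zero
    intro s hs
    rw [mem_powerset] at hs
    obtain ⟨p, hp, hpB⟩ := Finset.not_subset.1 hB
    have : ∏ p ∈ B', (1 + (if p ∈ s then -(p : ℝ) else -1)) = 0 := by
      apply prod_eq_zero hp
      rw [if_neg (fun h => hpB (hs h))]
      ring
    rw [this, mul_zero]
  by_cases h1 : A' ⊆ A
  · have h2 : ¬ (A ⊆ A') := fun h2 => h (subset_antisymm h2 h1)
    rw [KK_comm]
    exact key A' A h2
  · exact key A A' h1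

theorem KK_self (A : Finset ℕ) : KK A A = ∏ p ∈ A, ((p : ℝ) - 1) := by
  rw [KK_eq, sum_eq_single A]
  · rw [← prod_mul_distrib]
    apply prod_congr rfl
    intro p hp
    rw [if_pos hp]
    ring
  · intro s hs hne
    rw [mem_powerset] at hs
    have h1 : ¬ (A ⊆ s) := fun h => hne (subset_antisymm hs h)
    obtain ⟨p, hp, hps⟩ := Finset.not_subset.1 h1
    have : ∏ p ∈ A, (1 + (if p ∈ s then -(p : ℝ) else -1)) = 0 := by
      apply prod_eq_zero hp
      rw [if_neg hps]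
      ring
    rw [this, mul_zero]
  · intro h
    exact absurd (mem_powerset_self A) h

/-- the error weights -/
noncomputable def GG (A : Finset ℕ) : ℝ := ∏ p ∈ A, (1 + (p : ℝ))

theorem GG_eq (A : Finset ℕ) : GG A = ∑ s ∈ A.powerset, ∏ p ∈ s, (p : ℝ) := prod_one_add _

theorem GG_nonneg (A : Finset ℕ) : 0 ≤ GG A := prod_nonneg fun p _ => by positivity

/-- the correlation of two local weights over a dilated progression -/
theorem corr_le {x y : ℝ} {k : ℕ} {l : ℤ} {n : ℕ} (hn : 1 ≤ n) (hy : 0 ≤ y) (hyx : y ≤ x)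
    (hk : 1 ≤ k) (h : Nat.Coprime n k) (A A' : Finset ℕ) (hA : ∀ p ∈ A, p.Prime ∧ Nat.Coprime p k)
    (hA' : ∀ p ∈ A', p.Prime ∧ Nat.Coprime p k) :
    ∑ m ∈ Ap x y k l n, ps A m * ps A' m ≤ y / k / n * KK A A' + 2 * (GG A * GG A') := by
  classical
  have hP : ∀ p ∈ A, p.Prime := fun p hp => (hA p hp).1
  have hP' : ∀ p ∈ A', p.Prime := fun p hp => (hA' p hp).1
  have e1 : ∑ m ∈ Ap x y k l n, ps A m * ps A' m = ∑ s ∈ A.powerset, ∑ s' ∈ A'.powerset,
      ((∏ p ∈ s, (-(p : ℝ))) * ∏ p ∈ s', (-(p : ℝ))) * ((Ap x y k l (n * ∏ p ∈ s ∪ s', p)).card : ℝ) := by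
    have e2 : ∀ m ∈ Ap x y k l n, ps A m * ps A' m = ∑ s ∈ A.powerset, ∑ s' ∈ A'.powerset,
        ((∏ p ∈ s, (-(p : ℝ))) * ∏ p ∈ s', (-(p : ℝ))) * (if (∏ p ∈ s ∪ s', p) ∣ m then (1 : ℝ) else 0) := by
      intro m _
      rw [ps_expand A hP, ps_expand A' hP', sum_mul_sum]
      apply sum_congr rfl
      intro s hs
      apply sum_congr rfl
      intro s' hs'
      rw [mem_powerset] at hs hs'
      have h1 : (∏ p ∈ s ∪ s', p) ∣ m ↔ ((∏ p ∈ s, p) ∣ m ∧ (∏ p ∈ s', p) ∣ m) := by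
        rw [prod_dvd_iff (fun p hp => hP p (hs hp)), prod_dvd_iff (fun p hp => hP' p (hs' hp)),
          prod_dvd_iff (fun p hp => by
            rcases mem_union.1 hp with h2 | h2
            · exact hP p (hs h2)
            · exact hP' p (hs' h2))]
        constructor
        · intro h2
          exact ⟨fun p hp => h2 p (mem_union_left _ hp), fun p hp => h2 p (mem_union_right _ hp)⟩
        · rintro ⟨h2, h3⟩ p hp
          rcases mem_union.1 hp with h4 | h4
          · exact h2 p h4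
          · exact h3 p h4
      by_cases c1 : (∏ p ∈ s, p) ∣ m
      · by_cases c2 : (∏ p ∈ s', p) ∣ m
        · rw [if_pos c1, if_pos c2, if_pos (h1.2 ⟨c1, c2⟩)]
          ring
        · rw [if_neg c2, if_neg (fun h2 => c2 (h1.1 h2).2)]
          ring
      · rw [if_neg c1, if_neg (fun h2 => c1 (h1.1 h2).1)]
        ring
    rw [sum_congr rfl e2, sum_comm]
    apply sum_congr rfl
    intro s hs
    rw [sum_comm]
    apply sum_congr rfl
    intro s' hs'
    rw [mem_powerset] at hs hs'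
    rw [← mul_sum]
    congr 1
    rw [← Ap_mul (l := l) hn (Nat.pos_of_ne_zero (Finset.prod_ne_zero_iff.2 fun p hp => by
      rcases mem_union.1 hp with h4 | h4
      · exact (hP p (hs h4)).ne_zero
      · exact (hP' p (hs' h4)).ne_zero)) hy hyx, card_filter]
    push_cast
    rfl
  rw [e1]
  have e3 : y / k / n * KK A A' + 2 * (GG A * GG A') = ∑ s ∈ A.powerset, ∑ s' ∈ A'.powerset,
      (y / k / n * ((∏ _p ∈ s, (-1 : ℝ)) * (∏ _p ∈ s', (-1 : ℝ)) * ∏ p ∈ s ∩ s', (p : ℝ)) +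
        2 * ((∏ p ∈ s, (p : ℝ)) * ∏ p ∈ s', (p : ℝ))) := by
    unfold KK
    rw [GG_eq, GG_eq, sum_mul_sum, mul_sum, mul_sum, ← sum_add_distrib]
    apply sum_congr rfl
    intro s _
    rw [mul_sum, mul_sum, ← sum_add_distrib]
  rw [e3]
  apply sum_le_sum
  intro s hs
  apply sum_le_sum
  intro s' hs'
  rw [mem_powerset] at hs hs'
  have hU : ∀ p ∈ s ∪ s', p.Prime ∧ Nat.Coprime p k := by
    intro p hp
    rcases mem_union.1 hp with h4 | h4
    · exact hA p (hs h4)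
    · exact hA' p (hs' h4)
  have hD1 : 1 ≤ ∏ p ∈ s ∪ s', p := Nat.pos_of_ne_zero (Finset.prod_ne_zero_iff.2 fun p hp =>
    (hU p hp).1.ne_zero)
  have hDc : Nat.Coprime (n * ∏ p ∈ s ∪ s', p) k :=
    Nat.Coprime.mul_left h (Nat.Coprime.prod_left fun p hp => (hU p hp).2)
  have hc := Ap_card (x := x) (y := y) (l := l) (Nat.mul_pos hn hD1) hy hyx hk hDc
  obtain ⟨D, hD⟩ : ∃ D : ℝ, D = ∏ p ∈ s ∪ s', (p : ℝ) := ⟨_, rfl⟩
  obtain ⟨E, hE⟩ : ∃ E : ℝ, E = ∏ p ∈ s ∩ s', (p : ℝ) := ⟨_, rfl⟩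
  obtain ⟨a, ha⟩ : ∃ a : ℝ, a = ∏ p ∈ s, (p : ℝ) := ⟨_, rfl⟩
  obtain ⟨b, hb⟩ : ∃ b : ℝ, b = ∏ p ∈ s', (p : ℝ) := ⟨_, rfl⟩
  obtain ⟨u, hu⟩ : ∃ u : ℝ, u = ∏ _p ∈ s, (-1 : ℝ) := ⟨_, rfl⟩
  obtain ⟨v, hv⟩ : ∃ v : ℝ, v = ∏ _p ∈ s', (-1 : ℝ) := ⟨_, rfl⟩
  obtain ⟨c, hcc⟩ : ∃ c : ℝ, c = ((Ap x y k l (n * ∏ p ∈ s ∪ s', p)).card : ℝ) := ⟨_, rfl⟩
  have hDE : D * E = a * b := by
    rw [hD, hE, ha, hb]
    exact prod_union_inter
  have hu1 : ∏ p ∈ s, (-(p : ℝ)) = u * a := by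
    rw [hu, ha, ← prod_mul_distrib]
    apply prod_congr rfl
    intro p _
    ring
  have hv1 : ∏ p ∈ s', (-(p : ℝ)) = v * b := by
    rw [hv, hb, ← prod_mul_distrib]
    apply prod_congr rfl
    intro p _
    ring
  have hD0 : 0 < D := by
    rw [hD]
    exact prod_pos fun p hp => by exact_mod_cast (hU p hp).1.pos
  have ha0 : 0 ≤ a := by rw [ha]; positivity
  have hb0 : 0 ≤ b := by rw [hb]; positivity
  have huv : |u * v| = 1 := by
    rw [hu, hv, abs_mul, prod_const, prod_const, abs_neg_one_pow, abs_neg_one_pow, one_mul]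
  have hc2 : |c - y / k / n / D| ≤ 2 := by
    rw [hcc, hD]
    have e : y / k / ((n * ∏ p ∈ s ∪ s', p : ℕ) : ℝ) = y / k / n / ∏ p ∈ s ∪ s', (p : ℝ) := by
      push_cast
      rw [div_div (y / k)]
    rw [← e]
    exact hc
  rw [hu1, hv1, ← hcc, ← ha, ← hb, ← hu, ← hv, ← hE]
  have e5 : (u * a) * (v * b) * c = y / k / n * (u * v * E) + (u * v) * (a * b) * (c - y / k / n / D) := by
    have : E = a * b / D := by
      rw [← hDE]
      field_simp
    rw [this]
    field_simp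
    ring
  rw [e5]
  have e6 : (u * v) * (a * b) * (c - y / k / n / D) ≤ 2 * (a * b) := by
    refine (le_abs_self _).trans ?_
    rw [abs_mul, abs_mul, huv, one_mul, abs_of_nonneg (mul_nonneg ha0 hb0)]
    have := mul_le_mul_of_nonneg_left hc2 (mul_nonneg ha0 hb0)
    linarith
  linarith

/-- the integers `b ≤ R` coprime to `k` -/
def BB (k R : ℕ) : Finset ℕ := (Icc 1 R).filter (fun b => Nat.Coprime b k)

theorem SS_eq (k R : ℕ) : SS k R = ∑ b ∈ BB k R, 1 / (b : ℝ) := rfl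

theorem mem_BB {k R b : ℕ} : b ∈ BB k R ↔ (1 ≤ b ∧ b ≤ R) ∧ Nat.Coprime b k := by
  unfold BB
  rw [mem_filter, mem_Icc]

theorem BB_primes {k R b : ℕ} (hb : b ∈ BB k R) (p : ℕ) (hp : p ∈ b.primeFactors) :
    p.Prime ∧ Nat.Coprime p k := by
  obtain ⟨h1, h2, h3⟩ := Nat.mem_primeFactors.1 hp
  exact ⟨h1, Nat.Coprime.coprime_dvd_left h2 (mem_BB.1 hb).2⟩

/-- the integers with a given set of primes -/
theorem fiber_le {b : ℕ} (hb : 1 ≤ b) (S : Finset ℕ) (hS : ∀ c ∈ S, 1 ≤ c ∧ c.primeFactors = b.primeFactors) :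
    (∏ p ∈ b.primeFactors, ((p : ℝ) - 1)) * ∑ c ∈ S, 1 / (c : ℝ) ≤ 1 := by
  classical
  have hpr : ∀ p ∈ b.primeFactors, p.Prime := fun p hp => Nat.prime_of_mem_primeFactors hp
  obtain ⟨r, hr⟩ : ∃ r : ℕ, r = ∏ p ∈ b.primeFactors, p := ⟨_, rfl⟩
  have hr0 : 0 < r := by
    rw [hr]
    exact Nat.pos_of_ne_zero (Finset.prod_ne_zero_iff.2 fun p hp => (hpr p hp).ne_zero)
  have hdiv : ∀ c ∈ S, r ∣ c := by
    intro c hc
    rw [hr, ← (hS c hc).2]
    exact Nat.prod_primeFactors_dvd c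
  have h1 : ∑ c ∈ S, 1 / (c : ℝ) = (1 / (r : ℝ)) * ∑ a ∈ S.image (fun c => c / r), 1 / (a : ℝ) := by
    rw [sum_image, mul_sum]
    · apply sum_congr rfl
      intro c hc
      obtain ⟨a, ha⟩ := hdiv c hc
      have e1 : c / r = a := by
        rw [ha]
        exact Nat.mul_div_cancel_left a hr0
      simp only [e1]
      rw [ha]
      push_cast
      rw [one_div_mul_one_div]
    · intro c hc c' hc' h
      have h' : c / r = c' / r := h
      rw [← Nat.mul_div_cancel' (hdiv c hc), ← Nat.mul_div_cancel' (hdiv c' hc'), h']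
  have h2 : ∑ a ∈ S.image (fun c => c / r), 1 / (a : ℝ) ≤ Ph b := by
    apply FN_sum_le b hb
    intro a ha
    obtain ⟨c, hc, rfl⟩ := mem_image.1 ha
    have hc1 : 1 ≤ c := (hS c hc).1
    obtain ⟨a, ha⟩ := hdiv c hc
    have e1 : c / r = a := by
      rw [ha]
      exact Nat.mul_div_cancel_left a hr0
    show FN b (c / r)
    rw [e1]
    have ha0 : a ≠ 0 := by
      intro h0
      rw [h0, mul_zero] at ha
      omega
    refine ⟨ha0, fun p hp hd => ?_⟩
    have h3 : p ∈ c.primeFactors := Nat.mem_primeFactors.2 ⟨hp, by rw [ha]; exact hd.mul_left r, by omega⟩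
    rw [(hS c hc).2] at h3
    exact Nat.dvd_of_mem_primeFactors h3
  have h3 : (∏ p ∈ b.primeFactors, ((p : ℝ) - 1)) * ((1 / (r : ℝ)) * Ph b) = 1 := by
    rw [Ph_prod b hb, hr]
    push_cast
    rw [one_div, ← prod_inv_distrib, ← prod_mul_distrib, ← prod_mul_distrib]
    apply prod_eq_one
    intro p hp
    have hp2 : (1 : ℝ) < p := by exact_mod_cast (hpr p hp).one_lt
    have hp0 : (p : ℝ) ≠ 0 := by positivity
    have hp1 : (p : ℝ) - 1 ≠ 0 := by
      intro h
      linarith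
    have : (1 - (p : ℝ)⁻¹)⁻¹ = p / (p - 1) := by
      field_simp
    rw [this]
    field_simp
  have h4 : 0 ≤ ∏ p ∈ b.primeFactors, ((p : ℝ) - 1) := prod_nonneg fun p hp => by
    have : (1 : ℝ) < p := by exact_mod_cast (hpr p hp).one_lt
    linarith
  rw [h1]
  refine le_trans ?_ (le_of_eq h3)
  refine mul_le_mul_of_nonneg_left ?_ h4
  exact mul_le_mul_of_nonneg_left h2 (by positivity)

theorem GG_sum_le (k R : ℕ) : ∑ b ∈ BB k R, 1 / (b : ℝ) * GG b.primeFactors ≤ 2 * R := by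
  classical
  have h1 : ∀ b ∈ BB k R, 1 / (b : ℝ) * GG b.primeFactors ≤ ∑ d ∈ b.divisors, 1 / (d : ℝ) := by
    intro b hb
    have hb1 : 1 ≤ b := (mem_BB.1 hb).1.1
    have hb0 : (0 : ℝ) < b := by exact_mod_cast hb1
    have e1 : ∑ d ∈ b.divisors, 1 / (d : ℝ) = 1 / (b : ℝ) * ∑ d ∈ b.divisors, (d : ℝ) := by
      rw [← Nat.sum_div_divisors b (fun d => 1 / (d : ℝ)), mul_sum]
      apply sum_congr rfl
      intro d hd
      have hdb := Nat.dvd_of_mem_divisors hd
      have hd0 : (d : ℝ) ≠ 0 := by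
        have := Nat.pos_of_mem_divisors hd
        positivity
      rw [Nat.cast_div hdb hd0, one_div_div]
      ring
    rw [e1]
    apply mul_le_mul_of_nonneg_left _ (by positivity)
    rw [GG_eq]
    have e2 : ∑ s ∈ b.primeFactors.powerset, ∏ p ∈ s, (p : ℝ) =
        ∑ d ∈ (b.primeFactors.powerset).image (fun s => ∏ p ∈ s, p), (d : ℝ) := by
      rw [sum_image]
      · apply sum_congr rfl
        intro s _
        push_cast
        rfl
      · intro s hs s' hs' h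
        have hs1 : s ⊆ b.primeFactors := mem_powerset.1 hs
        have hs1' : s' ⊆ b.primeFactors := mem_powerset.1 hs'
        have h' : ∏ p ∈ s, p = ∏ p ∈ s', p := h
        rw [← Nat.primeFactors_prod (fun p hp => Nat.prime_of_mem_primeFactors (hs1 hp)), h',
          Nat.primeFactors_prod (fun p hp => Nat.prime_of_mem_primeFactors (hs1' hp))]
    rw [e2]
    apply sum_le_sum_of_subset_of_nonneg
    · intro d hd
      obtain ⟨s, hs, rfl⟩ := mem_image.1 hd
      have hs1 : s ⊆ b.primeFactors := mem_powerset.1 hs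
      rw [Nat.mem_divisors]
      refine ⟨?_, by omega⟩
      exact (prod_dvd_iff (fun p hp => Nat.prime_of_mem_primeFactors (hs1 hp)) b).2
        fun p hp => Nat.dvd_of_mem_primeFactors (hs1 hp)
    · intro d _ _
      positivity
  refine (sum_le_sum h1).trans ?_
  have h2 : ∑ b ∈ BB k R, ∑ d ∈ b.divisors, 1 / (d : ℝ) ≤ ∑ b ∈ Icc 1 R, ∑ d ∈ b.divisors, 1 / (d : ℝ) :=
    sum_le_sum_of_subset_of_nonneg (filter_subset _ _) fun b _ _ => sum_nonneg fun d _ => by positivity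
  refine h2.trans ?_
  have h3 : ∑ b ∈ Icc 1 R, ∑ d ∈ b.divisors, 1 / (d : ℝ) =
      ∑ d ∈ Icc 1 R, 1 / (d : ℝ) * (((Icc 1 R).filter (fun b => d ∣ b)).card : ℝ) := by
    have e1 : ∀ b ∈ Icc 1 R, ∑ d ∈ b.divisors, 1 / (d : ℝ) =
        ∑ d ∈ Icc 1 R, (if d ∣ b then 1 / (d : ℝ) else 0) := by
      intro b hb
      rw [mem_Icc] at hb
      rw [← sum_filter]
      apply sum_congr _ fun _ _ => rfl
      ext d
      rw [Nat.mem_divisors, mem_filter, mem_Icc]
      constructor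
      · rintro ⟨h1, h2⟩
        exact ⟨⟨Nat.pos_of_dvd_of_pos h1 (by omega), (Nat.le_of_dvd (by omega) h1).trans hb.2⟩, h1⟩
      · rintro ⟨_, h2⟩
        exact ⟨h2, by omega⟩
    rw [sum_congr rfl e1, sum_comm]
    apply sum_congr rfl
    intro d _
    rw [← sum_filter, sum_const, nsmul_eq_mul, mul_comm]
  rw [h3]
  have h4 : ∀ d ∈ Icc 1 R, 1 / (d : ℝ) * (((Icc 1 R).filter (fun b => d ∣ b)).card : ℝ) ≤
      R * ((d : ℝ) ^ 2)⁻¹ := by
    intro d hd
    rw [mem_Icc] at hd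
    have hd0 : (0 : ℝ) < d := by exact_mod_cast hd.1
    have h5 : ((Icc 1 R).filter (fun b => d ∣ b)).card = R / d := by
      have : Icc 1 R = Ioc 0 R := by
        ext i
        simp only [mem_Icc, mem_Ioc]
        omega
      rw [this]
      exact Nat.Ioc_filter_dvd_card_eq_div R d
    rw [h5]
    have h6 : ((R / d : ℕ) : ℝ) ≤ R / d := Nat.cast_div_le
    calc 1 / (d : ℝ) * ((R / d : ℕ) : ℝ) ≤ 1 / (d : ℝ) * (R / d) :=
          mul_le_mul_of_nonneg_left h6 (by positivity)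
      _ = _ := by
          field_simp
  refine (sum_le_sum h4).trans ?_
  rw [← mul_sum]
  have h5 : ∑ d ∈ Icc 1 R, ((d : ℝ) ^ 2)⁻¹ ≤ 2 := by
    have h6 := sum_Ioo_inv_sq_le (α := ℝ) 0 (R + 1)
    have e : Ioo 0 (R + 1) = Icc 1 R := by
      ext i
      simp only [mem_Icc, mem_Ioo]
      omega
    rw [e] at h6
    simpa using h6
  have hR : (0 : ℝ) ≤ R := by positivity
  nlinarith

/-- the weights -/
noncomputable def WW (k R m : ℕ) : ℝ := ∑ b ∈ BB k R, 1 / (b : ℝ) * ps b.primeFactors m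

/-- **the sieve inequality** -/
theorem core {x y : ℝ} {k : ℕ} {l : ℤ} {n : ℕ} (hn : 1 ≤ n) (hy : 0 ≤ y) (hyx : y ≤ x)
    (hk : 1 ≤ k) (h : Nat.Coprime n k) (R : ℕ) :
    ∑ m ∈ Ap x y k l n, WW k R m ^ 2 ≤ y / k / n * SS k R + 8 * (R : ℝ) ^ 2 := by
  classical
  have e1 : ∑ m ∈ Ap x y k l n, WW k R m ^ 2 = ∑ b ∈ BB k R, ∑ b' ∈ BB k R,
      (1 / (b : ℝ) * (1 / (b' : ℝ))) * ∑ m ∈ Ap x y k l n, ps b.primeFactors m * ps b'.primeFactors m := by
    have e2 : ∀ m ∈ Ap x y k l n, WW k R m ^ 2 = ∑ b ∈ BB k R, ∑ b' ∈ BB k R,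
        (1 / (b : ℝ) * (1 / (b' : ℝ))) * (ps b.primeFactors m * ps b'.primeFactors m) := by
      intro m _
      unfold WW
      rw [sq, sum_mul_sum]
      apply sum_congr rfl
      intro b _
      apply sum_congr rfl
      intro b' _
      ring
    rw [sum_congr rfl e2, sum_comm]
    apply sum_congr rfl
    intro b _
    rw [sum_comm]
    apply sum_congr rfl
    intro b' _
    rw [mul_sum]
  rw [e1]
  have hZ : 0 ≤ y / k / n := by positivity
  have h1 : ∑ b ∈ BB k R, ∑ b' ∈ BB k R,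
      (1 / (b : ℝ) * (1 / (b' : ℝ))) * ∑ m ∈ Ap x y k l n, ps b.primeFactors m * ps b'.primeFactors m ≤
      ∑ b ∈ BB k R, ∑ b' ∈ BB k R, (1 / (b : ℝ) * (1 / (b' : ℝ))) *
        (y / k / n * KK b.primeFactors b'.primeFactors + 2 * (GG b.primeFactors * GG b'.primeFactors)) := by
    apply sum_le_sum
    intro b hb
    apply sum_le_sum
    intro b' hb'
    apply mul_le_mul_of_nonneg_left _ (by positivity)
    exact corr_le hn hy hyx hk h _ _ (BB_primes hb) (BB_primes hb')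
  refine h1.trans ?_
  have e3 : ∑ b ∈ BB k R, ∑ b' ∈ BB k R, (1 / (b : ℝ) * (1 / (b' : ℝ))) *
        (y / k / n * KK b.primeFactors b'.primeFactors + 2 * (GG b.primeFactors * GG b'.primeFactors)) =
      y / k / n * (∑ b ∈ BB k R, 1 / (b : ℝ) * ∑ b' ∈ BB k R,
        1 / (b' : ℝ) * KK b.primeFactors b'.primeFactors) +
      2 * (∑ b ∈ BB k R, 1 / (b : ℝ) * GG b.primeFactors) ^ 2 := by
    rw [sq, sum_mul_sum, mul_sum, mul_sum, ← sum_add_distrib]
    apply sum_congr rfl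
    intro b _
    rw [mul_sum, mul_sum, mul_sum, ← sum_add_distrib]
    apply sum_congr rfl
    intro b' _
    ring
  rw [e3]
  have h2 : ∑ b ∈ BB k R, 1 / (b : ℝ) * ∑ b' ∈ BB k R,
        1 / (b' : ℝ) * KK b.primeFactors b'.primeFactors ≤ SS k R := by
    rw [SS_eq]
    apply sum_le_sum
    intro b hb
    have e4 : ∑ b' ∈ BB k R, 1 / (b' : ℝ) * KK b.primeFactors b'.primeFactors =
        (∏ p ∈ b.primeFactors, ((p : ℝ) - 1)) *
          ∑ c ∈ (BB k R).filter (fun c => c.primeFactors = b.primeFactors), 1 / (c : ℝ) := by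
      rw [mul_sum, sum_filter]
      apply sum_congr rfl
      intro b' _
      split_ifs with hh
      · rw [hh, KK_self]
        ring
      · rw [KK_zero _ _ (fun h => hh h.symm), mul_zero]
    rw [e4]
    have h3 := fiber_le (mem_BB.1 hb).1.1 ((BB k R).filter (fun c => c.primeFactors = b.primeFactors))
      (fun c hc => by
        rw [mem_filter] at hc
        exact ⟨(mem_BB.1 hc.1).1.1, hc.2⟩)
    have h4 := mul_le_mul_of_nonneg_left h3 (show (0 : ℝ) ≤ 1 / (b : ℝ) by positivity)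
    rw [mul_one] at h4
    exact h4
  have h3 := GG_sum_le k R
  have h4 : 0 ≤ ∑ b ∈ BB k R, 1 / (b : ℝ) * GG b.primeFactors :=
    sum_nonneg fun b _ => mul_nonneg (by positivity) (GG_nonneg _)
  have h5 := mul_le_mul_of_nonneg_left h2 hZ
  have h6 : (∑ b ∈ BB k R, 1 / (b : ℝ) * GG b.primeFactors) ^ 2 ≤ (2 * R) ^ 2 :=
    pow_le_pow_left₀ h4 h3 2
  nlinarith

/-- the weight of a number without small primes -/
theorem WW_rough {k R m : ℕ} (hm : ∀ p : ℕ, p.Prime → p ∣ m → R < p) : WW k R m = SS k R := by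
  classical
  unfold WW
  rw [SS_eq]
  apply sum_congr rfl
  intro b hb
  have e1 : b.primeFactors.filter (fun q => q ∣ m) = ∅ := by
    rw [filter_eq_empty_iff]
    intro p hp hpm
    have h1 := hm p (Nat.prime_of_mem_primeFactors hp) hpm
    have h2 := Nat.le_of_mem_primeFactors hp
    have h3 := (mem_BB.1 hb).1.2
    omega
  unfold ps
  rw [e1, prod_empty, mul_one]

/-- the weight of a number with one small prime -/
theorem WW_semi {k R m p : ℕ} (hp : p.Prime) (hpk : Nat.Coprime p k)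
    (hm : ∀ q : ℕ, q.Prime → q ∣ m → R < q) : WW k R (p * m) = SS k R - SS k (R / p) := by
  classical
  unfold WW
  have e1 : ∀ b ∈ BB k R, 1 / (b : ℝ) * ps b.primeFactors (p * m) =
      1 / (b : ℝ) - (if p ∣ b then (p : ℝ) / b else 0) := by
    intro b hb
    have hb1 := (mem_BB.1 hb).1
    have hsub : ∀ q ∈ b.primeFactors, q ∣ p * m → q = p := by
      intro q hq hqm
      have hqp := Nat.prime_of_mem_primeFactors hq
      rcases hqp.dvd_mul.1 hqm with h1 | h1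
      · exact (Nat.prime_dvd_prime_iff_eq hqp hp).1 h1
      · have h2 := hm q hqp h1
        have h3 := Nat.le_of_mem_primeFactors hq
        omega
    by_cases hpb : p ∣ b
    · have e2 : b.primeFactors.filter (fun q => q ∣ p * m) = {p} := by
        ext q
        rw [mem_filter, mem_singleton]
        constructor
        · rintro ⟨h1, h2⟩
          exact hsub q h1 h2
        · rintro rfl
          exact ⟨Nat.mem_primeFactors.2 ⟨hp, hpb, by omega⟩, Dvd.intro m rfl⟩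
      unfold ps
      rw [e2, prod_singleton, if_pos hpb]
      ring
    · have e2 : b.primeFactors.filter (fun q => q ∣ p * m) = ∅ := by
        rw [filter_eq_empty_iff]
        intro q hq hqm
        have h1 := hsub q hq hqm
        rw [h1] at hq
        exact hpb (Nat.dvd_of_mem_primeFactors hq)
      unfold ps
      rw [e2, prod_empty, if_neg hpb]
      ring
  rw [sum_congr rfl e1, sum_sub_distrib, ← SS_eq]
  congr 1
  rw [← sum_filter, SS_eq]
  symm
  apply sum_bij (fun b _ => p * b)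
  · intro b hb
    rw [mem_BB] at hb
    rw [mem_filter, mem_BB]
    refine ⟨⟨⟨Nat.mul_pos hp.pos hb.1.1, ?_⟩, Nat.Coprime.mul_left hpk hb.2⟩, Dvd.intro b rfl⟩
    calc p * b ≤ p * (R / p) := Nat.mul_le_mul_left p hb.1.2
      _ ≤ R := Nat.mul_div_le R p
  · intro b _ b' _ h
    exact Nat.eq_of_mul_eq_mul_left hp.pos h
  · intro c hc
    rw [mem_filter, mem_BB] at hc
    obtain ⟨⟨⟨h1, h2⟩, h3⟩, b, rfl⟩ := hc
    refine ⟨b, ?_, rfl⟩
    rw [mem_BB]
    refine ⟨⟨Nat.pos_of_ne_zero fun h => by rw [h] at h1; simp at h1, ?_⟩, ?_⟩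
    · rw [Nat.le_div_iff_mul_le hp.pos, mul_comm]
      exact h2
    · exact Nat.Coprime.coprime_dvd_left (Dvd.intro_left p rfl) h3
  · intro b _
    have : (p : ℝ) ≠ 0 := by exact_mod_cast hp.ne_zero
    push_cast
    rw [mul_comm (p : ℝ) b, div_mul_eq_div_div_swap, div_self this]

open Classical in
/-- the elements of `Q` above `R` in a dilated progression -/
noncomputable def MM (Q : Set ℕ) (x y : ℝ) (k : ℕ) (l : ℤ) (R n : ℕ) : Finset ℕ :=
  (Ap x y k l n).filter (fun m => m ∈ Q ∧ R < m)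

/-- **main inequality** -/
theorem two {x y : ℝ} {k : ℕ} {l : ℤ} {n : ℕ} (hn : 1 ≤ n) (hy : 0 ≤ y) (hyx : y ≤ x)
    (hk : 1 ≤ k) (h : Nat.Coprime n k) (R : ℕ) (Q : Set ℕ)
    (hQ : ∀ m ∈ Q, R < m → ∀ p : ℕ, p.Prime → p ∣ m → R < p)
    (P : Finset ℕ) (hP : ∀ p ∈ P, p.Prime ∧ p ≤ R ∧ Nat.Coprime p k) :
    SS k R ^ 2 * (MM Q x y k l R n).card +
      ∑ p ∈ P, (SS k R - SS k (R / p)) ^ 2 * (MM Q x y k l R (n * p)).card ≤
      y / k / n * SS k R + 8 * (R : ℝ) ^ 2 := by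
  classical
  refine le_trans ?_ (core (l := l) hn hy hyx hk h R)
  have h1 : SS k R ^ 2 * (MM Q x y k l R n).card = ∑ m ∈ MM Q x y k l R n, WW k R m ^ 2 := by
    rw [← nsmul_eq_mul', ← sum_const]
    apply sum_congr rfl
    intro m hm
    unfold MM at hm
    rw [mem_filter] at hm
    rw [WW_rough (hQ m hm.2.1 hm.2.2)]
  have h2 : ∀ p ∈ P, (SS k R - SS k (R / p)) ^ 2 * ((MM Q x y k l R (n * p)).card : ℝ) =
      ∑ m ∈ (MM Q x y k l R (n * p)).image (fun m => p * m), WW k R m ^ 2 := by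
    intro p hp
    obtain ⟨h3, h4, h5⟩ := hP p hp
    rw [sum_image, ← nsmul_eq_mul', ← sum_const]
    · apply sum_congr rfl
      intro m hm
      unfold MM at hm
      rw [mem_filter] at hm
      rw [WW_semi h3 h5 (hQ m hm.2.1 hm.2.2)]
    · intro m _ m' _ hh
      exact Nat.eq_of_mul_eq_mul_left h3.pos hh
  have hdis : (P : Set ℕ).PairwiseDisjoint
      (fun p => (MM Q x y k l R (n * p)).image (fun m => p * m)) := by
    intro p hp p' hp' hne
    rw [Function.onFun, disjoint_left]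
    intro c hc hc'
    obtain ⟨m, hm, rfl⟩ := mem_image.1 hc
    obtain ⟨m', hm', he⟩ := mem_image.1 hc'
    unfold MM at hm hm'
    rw [mem_filter] at hm hm'
    obtain ⟨h3, h4, h5⟩ := hP p hp
    obtain ⟨h3', h4', h5'⟩ := hP p' hp'
    have h6 : p ∣ p' * m' := by
      rw [he]
      exact Dvd.intro m rfl
    rcases h3.dvd_mul.1 h6 with h7 | h7
    · exact hne ((Nat.prime_dvd_prime_iff_eq h3 h3').1 h7)
    · have h8 := hQ m' hm'.2.1 hm'.2.2 p h3 h7
      omega
  rw [h1, sum_congr rfl h2, ← sum_biUnion hdis, ← sum_union]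
  · apply sum_le_sum_of_subset_of_nonneg
    · intro m hm
      rcases mem_union.1 hm with h3 | h3
      · unfold MM at h3
        exact (mem_filter.1 h3).1
      · obtain ⟨p, hp, h4⟩ := mem_biUnion.1 h3
        obtain ⟨c, hc, rfl⟩ := mem_image.1 h4
        unfold MM at hc
        rw [mem_filter, mem_Ap (Nat.mul_pos hn (hP p hp).1.pos) hy hyx] at hc
        rw [mem_Ap hn hy hyx, ← mul_assoc]
        exact hc.1
    · intro m _ _
      positivity
  · rw [disjoint_left]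
    intro m hm hm'
    obtain ⟨p, hp, h4⟩ := mem_biUnion.1 hm'
    obtain ⟨c, hc, rfl⟩ := mem_image.1 h4
    unfold MM at hm
    rw [mem_filter] at hm
    have h5 := hQ (p * c) hm.2.1 hm.2.2 p (hP p hp).1 (Dvd.intro c rfl)
    have h6 := (hP p hp).2.1
    omega

end Pool.Agent.E8helper87.BT
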