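import Mathlib

/-!
# Sums over integers coprime to `k`
-/

set_option autoImplicit false

namespace Pool.Agent.E8helper87.BT

open Finset

/-- the sum of `1 / b` over the `b ≤ Y` coprime to `k` -/
noncomputable def SS (k Y : ℕ) : ℝ := ∑ b ∈ (Icc 1 Y).filter (fun b => Nat.Coprime b k), 1 / (b : ℝ)

/-- the harmonic sum -/
noncomputable def HH (Y : ℕ) : ℝ := ∑ b ∈ Icc 1 Y, 1 / (b : ℝ)

/-- `k / φ(k)` -/
noncomputable def Ph (k : ℕ) : ℝ := (k : ℝ) / Nat.totient k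

theorem HH_le (Y : ℕ) : HH Y ≤ 1 + Real.log Y := by
  have h := harmonic_le_one_add_log Y
  rw [harmonic_eq_sum_Icc] at h
  push_cast at h
  unfold HH
  simpa [one_div] using h

theorem HH_ge (Y : ℕ) : Real.log (Y + 1) ≤ HH Y := by
  have h := log_add_one_le_harmonic Y
  rw [harmonic_eq_sum_Icc] at h
  push_cast at h
  unfold HH
  simpa [one_div] using h

theorem SS_nonneg (k Y : ℕ) : 0 ≤ SS k Y := sum_nonneg fun b _ => by positivity

theorem SS_mono (k : ℕ) {Y Y' : ℕ} (h : Y ≤ Y') : SS k Y ≤ SS k Y' := by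
  unfold SS
  apply sum_le_sum_of_subset_of_nonneg
  · intro b hb
    rw [mem_filter, mem_Icc] at hb ⊢
    exact ⟨⟨hb.1.1, hb.1.2.trans h⟩, hb.2⟩
  · intro b _ _
    positivity

theorem one_le_SS (k : ℕ) {Y : ℕ} (hY : 1 ≤ Y) : 1 ≤ SS k Y := by
  unfold SS
  have h := single_le_sum (s := (Icc 1 Y).filter (fun b => Nat.Coprime b k))
    (f := fun b : ℕ => 1 / (b : ℝ)) (fun b _ => by positivity) (a := 1)
    (mem_filter.2 ⟨mem_Icc.2 ⟨le_rfl, hY⟩, Nat.coprime_one_left k⟩)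
  simpa using h

theorem SS_le_HH (k Y : ℕ) : SS k Y ≤ HH Y := by
  unfold SS HH
  exact sum_le_sum_of_subset_of_nonneg (filter_subset _ _) fun b _ _ => by positivity

/-- all primes of `a` divide `k` -/
def FN (k a : ℕ) : Prop := a ≠ 0 ∧ ∀ p : ℕ, p.Prime → p ∣ a → p ∣ k

theorem FN_one (k : ℕ) : FN k 1 := by
  refine ⟨one_ne_zero, fun p hp h => ?_⟩
  exact absurd (Nat.dvd_one.1 h) hp.one_lt.ne'

theorem FN_mul {k a a' : ℕ} (h : FN k a) (h' : FN k a') : FN k (a * a') := by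
  refine ⟨mul_ne_zero h.1 h'.1, fun p hp hd => ?_⟩
  rcases hp.dvd_mul.1 hd with h1 | h1
  · exact h.2 p hp h1
  · exact h'.2 p hp h1

theorem FN_coprime {k a b : ℕ} (h : FN k a) (hb : Nat.Coprime b k) : Nat.Coprime a b := by
  rw [Nat.coprime_iff_gcd_eq_one]
  by_contra hne
  obtain ⟨p, hp, hpd⟩ := Nat.exists_prime_and_dvd hne
  have h1 : p ∣ a := hpd.trans (Nat.gcd_dvd_left _ _)
  have h2 : p ∣ b := hpd.trans (Nat.gcd_dvd_right _ _)
  exact Nat.not_coprime_of_dvd_of_dvd hp.one_lt h2 (h.2 p hp h1) hb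

theorem exists_dec (k t : ℕ) (ht : t ≠ 0) : ∃ a b : ℕ, t = a * b ∧ FN k a ∧ Nat.Coprime b k := by
  obtain ⟨b, hb⟩ := Nat.gcd_dvd_left t (k ^ t)
  refine ⟨Nat.gcd t (k ^ t), b, hb, ⟨?_, ?_⟩, ?_⟩
  · intro h0
    exact ht (Nat.eq_zero_of_gcd_eq_zero_left h0)
  · intro p hp hd
    exact hp.dvd_of_dvd_pow (hd.trans (Nat.gcd_dvd_right _ _))
  · by_contra hne
    obtain ⟨p, hp, hpb, hpk⟩ := Nat.Prime.not_coprime_iff_dvd.1 hne
    have h1 : p ^ t.factorization p ∣ t := Nat.ordProj_dvd t p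
    have h2 : p ^ t.factorization p ∣ k ^ t := by
      have h3 : p ^ t.factorization p ∣ p ^ t := pow_dvd_pow _ (Nat.factorization_lt p ht).le
      exact h3.trans (pow_dvd_pow_of_dvd hpk t)
    have h3 : p ^ (t.factorization p + 1) ∣ t := by
      rw [pow_succ]
      have h4 : p ^ t.factorization p * p ∣ Nat.gcd t (k ^ t) * b := Nat.mul_dvd_mul (Nat.dvd_gcd h1 h2) hpb
      rwa [← hb] at h4
    exact Nat.pow_succ_factorization_not_dvd ht hp h3

open Classical in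
/-- the integers `t ≤ T` whose part coprime to `k` is at most `X` -/
noncomputable def Om (k X T : ℕ) : Finset ℕ :=
  (Icc 1 T).filter (fun t => ∃ a b : ℕ, t = a * b ∧ FN k a ∧ Nat.Coprime b k ∧ b ≤ X)

open Classical in
/-- the integers `a ≤ T` with all prime factors dividing `k` -/
noncomputable def AA (k T : ℕ) : Finset ℕ := (Icc 1 T).filter (FN k)

/-- the sequence `1 / n` as a homomorphism -/
noncomputable def inv0 : ℕ →* ℝ where
  toFun n := (n : ℝ)⁻¹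
  map_one' := by simp
  map_mul' a b := by push_cast; rw [mul_inv]

theorem inv0_apply (n : ℕ) : inv0 n = (n : ℝ)⁻¹ := rfl

theorem Ph_prod (k : ℕ) (hk : 1 ≤ k) : Ph k = ∏ p ∈ k.primeFactors, (1 - (p : ℝ)⁻¹)⁻¹ := by
  have h := Nat.totient_eq_mul_prod_factors k
  have h1 : (Nat.totient k : ℝ) = k * ∏ p ∈ k.primeFactors, (1 - (p : ℝ)⁻¹) := by
    have := congrArg (fun q : ℚ => (q : ℝ)) h
    push_cast at this
    exact this
  have hk0 : (k : ℝ) ≠ 0 := by exact_mod_cast (by omega : k ≠ 0)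
  unfold Ph
  rw [h1, prod_inv_distrib, div_mul_eq_div_div, div_self hk0, one_div]

theorem FN_hasSum (k : ℕ) (hk : 1 ≤ k) :
    HasSum (Set.indicator {a : ℕ | FN k a} (fun a : ℕ => 1 / (a : ℝ))) (Ph k) := by
  have h := (EulerProduct.summable_and_hasSum_factoredNumbers_prod_filter_prime_geometric (f := inv0)
    (fun {p} hp => by
      rw [inv0_apply, norm_inv, Real.norm_natCast]
      exact inv_lt_one_of_one_lt₀ (by exact_mod_cast hp.one_lt)) k.primeFactors).2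
  have e1 : k.primeFactors.filter Nat.Prime = k.primeFactors :=
    filter_true_of_mem fun p hp => (Nat.mem_primeFactors.1 hp).1
  rw [e1] at h
  have e2 : ∏ p ∈ k.primeFactors, (1 - inv0 p)⁻¹ = Ph k := (Ph_prod k hk).symm
  rw [e2] at h
  have e3 : Nat.factoredNumbers k.primeFactors = {a : ℕ | FN k a} := by
    ext a
    rw [Nat.mem_factoredNumbers]
    show _ ↔ (a ≠ 0 ∧ ∀ p : ℕ, p.Prime → p ∣ a → p ∣ k)
    constructor
    · rintro ⟨h1, h2⟩
      refine ⟨h1, fun p hp hd => ?_⟩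
      exact (Nat.mem_primeFactors.1 (h2 p ((Nat.mem_primeFactorsList h1).2 ⟨hp, hd⟩))).2.1
    · rintro ⟨h1, h2⟩
      refine ⟨h1, fun p hp => ?_⟩
      obtain ⟨h3, h4⟩ := (Nat.mem_primeFactorsList h1).1 hp
      exact Nat.mem_primeFactors.2 ⟨h3, h2 p h3 h4, by omega⟩
  rw [e3] at h
  have h2 := hasSum_subtype_iff_indicator.1 h
  have e4 : (Set.indicator {a : ℕ | FN k a} (fun a : ℕ => 1 / (a : ℝ))) =
      Set.indicator {a : ℕ | FN k a} (fun a : ℕ => inv0 a) := by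
    congr 1
    ext a
    rw [inv0_apply, one_div]
  rw [e4]
  exact h2

theorem FN_sum_le (k : ℕ) (hk : 1 ≤ k) (A : Finset ℕ) (hA : ∀ a ∈ A, FN k a) :
    ∑ a ∈ A, 1 / (a : ℝ) ≤ Ph k := by
  have h := sum_le_hasSum A (fun a _ => ?_) (FN_hasSum k hk)
  · refine le_trans (le_of_eq ?_) h
    apply sum_congr rfl
    intro a ha
    rw [Set.indicator_of_mem (show a ∈ {a : ℕ | FN k a} from hA a ha)]
  · exact Set.indicator_nonneg (fun a _ => by positivity) a

theorem FN_sum_ge (k : ℕ) (hk : 1 ≤ k) (ζ : ℝ) (hζ : 0 < ζ) :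
    ∃ T : ℕ, Ph k - ζ ≤ ∑ a ∈ AA k T, 1 / (a : ℝ) := by
  classical
  have h := (FN_hasSum k hk).tendsto_sum_nat
  have h1 := h.eventually (le_mem_nhds (show Ph k - ζ < Ph k by linarith))
  obtain ⟨n, hn⟩ := h1.exists
  refine ⟨n, hn.trans ?_⟩
  unfold AA
  rw [sum_filter]
  have h2 : ∑ i ∈ range n, Set.indicator {a : ℕ | FN k a} (fun a : ℕ => 1 / (a : ℝ)) i ≤
      ∑ i ∈ range (n + 1), Set.indicator {a : ℕ | FN k a} (fun a : ℕ => 1 / (a : ℝ)) i := by
    apply sum_le_sum_of_subset_of_nonneg (range_mono (by omega))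
    intro i _ _
    exact Set.indicator_nonneg (fun a _ => by positivity) i
  refine h2.trans (le_of_eq ?_)
  rw [sum_range_succ', Set.indicator_of_notMem (show (0 : ℕ) ∉ {a : ℕ | FN k a} from fun h => h.1 rfl),
    add_zero, range_eq_Ico, sum_Ico_add' (fun i => Set.indicator {a : ℕ | FN k a}
      (fun a : ℕ => 1 / (a : ℝ)) i) 0 n 1]
  have e : Ico (0 + 1) (n + 1) = Icc 1 n := by
    ext i
    simp only [mem_Ico, mem_Icc]
    omega
  rw [e]
  apply sum_congr rfl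
  intro i _
  rw [Set.indicator_apply]
  rfl

/-- **D1** -/
theorem Om_le (k X T : ℕ) (hk : 1 ≤ k) : ∑ t ∈ Om k X T, 1 / (t : ℝ) ≤ Ph k * SS k X := by
  classical
  have h1 : Om k X T ⊆ ((AA k T) ×ˢ ((Icc 1 X).filter (fun b => Nat.Coprime b k))).image
      (fun q : ℕ × ℕ => q.1 * q.2) := by
    intro t ht
    unfold Om at ht
    rw [mem_filter, mem_Icc] at ht
    obtain ⟨⟨ht1, ht2⟩, a, b, hab, ha, hb, hbX⟩ := ht
    have hb0 : 1 ≤ b := by
      rcases Nat.eq_zero_or_pos b with h | h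
      · rw [h, mul_zero] at hab
        omega
      · exact h
    rw [mem_image]
    refine ⟨(a, b), ?_, hab.symm⟩
    rw [mem_product]
    unfold AA
    rw [mem_filter, mem_filter, mem_Icc, mem_Icc]
    refine ⟨⟨⟨Nat.pos_of_ne_zero ha.1, ?_⟩, ha⟩, ⟨hb0, hbX⟩, hb⟩
    refine le_trans ?_ ht2
    rw [hab]
    exact Nat.le_mul_of_pos_right a hb0
  calc ∑ t ∈ Om k X T, 1 / (t : ℝ) ≤ ∑ t ∈ ((AA k T) ×ˢ ((Icc 1 X).filter
        (fun b => Nat.Coprime b k))).image (fun q : ℕ × ℕ => q.1 * q.2), 1 / (t : ℝ) :=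
        sum_le_sum_of_subset_of_nonneg h1 fun _ _ _ => by positivity
    _ ≤ ∑ q ∈ (AA k T) ×ˢ ((Icc 1 X).filter (fun b => Nat.Coprime b k)), 1 / ((q.1 * q.2 : ℕ) : ℝ) := by
        refine sum_image_le_of_nonneg (f := fun t : ℕ => 1 / (t : ℝ)) ?_
        intro i _
        positivity
    _ = (∑ a ∈ AA k T, 1 / (a : ℝ)) * SS k X := by
        unfold SS
        rw [sum_product, sum_mul_sum]
        apply sum_congr rfl
        intro a _
        apply sum_congr rfl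
        intro b _
        push_cast
        rw [one_div_mul_one_div]
    _ ≤ _ := mul_le_mul_of_nonneg_right (FN_sum_le k hk _ fun a ha => by
        unfold AA at ha
        exact (mem_filter.1 ha).2) (SS_nonneg k X)

/-- **D2** -/
theorem Om_ge (k X : ℕ) (hk : 1 ≤ k) (ζ : ℝ) (hζ : 0 < ζ) :
    ∃ T : ℕ, Ph k * SS k X - ζ ≤ ∑ t ∈ Om k X T, 1 / (t : ℝ) := by
  classical
  obtain ⟨T, hT⟩ := FN_sum_ge k hk (ζ / (SS k X + 1)) (by have := SS_nonneg k X; positivity)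
  refine ⟨T * X, ?_⟩
  have hS := SS_nonneg k X
  have h0 : Ph k * SS k X - ζ ≤ (∑ a ∈ AA k T, 1 / (a : ℝ)) * SS k X := by
    have h1 := mul_le_mul_of_nonneg_right hT hS
    have h2 : ζ / (SS k X + 1) * SS k X ≤ ζ := by
      rw [div_mul_eq_mul_div, div_le_iff₀ (by positivity)]
      nlinarith
    nlinarith
  refine h0.trans ?_
  have hinj : ∀ q ∈ (AA k T) ×ˢ ((Icc 1 X).filter (fun b => Nat.Coprime b k)),
      ∀ q' ∈ (AA k T) ×ˢ ((Icc 1 X).filter (fun b => Nat.Coprime b k)),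
      q.1 * q.2 = q'.1 * q'.2 → q = q' := by
    rintro ⟨a, b⟩ h ⟨a', b'⟩ h' he
    rw [mem_product] at h h'
    unfold AA at h h'
    rw [mem_filter, mem_filter, mem_Icc, mem_Icc] at h h'
    obtain ⟨⟨h1, h2⟩, h3, h4⟩ := h
    obtain ⟨⟨h1', h2'⟩, h3', h4'⟩ := h'
    have he' : a * b = a' * b' := he
    have d1 : a ∣ a' := by
      have : a ∣ a' * b' := ⟨b, he'.symm⟩
      exact (FN_coprime h2 h4').dvd_of_dvd_mul_right this
    have d2 : a' ∣ a := by
      have : a' ∣ a * b := ⟨b', he'⟩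
      exact (FN_coprime h2' h4).dvd_of_dvd_mul_right this
    have e1 : a = a' := Nat.dvd_antisymm d1 d2
    have e2 : b = b' := by
      rw [e1] at he'
      exact Nat.eq_of_mul_eq_mul_left (Nat.pos_of_ne_zero h2'.1) he'
    exact Prod.ext e1 e2
  have e1 : (∑ a ∈ AA k T, 1 / (a : ℝ)) * SS k X = ∑ t ∈ ((AA k T) ×ˢ ((Icc 1 X).filter
        (fun b => Nat.Coprime b k))).image (fun q : ℕ × ℕ => q.1 * q.2), 1 / (t : ℝ) := by
    rw [sum_image hinj]
    unfold SS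
    rw [sum_product, sum_mul_sum]
    apply sum_congr rfl
    intro a _
    apply sum_congr rfl
    intro b _
    push_cast
    rw [one_div_mul_one_div]
  rw [e1]
  apply sum_le_sum_of_subset_of_nonneg
  · intro t ht
    rw [mem_image] at ht
    obtain ⟨⟨a, b⟩, h, rfl⟩ := ht
    rw [mem_product] at h
    unfold AA at h
    rw [mem_filter, mem_filter, mem_Icc, mem_Icc] at h
    obtain ⟨⟨h1, h2⟩, h3, h4⟩ := h
    unfold Om
    rw [mem_filter, mem_Icc]
    exact ⟨⟨Nat.mul_pos h1.1 h3.1, Nat.mul_le_mul h1.2 h3.2⟩, a, b, rfl, h2, h4, h3.2⟩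
  · intro _ _ _
    positivity

/-- the integers up to `X` belong to `Om` -/
theorem mem_Om_of_le {k X T t : ℕ} (ht : 1 ≤ t) (htX : t ≤ X) (htT : t ≤ T) : t ∈ Om k X T := by
  classical
  obtain ⟨a, b, hab, ha, hb⟩ := exists_dec k t (by omega)
  unfold Om
  rw [mem_filter, mem_Icc]
  refine ⟨⟨ht, htT⟩, a, b, hab, ha, hb, ?_⟩
  refine le_trans ?_ htX
  rw [hab]
  exact Nat.le_mul_of_pos_left b (Nat.pos_of_ne_zero ha.1)

/-- multiplication by `c` -/
theorem Om_mul {k X T t c X' T' : ℕ} (ht : t ∈ Om k X T) (hc : 1 ≤ c) (hX : X * c ≤ X')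
    (hT : t * c ≤ T') : t * c ∈ Om k X' T' := by
  classical
  unfold Om at ht ⊢
  rw [mem_filter, mem_Icc] at ht ⊢
  obtain ⟨⟨ht1, ht2⟩, a, b, hab, ha, hb, hbX⟩ := ht
  obtain ⟨a', b', hab', ha', hb'⟩ := exists_dec k c (by omega)
  refine ⟨⟨Nat.mul_pos ht1 hc, hT⟩, a * a', b * b', ?_, FN_mul ha ha', Nat.Coprime.mul_left hb hb', ?_⟩
  · rw [hab, hab']
    ring
  · refine le_trans (Nat.mul_le_mul hbX ?_) hX
    rw [hab']
    exact Nat.le_mul_of_pos_left b' (Nat.pos_of_ne_zero ha'.1)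

/-- divisors -/
theorem Om_dvd {k X T t c : ℕ} (ht : c * t ∈ Om k X T) (hc : 1 ≤ c) : t ∈ Om k X T := by
  classical
  unfold Om at ht ⊢
  rw [mem_filter, mem_Icc] at ht ⊢
  obtain ⟨⟨ht1, ht2⟩, a, b, hab, ha, hb, hbX⟩ := ht
  have ht0 : 0 < t := Nat.pos_of_mul_pos_left ht1
  obtain ⟨a', b', hab', ha', hb'⟩ := exists_dec k t (by omega)
  refine ⟨⟨ht0, (Nat.le_mul_of_pos_left t hc).trans ht2⟩, a', b', hab', ha', hb', ?_⟩
  have h1 : b' ∣ a * b := ⟨c * a', by rw [← hab, hab']; ring⟩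
  have h2 : b' ∣ b := (FN_coprime ha hb').symm.dvd_of_dvd_mul_left h1
  have hb0 : 0 < b := by
    rcases Nat.eq_zero_or_pos b with h | h
    · rw [h, mul_zero] at hab
      omega
    · exact h
  exact (Nat.le_of_dvd hb0 h2).trans hbX

/-- `Φ S(Y) ≥ H(Y)` -/
theorem HH_le_SS (k Y : ℕ) (hk : 1 ≤ k) : HH Y ≤ Ph k * SS k Y := by
  refine le_trans ?_ (Om_le k Y Y hk)
  unfold HH
  apply sum_le_sum_of_subset_of_nonneg
  · intro t ht
    rw [mem_Icc] at ht
    exact mem_Om_of_le ht.1 ht.2 ht.2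
  · intro _ _ _
    positivity

theorem one_le_Ph (k : ℕ) (hk : 1 ≤ k) : 1 ≤ Ph k := by
  unfold Ph
  rw [one_le_div (by exact_mod_cast Nat.totient_pos.2 hk)]
  exact_mod_cast Nat.totient_le k

end Pool.Agent.E8helper87.BT
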